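import Pool.Agent.Helper31.FM2.Small

set_option autoImplicit false

/-!
FM2-13 All. Odd degree, all leading coefficients: the number of pairs `(f, class with an integral point)`.

PROOF. `m = 2 g`. `odd_points_t` (Helper38/FM/Points.lean) with `t = 4 u`, `odd_small` with `R = 2^t`: `T = T1 ∪ T2`, `T1` = the `p` whose last coefficient has a squarefree divisor `q` with
`H ≤ 2^t q`. `#T1 ≤ 2^(K1 (t+1)) H^(m+2) (log H)^(-1/8)`, `#T2 ≤ C 2^(-δ t) H^(m+2) + #(image)`, and the image consists of `a` in the box whose last coefficient is in the set of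
`sqf_part_r u` (`≤ 8 H / 2^u` elements): `≤ (8 H / 2^u) (2H+1)^(m+1)`. Choose `u = ⌊β log log H / log 2⌋` (`0` if negative), `β` small (as in `odd_points`, `odd_main_r`).
-/

open Polynomial Matrix Pool.Agent.Helper32.DZ Pool.Agent.Helper32.FM Pool.Agent.Helper38.FM

namespace Pool.Agent.Helper31.FM2

private theorem oneEach_mono {n H : ℕ} {T T' : Finset ((Fin (n + 1) → ℤ) × ℤ)} (h : T' ⊆ T)
    (hT : OneEach H T) : OneEach H T' :=
  fun a x x' hx hx' θ hθ hc => hT a x x' (h hx) (h hx') θ hθ hc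

/-- the coefficient vectors in the box whose last entry is exceptional -/
private theorem image_le (m u H : ℕ) (hH : 1 ≤ H) (A : Finset (Fin (m + 1 + 1) → ℤ))
    (hA : ∀ a ∈ A, (∀ k, |a k| ≤ (H : ℤ)) ∧ a (Fin.last (m + 1)) ≠ 0 ∧
      ¬ ∃ q : ℕ, Squarefree q ∧ (q : ℤ) ∣ a (Fin.last (m + 1)) ∧ (H : ℝ) ≤ 2 ^ (4 * u) * q) :
    (A.card : ℝ) ≤ 8 * 3 ^ (m + 1) * (H : ℝ) ^ (m + 2) * (1 / 2 ^ u) := by
  classical
  obtain ⟨E, hE⟩ : ∃ E : Set ℤ, E = {α : ℤ | α ≠ 0 ∧ |α| ≤ (H : ℤ) ∧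
      ¬ ∃ q : ℕ, Squarefree q ∧ (q : ℤ) ∣ α ∧ (H : ℝ) ≤ 2 ^ (4 * u) * q} := ⟨_, rfl⟩
  have h5 := Pool.Agent.Helper38.DZR.sqf_part_r u H hH
  rw [← hE] at h5
  have hfin : E.Finite := by
    refine (Set.finite_Icc (-(H : ℤ)) (H : ℤ)).subset ?_
    intro α hα
    rw [hE] at hα
    exact abs_le.1 hα.2.1
  obtain ⟨F, hF⟩ : ∃ F : Finset (Fin (m + 1 + 1) → ℤ), F = Fintype.piFinset (fun k : Fin (m + 1 + 1) =>
      if k = Fin.last (m + 1) then hfin.toFinset else Finset.Icc (-(H : ℤ)) (H : ℤ)) := ⟨_, rfl⟩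
  have hsub : A ⊆ F := by
    intro a ha
    obtain ⟨h1, h2, h3⟩ := hA a ha
    rw [hF, Fintype.mem_piFinset]
    intro k
    by_cases hk : k = Fin.last (m + 1)
    · rw [if_pos hk, Set.Finite.mem_toFinset, hE, hk]
      exact ⟨h2, h1 _, h3⟩
    · rw [if_neg hk, Finset.mem_Icc]
      exact abs_le.1 (h1 k)
  have hcard : F.card = (∏ _i : Fin (m + 1), (2 * H + 1)) * E.ncard := by
    rw [hF, Fintype.card_piFinset, Fin.prod_univ_castSucc]
    congr 1
    · refine Finset.prod_congr rfl fun i _ => ?_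
      rw [if_neg (Fin.castSucc_lt_last i).ne, Int.card_Icc]
      omega
    · rw [if_pos rfl, Set.ncard_eq_toFinset_card _ hfin]
  rw [Finset.prod_const, Finset.card_univ, Fintype.card_fin] at hcard
  have hHr : (1 : ℝ) ≤ H := by exact_mod_cast hH
  have h6 : (A.card : ℝ) ≤ (2 * (H : ℝ) + 1) ^ (m + 1) * (E.ncard : ℝ) := by
    have h7 := Finset.card_le_card hsub
    rw [hcard] at h7
    exact_mod_cast h7
  refine h6.trans ?_
  have h8 : (2 * (H : ℝ) + 1) ^ (m + 1) ≤ (3 * H) ^ (m + 1) :=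
    pow_le_pow_left₀ (by positivity) (by linarith) _
  calc (2 * (H : ℝ) + 1) ^ (m + 1) * (E.ncard : ℝ) ≤ (3 * H) ^ (m + 1) * (8 * (H : ℝ) / 2 ^ u) :=
        mul_le_mul h8 h5 (Nat.cast_nonneg _) (by positivity)
    _ = 8 * 3 ^ (m + 1) * (H : ℝ) ^ (m + 2) * (1 / 2 ^ u) := by
        rw [mul_pow]
        ring

theorem odd_points_all (m : ℕ) (hm : Even m) (h2 : 2 ≤ m) : ∃ C γ : ℝ, 1 ≤ C ∧ 0 < γ ∧
    ∀ H : ℕ, 2 ≤ H → ∀ T : Finset ((Fin (m + 1 + 1) → ℤ) × ℤ),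
      (∀ p ∈ T, (∀ k, |p.1 k| ≤ (H : ℤ)) ∧ Good p.1 ∧
        ∃ y : ℤ, y ^ 2 = ∑ i, p.1 i * p.2 ^ (i : ℕ)) → OneEach H T →
      (T.card : ℝ) ≤ C * (H : ℝ) ^ (m + 2) * (Real.log H) ^ (-γ) := by
  classical
  obtain ⟨K0, hK0⟩ := odd_points_t m hm h2
  obtain ⟨g, hg⟩ := hm
  obtain rfl : m = 2 * g := by omega
  obtain ⟨C1, δ, hC1, hδ, h1⟩ := odd_small g (by omega)
  obtain ⟨K, hK⟩ : ∃ K : ℕ, K = K0 + 1 := ⟨_, rfl⟩
  have hKr : (K : ℝ) = K0 + 1 := by rw [hK]; push_cast; ring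
  have hK00 : (0 : ℝ) ≤ K0 := Nat.cast_nonneg _
  have hK1 : (1 : ℝ) ≤ K := by rw [hKr]; linarith
  obtain ⟨β, hβ⟩ : ∃ β : ℝ, β = 1 / (64 * K) := ⟨_, rfl⟩
  have hβ0 : 0 < β := by rw [hβ]; positivity
  have hβK : β * K = 1 / 64 := by rw [hβ]; field_simp
  obtain ⟨γ, hγ⟩ : ∃ γ : ℝ, γ = min (1 / 16) (min (4 * β * δ) β) := ⟨_, rfl⟩
  have hγ0 : 0 < γ := by
    rw [hγ]
    exact lt_min (by norm_num) (lt_min (by positivity) hβ0)
  have hγ1 : γ ≤ 1 / 16 := by rw [hγ]; exact min_le_left _ _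
  have hγ2 : γ ≤ 4 * β * δ := by rw [hγ]; exact (min_le_right _ _).trans (min_le_left _ _)
  have hγ3 : γ ≤ β := by rw [hγ]; exact (min_le_right _ _).trans (min_le_right _ _)
  obtain ⟨D, hD⟩ : ∃ D : ℝ, D = (2 : ℝ) ^ (4 * δ) := ⟨_, rfl⟩
  have hD1 : 1 ≤ D := by rw [hD]; exact Real.one_le_rpow (by norm_num) (by positivity)
  have hl2 : 0 < Real.log 2 := Real.log_pos (by norm_num)
  refine ⟨2 ^ (K + 1) + C1 * D + 16 * 3 ^ (2 * g + 1), γ, ?_, hγ0, fun H hH T hT hone => ?_⟩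
  · have h3 : (1 : ℝ) ≤ 2 ^ (K + 1) := one_le_pow₀ (by norm_num)
    have h4 : (0 : ℝ) ≤ C1 * D := by positivity
    have h5 : (0 : ℝ) ≤ 16 * 3 ^ (2 * g + 1) := by positivity
    linarith
  have hHr : (2 : ℝ) ≤ H := by exact_mod_cast hH
  have hH0 : (0 : ℝ) < H := by linarith
  obtain ⟨x, hx⟩ : ∃ x : ℝ, x = Real.log H := ⟨_, rfl⟩
  rw [← hx]
  have hx0 : 0 < x := by
    rw [hx]
    exact Real.log_pos (by linarith)
  have hxh : (1 : ℝ) / 2 ≤ x := by
    rw [hx]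
    have h1 := Real.log_le_log (by norm_num) hHr
    have h3 := Real.log_two_gt_d9
    linarith
  have hxc : 0 < x ^ (-γ) := Real.rpow_pos_of_pos hx0 _
  obtain ⟨u, huA, huB, huC⟩ : ∃ u : ℕ,
      (2 : ℝ) ^ (K0 * (4 * u + 1)) * x ^ (-(1 / 8 : ℝ)) ≤ 2 ^ (K + 1) * x ^ (-γ) ∧
      (1 : ℝ) / 2 ^ u ≤ 2 * x ^ (-γ) ∧
      ((2 : ℝ) ^ (4 * u)) ^ (-δ) ≤ D * x ^ (-γ) := by
    rcases le_or_gt 1 x with hx1 | hx1
    · obtain ⟨u, hu⟩ : ∃ u : ℕ, u = ⌊β * Real.log x / Real.log 2⌋₊ := ⟨_, rfl⟩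
      have hlx : 0 ≤ Real.log x := Real.log_nonneg hx1
      have hu1 : (u : ℝ) * Real.log 2 ≤ β * Real.log x := by
        rw [← le_div_iff₀ hl2, hu]
        exact Nat.floor_le (by positivity)
      have hu2 : β * Real.log x ≤ ((u : ℝ) + 1) * Real.log 2 := by
        rw [← div_le_iff₀ hl2, hu]
        exact (Nat.lt_floor_add_one _).le
      have h4 : x ^ β ≤ 2 ^ (u + 1) := by
        rw [← Real.log_le_log_iff (Real.rpow_pos_of_pos hx0 _) (by positivity), Real.log_pow,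
          Real.log_rpow hx0]
        push_cast
        exact hu2
      refine ⟨u, ?_, ?_, ?_⟩
      · have e1 : (2 : ℝ) ^ (K0 * (4 * u + 1)) ≤ 2 ^ K * x ^ (1 / 16 : ℝ) := by
          rw [← Real.log_le_log_iff (by positivity)
            (mul_pos (by positivity) (Real.rpow_pos_of_pos hx0 _)), Real.log_pow,
            Real.log_mul (by positivity) (Real.rpow_pos_of_pos hx0 _).ne', Real.log_pow,
            Real.log_rpow hx0]
          push_cast
          have e3 : (K0 : ℝ) * (4 * (u : ℝ) + 1) * Real.log 2 ≤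
              4 * K * (u * Real.log 2) + K * Real.log 2 := by
            rw [hKr]
            have : (0 : ℝ) ≤ u * Real.log 2 := by positivity
            nlinarith
          have e4 : 4 * K * (u * Real.log 2) ≤ 1 / 16 * Real.log x := by
            calc 4 * K * (u * Real.log 2) ≤ 4 * K * (β * Real.log x) :=
                  mul_le_mul_of_nonneg_left hu1 (by positivity)
              _ = 4 * (β * K) * Real.log x := by ring
              _ = 1 / 16 * Real.log x := by rw [hβK]; ring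
          linarith
        have e5 : x ^ (1 / 16 : ℝ) * x ^ (-(1 / 8 : ℝ)) ≤ x ^ (-γ) := by
          rw [← Real.rpow_add hx0]
          apply Real.rpow_le_rpow_of_exponent_le hx1
          linarith
        calc (2 : ℝ) ^ (K0 * (4 * u + 1)) * x ^ (-(1 / 8 : ℝ))
            ≤ (2 ^ K * x ^ (1 / 16 : ℝ)) * x ^ (-(1 / 8 : ℝ)) :=
              mul_le_mul_of_nonneg_right e1 (Real.rpow_nonneg hx0.le _)
          _ = 2 ^ K * (x ^ (1 / 16 : ℝ) * x ^ (-(1 / 8 : ℝ))) := by ring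
          _ ≤ 2 ^ K * x ^ (-γ) := mul_le_mul_of_nonneg_left e5 (by positivity)
          _ ≤ 2 ^ (K + 1) * x ^ (-γ) := by
              apply mul_le_mul_of_nonneg_right _ hxc.le
              exact pow_le_pow_right₀ (by norm_num) (Nat.le_succ K)
      · have e1 : x ^ γ ≤ x ^ β := Real.rpow_le_rpow_of_exponent_le hx1 hγ3
        rw [Real.rpow_neg hx0.le, ← div_eq_mul_inv, div_le_div_iff₀ (by positivity)
          (Real.rpow_pos_of_pos hx0 _), one_mul]
        rw [pow_succ] at h4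
        linarith
      · have e1 : x ^ β / 2 ≤ 2 ^ u := by
          rw [pow_succ] at h4
          linarith
        have hxb : 0 < x ^ β / 2 := by positivity
        have e2 : ((2 : ℝ) ^ (4 * u)) ^ (-δ) = ((2 : ℝ) ^ u) ^ (-(4 * δ)) := by
          rw [← Real.rpow_natCast, ← Real.rpow_natCast, ← Real.rpow_mul (by norm_num),
            ← Real.rpow_mul (by norm_num)]
          congr 1
          push_cast
          ring
        rw [e2]
        have e3 : ((2 : ℝ) ^ u) ^ (-(4 * δ)) ≤ (x ^ β / 2) ^ (-(4 * δ)) :=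
          Real.rpow_le_rpow_of_nonpos hxb e1 (by linarith)
        refine e3.trans ?_
        have e4 : (x ^ β / 2) ^ (-(4 * δ)) = D * x ^ (-(4 * β * δ)) := by
          rw [Real.div_rpow (Real.rpow_nonneg hx0.le _) (by norm_num), ← Real.rpow_mul hx0.le, hD,
            Real.rpow_neg (by norm_num : (0 : ℝ) ≤ 2), div_inv_eq_mul, mul_comm]
          congr 2
          ring
        rw [e4]
        apply mul_le_mul_of_nonneg_left _ (by linarith)
        apply Real.rpow_le_rpow_of_exponent_le hx1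
        linarith
    · have h7 : 1 ≤ x ^ (-γ) :=
        Real.one_le_rpow_of_pos_of_le_one_of_nonpos hx0 hx1.le (by linarith)
      have h6 : x ^ (-(1 / 8 : ℝ)) ≤ 2 := by
        rw [Real.rpow_neg hx0.le, inv_le_comm₀ (Real.rpow_pos_of_pos hx0 _) (by norm_num)]
        calc (2 : ℝ)⁻¹ = ((2 : ℝ)⁻¹) ^ (1 : ℝ) := (Real.rpow_one _).symm
          _ ≤ ((2 : ℝ)⁻¹) ^ (1 / 8 : ℝ) := by
              apply Real.rpow_le_rpow_of_exponent_ge (by norm_num) (by norm_num) (by norm_num)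
          _ ≤ x ^ (1 / 8 : ℝ) := by
              apply Real.rpow_le_rpow (by norm_num) _ (by norm_num)
              linarith
      refine ⟨0, ?_, ?_, ?_⟩
      · have h8 : (2 : ℝ) ^ (K0 * (4 * 0 + 1)) ≤ 2 ^ K := by
          apply pow_le_pow_right₀ (by norm_num)
          omega
        calc (2 : ℝ) ^ (K0 * (4 * 0 + 1)) * x ^ (-(1 / 8 : ℝ)) ≤ 2 ^ K * 2 :=
              mul_le_mul h8 h6 (Real.rpow_nonneg hx0.le _) (by positivity)
          _ = 2 ^ (K + 1) * 1 := by ring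
          _ ≤ 2 ^ (K + 1) * x ^ (-γ) := mul_le_mul_of_nonneg_left h7 (by positivity)
      · rw [pow_zero, div_one]
        linarith
      · rw [mul_zero, pow_zero, Real.one_rpow]
        nlinarith
  -- the two parts
  obtain ⟨P, hP⟩ : ∃ P : ((Fin (2 * g + 1 + 1) → ℤ) × ℤ) → Prop, P = fun p =>
      ∃ q : ℕ, Squarefree q ∧ (q : ℤ) ∣ p.1 (Fin.last (2 * g + 1)) ∧ (H : ℝ) ≤ 2 ^ (4 * u) * q :=
    ⟨_, rfl⟩
  have hsplit := Finset.card_filter_add_card_filter_not (s := T) P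
  have hT1 : ((T.filter P).card : ℝ) ≤
      2 ^ (K0 * (4 * u + 1)) * (H : ℝ) ^ (2 * g + 2) * x ^ (-(1 / 8 : ℝ)) := by
    have h3 := hK0 (4 * u) H hH (T.filter P) ?_ (oneEach_mono (Finset.filter_subset _ _) hone)
    · rwa [← hx] at h3
    · intro p hp
      rw [Finset.mem_filter, hP] at hp
      obtain ⟨k1, k2, k3⟩ := hT p hp.1
      exact ⟨k1, k2, k3, hp.2⟩
  have hT2 : ((T.filter fun p => ¬ P p).card : ℝ) ≤
      C1 * ((2 : ℝ) ^ (4 * u)) ^ (-δ) * (H : ℝ) ^ (2 * g + 2) +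
        (((T.filter fun p => ¬ P p).image fun p => p.1).card : ℝ) := by
    refine h1 H (by omega) (2 ^ (4 * u)) (one_le_pow₀ (by norm_num)) _ ?_
      (oneEach_mono (Finset.filter_subset _ _) hone)
    intro p hp
    rw [Finset.mem_filter, hP] at hp
    obtain ⟨k1, k2, k3⟩ := hT p hp.1
    refine ⟨k1, k2, k3, fun q q1 q2 => ?_⟩
    by_contra hcon
    exact hp.2 ⟨q, q1, q2, not_lt.mp hcon⟩
  have hI := image_le (2 * g) u H (by omega) ((T.filter fun p => ¬ P p).image fun p => p.1) (by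
    intro a ha
    rw [Finset.mem_image] at ha
    obtain ⟨p, hp, rfl⟩ := ha
    rw [Finset.mem_filter, hP] at hp
    obtain ⟨k1, k2, k3⟩ := hT p hp.1
    exact ⟨k1, k2.1, hp.2⟩)
  have hHp : (0 : ℝ) ≤ (H : ℝ) ^ (2 * g + 2) := by positivity
  have hsum : (T.card : ℝ) = ((T.filter P).card : ℝ) + ((T.filter fun p => ¬ P p).card : ℝ) := by
    exact_mod_cast hsplit.symm
  rw [hsum]
  have hA : 2 ^ (K0 * (4 * u + 1)) * (H : ℝ) ^ (2 * g + 2) * x ^ (-(1 / 8 : ℝ)) ≤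
      2 ^ (K + 1) * (H : ℝ) ^ (2 * g + 2) * x ^ (-γ) := by
    have := mul_le_mul_of_nonneg_left huA hHp
    linarith
  have hB : C1 * ((2 : ℝ) ^ (4 * u)) ^ (-δ) * (H : ℝ) ^ (2 * g + 2) ≤
      C1 * D * (H : ℝ) ^ (2 * g + 2) * x ^ (-γ) := by
    have := mul_le_mul_of_nonneg_left huC (show 0 ≤ C1 * (H : ℝ) ^ (2 * g + 2) by positivity)
    linarith
  have hC : 8 * 3 ^ (2 * g + 1) * (H : ℝ) ^ (2 * g + 2) * (1 / 2 ^ u) ≤
      16 * 3 ^ (2 * g + 1) * (H : ℝ) ^ (2 * g + 2) * x ^ (-γ) := by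
    have := mul_le_mul_of_nonneg_left huB
      (show (0 : ℝ) ≤ 8 * 3 ^ (2 * g + 1) * (H : ℝ) ^ (2 * g + 2) by positivity)
    linarith
  linarith

end Pool.Agent.Helper31.FM2
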