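import Pool.Agent.Helper38.FM.Point
import Pool.Agent.Helper32.DZ.BoxCard

set_option autoImplicit false

/-!
Project FM, stage 2 (odd degree, all leading coefficients): definitions. See /team-store/memo_FM2_helper31.md

`n = 2 g + 1`. `SqDet G`: the determinant is `±` a nonzero square. `ZB g G S`: both matrices vanish on the first `g` rows and columns.
`Cell g q κ`: the pairs of the cell `κ`: `|G i j| < 2^(κ i + κ j)`, `|S i j| < q 2^(κ i + κ j)`, `S = - u u^t` modulo `q`, distinct eigenvalues,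
`det G = ±` square, not `ZB`.
-/

open Polynomial Matrix Pool.Agent.Helper32.DZ Pool.Agent.Helper32.FM

namespace Pool.Agent.Helper31.FM2

/-- the determinant is `±` a nonzero square -/
def SqDet {N : ℕ} (G : Matrix (Fin N) (Fin N) ℤ) : Prop :=
  ∃ y : ℤ, y ≠ 0 ∧ (G.det = y ^ 2 ∨ G.det = -y ^ 2)

/-- both matrices vanish on the first `g` rows and columns -/
def ZB {N : ℕ} (g : ℕ) (G S : Matrix (Fin N) (Fin N) ℤ) : Prop :=
  ∀ i j : Fin N, (i : ℕ) < g → (j : ℕ) < g → G i j = 0 ∧ S i j = 0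

/-- the pairs `(G, S)` of a cell -/
def Cell (g q : ℕ) (κ : Fin (2 * g + 1) → ℤ) :
    Set (Matrix (Fin (2 * g + 1)) (Fin (2 * g + 1)) ℤ × Matrix (Fin (2 * g + 1)) (Fin (2 * g + 1)) ℤ) :=
  {M | M.1 ∈ Box (fun i j => (2 : ℝ) ^ (κ i + κ j)) ∧
    M.2 ∈ Box (fun i j => (q : ℝ) * (2 : ℝ) ^ (κ i + κ j)) ∧ NegSq (q : ℤ) M.2 ∧ PG M.1 M.2 ∧
    SqDet M.1 ∧ ¬ ZB g M.1 M.2}

theorem cell_finite (g q : ℕ) (κ : Fin (2 * g + 1) → ℤ) : (Cell g q κ).Finite := by
  refine Set.Finite.subset ((box_card (fun i j : Fin (2 * g + 1) => (2 : ℝ) ^ (κ i + κ j))).1.prod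
    (box_card (fun i j : Fin (2 * g + 1) => (q : ℝ) * (2 : ℝ) ^ (κ i + κ j))).1) ?_
  intro M hM
  exact ⟨hM.1, hM.2.1⟩

end Pool.Agent.Helper31.FM2
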