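import Pool.Agent.Helper32.DZ.ZeroBlock
import Pool.Agent.Helper31.FM2.Defs

set_option autoImplicit false

/-!
FM2-7 Constr. Constraints on a cell that contains a pair with `S i i = 0` for `i < k`.

PROOF. (1) If `κ i + κ i.rev ≤ 0` then `G` vanishes on the block `(i+1) × (n - i)` (monotone; integers of absolute value `< 2^(≤ 0) ≤ 1`), `det G = 0` by `zero_det`:
contradiction with `PG`. (2) If `i < k`, `i < g`, `i + j + 2 = 2g+1` and `κ i + κ j ≤ 0`: for `a ≤ i`, `b ≤ j` `G a b = 0` as before, and `S a a = 0`, so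
`q ∣ u_a^2`, `q` squarefree: `q ∣ u_a`, `q ∣ S a b`, `|S a b| < q 2^(κ a + κ b) ≤ q`: `S a b = 0`. `zero_block` with `i + 1`, `j + 1`, sum `2g + 1`, `i + 1 ≤ j + 1` as `i < g`.
(3) If `g ≤ k`, `i + 1 = g` and `κ i ≤ 0`: the same gives `ZB g G S`: contradiction.
-/

open Matrix Pool.Agent.Helper32.DZ

namespace Pool.Agent.Helper31.FM2

theorem cell_constr (g q : ℕ) (hg : 1 ≤ g) (hq : Squarefree q) (κ : Fin (2 * g + 1) → ℤ)
    (hκ : Monotone κ) (M : Matrix (Fin (2 * g + 1)) (Fin (2 * g + 1)) ℤ ×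
      Matrix (Fin (2 * g + 1)) (Fin (2 * g + 1)) ℤ) (hM : M ∈ Cell g q κ) (k : ℕ)
    (hk : ∀ i : Fin (2 * g + 1), (i : ℕ) < k → M.2 i i = 0) :
    (∀ i : Fin (2 * g + 1), 1 ≤ κ i + κ i.rev) ∧
    (∀ i j : Fin (2 * g + 1), (i : ℕ) < k → (i : ℕ) < g → (i : ℕ) + (j : ℕ) + 2 = 2 * g + 1 →
      1 ≤ κ i + κ j) ∧
    (g ≤ k → ∀ i : Fin (2 * g + 1), (i : ℕ) + 1 = g → 1 ≤ κ i) := by
  obtain ⟨hG, hS, ⟨u, hu⟩, hPG, -, hZB⟩ := hM
  have hq0 : q ≠ 0 := hq.ne_zero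
  have hqR : (0 : ℝ) < q := by exact_mod_cast Nat.pos_of_ne_zero hq0
  have hqZ : Squarefree (q : ℤ) := Int.squarefree_natCast.2 hq
  have hpow : ∀ t : ℤ, t ≤ 0 → (2 : ℝ) ^ t ≤ 1 := fun t ht =>
    zpow_le_one_of_nonpos₀ (by norm_num) ht
  -- zeros of `G`
  have hG0 : ∀ a b : Fin (2 * g + 1), κ a + κ b ≤ 0 → M.1 a b = 0 := by
    intro a b hab
    have h1 := (hG.2 a b).trans_le (hpow _ hab)
    have h2 : |M.1 a b| < 1 := by exact_mod_cast h1
    exact Int.abs_lt_one_iff.1 h2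
  -- zeros of `S`
  have hS0 : ∀ a b : Fin (2 * g + 1), (a : ℕ) < k → κ a + κ b ≤ 0 → M.2 a b = 0 := by
    intro a b ha hab
    have h1 : (q : ℤ) ∣ u a := by
      have h2 := hu a a
      rw [hk a ha, zero_add, ← sq] at h2
      exact (hqZ.dvd_pow_iff_dvd two_ne_zero).1 h2
    have h2 : (q : ℤ) ∣ M.2 a b := (Int.dvd_add_left (h1.mul_right (u b))).1 (hu a b)
    have h3 : (q : ℝ) * (2 : ℝ) ^ (κ a + κ b) ≤ q :=
      (mul_le_mul_of_nonneg_left (hpow _ hab) hqR.le).trans (le_of_eq (mul_one _))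
    have h4 := (hS.2 a b).trans_le h3
    have h5 : |M.2 a b| < (q : ℤ) := by exact_mod_cast h4
    exact Int.eq_zero_of_abs_lt_dvd h2 h5
  refine ⟨?_, ?_, ?_⟩
  · intro i
    by_contra hcon
    have hle : κ i + κ i.rev ≤ 0 := by omega
    have hrev : ((i.rev : Fin (2 * g + 1)) : ℕ) = 2 * g + 1 - (i + 1) := Fin.val_rev i
    have hi := i.2
    refine hPG.2.2.1 (zero_det M.1 (i + 1) (2 * g + 1 - i) (by omega) (by omega) (by omega) ?_)
    intro a b ha hb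
    refine hG0 a b ?_
    have h1 : κ a ≤ κ i := hκ (by rw [Fin.le_def]; omega)
    have h2 : κ b ≤ κ i.rev := hκ (by rw [Fin.le_def, hrev]; omega)
    omega
  · intro i j hik hig hij
    by_contra hcon
    have hle : κ i + κ j ≤ 0 := by omega
    refine zero_block M.1 M.2 hPG (i + 1) (j + 1) (by omega) (by omega) (by omega) ?_
    intro a b ha hb
    have h1 : κ a ≤ κ i := hκ (by rw [Fin.le_def]; omega)
    have h2 : κ b ≤ κ j := hκ (by rw [Fin.le_def]; omega)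
    exact ⟨hG0 a b (by omega), hS0 a b (by omega) (by omega)⟩
  · intro hgk i hi
    by_contra hcon
    have hle : κ i ≤ 0 := by omega
    refine hZB fun a b ha hb => ?_
    have h1 : κ a ≤ κ i := hκ (by rw [Fin.le_def]; omega)
    have h2 : κ b ≤ κ i := hκ (by rw [Fin.le_def]; omega)
    exact ⟨hG0 a b (by omega), hS0 a b (by omega) (by omega)⟩

end Pool.Agent.Helper31.FM2
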