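import Pool.Agent.Helper31.FM2.ExpNat
import Pool.Agent.Helper32.DZ.Defs

set_option autoImplicit false

/-!
FM2-8b ExpIneq. The exponent inequality in the form used for the cells.

PROOF. `x i = κ i` for `i < 2g+1` (extended by anything). `Dk κ = DN`, `Xk κ = (2g+2) ∑ κ + NN` (`max y 0 = y + max (-y) 0`, and
`∑_(i≤j) (κ i + κ j) = (n+1) ∑ κ`), and `SLe (if i = k then κ i + κ j else max ..) = Xk κ - ∑_(j≥k) max (-(κ k + κ j)) 0`.
So both inequalities are `exp_nat_piv`, `exp_nat_inf`. (Sums over `Fin n` as sums over `range n`: `Finset.sum_range`.)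
-/

open Pool.Agent.Helper32.DZ

namespace Pool.Agent.Helper31.FM2

private theorem ei_sum (x : ℕ → ℤ) (n : ℕ) :
    (∑ i ∈ Finset.range n, ∑ j ∈ Finset.range n, if i ≤ j then x i + x j else 0) =
      (n + 1) * ∑ i ∈ Finset.range n, x i := by
  induction n with
  | zero => simp
  | succ n ih =>
    rw [Finset.sum_range_succ]
    have h1 : (∑ j ∈ Finset.range (n + 1), if n ≤ j then x n + x j else 0) = x n + x n := by
      rw [Finset.sum_range_succ, if_pos le_rfl]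
      have : (∑ j ∈ Finset.range n, if n ≤ j then x n + x j else 0) = 0 := by
        refine Finset.sum_eq_zero fun j hj => ?_
        rw [if_neg]
        have := Finset.mem_range.1 hj
        omega
      rw [this, zero_add]
    have h2 : (∑ i ∈ Finset.range n, ∑ j ∈ Finset.range (n + 1), if i ≤ j then x i + x j else 0) =
        (∑ i ∈ Finset.range n, ∑ j ∈ Finset.range n, if i ≤ j then x i + x j else 0) +
          ((∑ i ∈ Finset.range n, x i) + n * x n) := by
      have h3 : ((∑ i ∈ Finset.range n, x i) + n * x n) = ∑ i ∈ Finset.range n, (x i + x n) := by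
        rw [Finset.sum_add_distrib, Finset.sum_const, Finset.card_range, nsmul_eq_mul]
      rw [h3, ← Finset.sum_add_distrib]
      refine Finset.sum_congr rfl fun i hi => ?_
      rw [Finset.sum_range_succ, if_pos (Finset.mem_range.1 hi).le]
    rw [h1, h2, ih, Finset.sum_range_succ]
    push_cast
    ring

private def eix {n : ℕ} (κ : Fin n → ℤ) (i : ℕ) : ℤ := if h : i < n then κ ⟨i, h⟩ else 0

private theorem eix_val {n : ℕ} (κ : Fin n → ℤ) (i : Fin n) : κ i = eix κ (i : ℕ) := by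
  unfold eix
  rw [dif_pos i.2]

private theorem ei_le {n : ℕ} (F : ℤ → ℤ → ℤ) (κ : Fin n → ℤ) :
    (SLe fun i j => F (κ i) (κ j)) =
      ∑ i ∈ Finset.range n, ∑ j ∈ Finset.range n, if i ≤ j then F (eix κ i) (eix κ j) else 0 := by
  unfold SLe
  rw [← Fin.sum_univ_eq_sum_range
    (fun i => ∑ j ∈ Finset.range n, if i ≤ j then F (eix κ i) (eix κ j) else 0)]
  refine Finset.sum_congr rfl fun i _ => ?_
  rw [← Fin.sum_univ_eq_sum_range (fun j => if (i : ℕ) ≤ j then F (eix κ i) (eix κ j) else 0)]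
  refine Finset.sum_congr rfl fun j _ => ?_
  rw [← eix_val, ← eix_val]
  simp only [Fin.le_def]

private theorem ei_lt {n : ℕ} (κ : Fin n → ℤ) : Dk κ = DN n (eix κ) := by
  unfold Dk SLt DN
  rw [← Fin.sum_univ_eq_sum_range
    (fun i => ∑ j ∈ Finset.range n, if i < j then eix κ j - eix κ i else 0)]
  refine Finset.sum_congr rfl fun i _ => ?_
  rw [← Fin.sum_univ_eq_sum_range (fun j => if (i : ℕ) < j then eix κ j - eix κ i else 0)]
  refine Finset.sum_congr rfl fun j _ => ?_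
  rw [← eix_val, ← eix_val]
  simp only [Fin.lt_def]

private theorem ei_max (y : ℤ) : max y 0 = y + max (-y) 0 := by
  rcases le_total y 0 with h | h
  · rw [max_eq_right h, max_eq_left (by omega)]
    ring
  · rw [max_eq_left h, max_eq_right (by omega), add_zero]

private theorem ei_xk {n : ℕ} (κ : Fin n → ℤ) :
    Xk κ = (n + 1) * ∑ i, κ i + NN n (eix κ) := by
  have h1 : Xk κ = ∑ i ∈ Finset.range n, ∑ j ∈ Finset.range n,
      if i ≤ j then max (eix κ i + eix κ j) 0 else 0 := ei_le (fun a b => max (a + b) 0) κ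
  have h2 : ∑ i, κ i = ∑ i ∈ Finset.range n, eix κ i := by
    rw [← Fin.sum_univ_eq_sum_range (eix κ)]
    exact Finset.sum_congr rfl fun i _ => eix_val κ i
  rw [h1, h2, ← ei_sum]
  unfold NN
  rw [← Finset.sum_add_distrib]
  refine Finset.sum_congr rfl fun i _ => ?_
  rw [← Finset.sum_add_distrib]
  refine Finset.sum_congr rfl fun j _ => ?_
  by_cases h : i ≤ j
  · rw [if_pos h, if_pos h, if_pos h, ei_max]
  · rw [if_neg h, if_neg h, if_neg h, add_zero]

private theorem ei_y {n : ℕ} (κ : Fin n → ℤ) (k : Fin n) :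
    (SLe fun i j => if i = k then κ i + κ j else max (κ i + κ j) 0) =
      Xk κ - ∑ j ∈ Finset.range n,
        if (k : ℕ) ≤ j then max (-(eix κ k + eix κ j)) 0 else 0 := by
  have h1 : (∑ j ∈ Finset.range n, if (k : ℕ) ≤ j then max (-(eix κ k + eix κ j)) 0 else 0) =
      ∑ i : Fin n, if i = k then
        (∑ j : Fin n, if i ≤ j then max (-(κ i + κ j)) 0 else 0) else 0 := by
    rw [Finset.sum_ite_eq' Finset.univ k, if_pos (Finset.mem_univ _),
      ← Fin.sum_univ_eq_sum_range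
        (fun j => if (k : ℕ) ≤ j then max (-(eix κ k + eix κ j)) 0 else 0)]
    refine Finset.sum_congr rfl fun j _ => ?_
    rw [← eix_val, ← eix_val]
    simp only [Fin.le_def]
  rw [h1]
  unfold Xk SLe
  rw [← Finset.sum_sub_distrib]
  refine Finset.sum_congr rfl fun i _ => ?_
  by_cases hi : i = k
  · rw [if_pos hi, ← Finset.sum_sub_distrib]
    refine Finset.sum_congr rfl fun j _ => ?_
    by_cases h : i ≤ j
    · rw [if_pos h, if_pos h, if_pos h]
      show (if i = k then κ i + κ j else max (κ i + κ j) 0) =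
        max (κ i + κ j) 0 - max (-(κ i + κ j)) 0
      rw [if_pos hi, ei_max]
      ring
    · rw [if_neg h, if_neg h, if_neg h, sub_zero]
  · rw [if_neg hi, sub_zero]
    refine Finset.sum_congr rfl fun j _ => ?_
    show (if i ≤ j then (if i = k then κ i + κ j else max (κ i + κ j) 0) else 0) =
      if i ≤ j then max (κ i + κ j) 0 else 0
    rw [if_neg hi]

private theorem ei_facts (g : ℕ) (κ : Fin (2 * g + 1) → ℤ) (hκ : Monotone κ)
    (h1 : ∀ i : Fin (2 * g + 1), 0 ≤ κ i + κ i.rev) :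
    (∀ i j, i ≤ j → j < 2 * g + 1 → eix κ i ≤ eix κ j) ∧
    (∀ i, i < 2 * g + 1 → 0 ≤ eix κ i + eix κ (2 * g - i)) ∧
    κ (Fin.last (2 * g)) = eix κ (2 * g) ∧ κ 0 = eix κ 0 := by
  refine ⟨fun i j hij hj => ?_, fun i hi => ?_, ?_, ?_⟩
  · have h2 := hκ (show (⟨i, by omega⟩ : Fin (2 * g + 1)) ≤ ⟨j, hj⟩ from hij)
    rwa [eix_val κ, eix_val κ] at h2
  · have h2 := h1 ⟨i, hi⟩
    rw [eix_val κ, eix_val κ] at h2
    have h3 : ((Fin.rev ⟨i, hi⟩ : Fin (2 * g + 1)) : ℕ) = 2 * g - i := by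
      rw [Fin.val_rev]
      show 2 * g + 1 - (i + 1) = 2 * g - i
      omega
    rwa [h3] at h2
  · rw [eix_val κ]
    rfl
  · rw [eix_val κ]
    rfl

theorem exp_piv (g : ℕ) (hg : 1 ≤ g) (κ : Fin (2 * g + 1) → ℤ) (hκ : Monotone κ)
    (h1 : ∀ i : Fin (2 * g + 1), 0 ≤ κ i + κ i.rev) (k : Fin (2 * g + 1))
    (h2 : ∀ i j : Fin (2 * g + 1), (i : ℕ) < k → (i : ℕ) < g → (i : ℕ) + (j : ℕ) + 2 = 2 * g + 1 →
      0 ≤ κ i + κ j)
    (h4 : g ≤ (k : ℕ) → ∀ i : Fin (2 * g + 1), (i : ℕ) + 1 = g → 0 ≤ κ i) :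
    2 * (Xk κ + SLe fun i j => if i = k then κ i + κ j else max (κ i + κ j) 0) +
      (κ (Fin.last (2 * g)) - κ 0) ≤
      2 * ((4 * g + 4) * ∑ i, κ i + Dk κ + 2 * ((k : ℕ) : ℤ) * max (-κ k) 0) := by
  obtain ⟨f1, f2, f3, f4⟩ := ei_facts g κ hκ h1
  have h5 : ∀ i, i < (k : ℕ) → i < g → 0 ≤ eix κ i + eix κ (2 * g - 1 - i) := by
    intro i hi hig
    have h6 := h2 ⟨i, by omega⟩ ⟨2 * g - 1 - i, by omega⟩ hi hig (by
      show i + (2 * g - 1 - i) + 2 = 2 * g + 1
      omega)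
    rwa [eix_val κ, eix_val κ] at h6
  have h6 : g ≤ (k : ℕ) → 0 ≤ eix κ (g - 1) := by
    intro hk
    have h7 := h4 hk ⟨g - 1, by omega⟩ (by
      show g - 1 + 1 = g
      omega)
    rwa [eix_val κ] at h7
  have h7 := exp_nat_piv g k hg k.2 (eix κ) f1 f2 h5 h6
  rw [ei_y, ei_xk, ei_lt, f3, f4, eix_val κ k]
  push_cast
  linarith

theorem exp_inf (g : ℕ) (hg : 1 ≤ g) (κ : Fin (2 * g + 1) → ℤ) (hκ : Monotone κ)
    (h1 : ∀ i : Fin (2 * g + 1), 0 ≤ κ i + κ i.rev)
    (h2 : ∀ i j : Fin (2 * g + 1), (i : ℕ) < g → (i : ℕ) + (j : ℕ) + 2 = 2 * g + 1 → 0 ≤ κ i + κ j)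
    (h4 : ∀ i : Fin (2 * g + 1), (i : ℕ) + 1 = g → 0 ≤ κ i) :
    4 * Xk κ + (κ (Fin.last (2 * g)) - κ 0) ≤ 2 * ((4 * g + 4) * ∑ i, κ i + Dk κ) := by
  obtain ⟨f1, f2, f3, f4⟩ := ei_facts g κ hκ h1
  have h5 : ∀ i, i < g → 0 ≤ eix κ i + eix κ (2 * g - 1 - i) := by
    intro i hig
    have h6 := h2 ⟨i, by omega⟩ ⟨2 * g - 1 - i, by omega⟩ hig (by
      show i + (2 * g - 1 - i) + 2 = 2 * g + 1
      omega)
    rwa [eix_val κ, eix_val κ] at h6
  have h6 : 0 ≤ eix κ (g - 1) := by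
    have h7 := h4 ⟨g - 1, by omega⟩ (by
      show g - 1 + 1 = g
      omega)
    rwa [eix_val κ] at h7
  have h7 := exp_nat_inf g hg (eix κ) f1 f2 h5 h6
  rw [ei_xk, ei_lt, f3, f4]
  push_cast
  linarith

end Pool.Agent.Helper31.FM2
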