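import Pool.Agent.Helper32.DZ.PivotCount
import Pool.Agent.Helper31.FM2.Defs

set_option autoImplicit false

/-!
FM2-6 SCount. The number of `S` with a given pivot.

PROOF. `spiv_count`: union over `s = S k k`, `0 < |s| < q 2^(2 κ k)` (at most `2 q 2^(2 κ k)` values), of the sets of `pivot_count` (Helper32/DZ/PivotCount.lean) with
`B i j = q 2^(κ i + κ j)`; `|s| < B k k ≤ B k j` for `j ≥ k` (monotone). `2 B i j / q + 1 = 2 2^(κ i + κ j) + 1 ≤ 3 2^(max (κ i + κ j) 0)`;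
`∏_(j>k) 3 B k j = 3^.. q^(n-1-k) 2^(∑_(j>k) (κ k + κ j))`, and the number of `s` adds `2 q 2^(κ k + κ k)`. `K = 2 3^(n^2 + n)`.
`sinf_count`: `pivot_inf`.
-/

open Matrix Pool.Agent.Helper32.DZ

namespace Pool.Agent.Helper31.FM2

private theorem z_sum {ι : Type} (s : Finset ι) (g : ι → ℤ) :
    (2 : ℝ) ^ (∑ i ∈ s, g i) = ∏ i ∈ s, (2 : ℝ) ^ (g i) := by
  classical
  induction s using Finset.induction_on with
  | empty => simp
  | insert a s ha ih =>
    rw [Finset.sum_insert ha, Finset.prod_insert ha, zpow_add₀ (by norm_num), ih]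

private theorem sle_prod {n : ℕ} (h : Fin n → Fin n → ℤ) :
    (2 : ℝ) ^ (SLe h) = ∏ i, ∏ j, if i ≤ j then (2 : ℝ) ^ (h i j) else 1 := by
  unfold SLe
  rw [z_sum]
  refine Finset.prod_congr rfl fun i _ => ?_
  rw [z_sum]
  refine Finset.prod_congr rfl fun j _ => ?_
  split_ifs
  · rfl
  · exact zpow_zero _

private theorem two_add_one (m : ℤ) : 2 * (2 : ℝ) ^ m + 1 ≤ 3 * (2 : ℝ) ^ (max m 0) := by
  have h1 : (2 : ℝ) ^ m ≤ (2 : ℝ) ^ (max m 0) := zpow_le_zpow_right₀ (by norm_num) (le_max_left _ _)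
  have h2 : (1 : ℝ) ≤ (2 : ℝ) ^ (max m 0) := one_le_zpow₀ (by norm_num) (le_max_right _ _)
  linarith

private theorem fib {α : Type} (X : Finset α) (T : Finset ℤ) (f : α → ℤ)
    (hf : ∀ x ∈ X, f x ∈ T) (M : ℝ)
    (hM : ∀ b ∈ T, ((X.filter (fun x => f x = b)).card : ℝ) ≤ M) : (X.card : ℝ) ≤ M * T.card := by
  rw [Finset.card_eq_sum_card_fiberwise hf, Nat.cast_sum]
  calc ∑ b ∈ T, ((X.filter (fun x => f x = b)).card : ℝ) ≤ ∑ _b ∈ T, M := Finset.sum_le_sum hM
    _ = M * T.card := by rw [Finset.sum_const, nsmul_eq_mul, mul_comm]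

private theorem t_card (b : ℝ) (hb : 0 < b) :
    ∃ T : Finset ℤ, (∀ s : ℤ, s ∈ T ↔ s ≠ 0 ∧ |(s : ℝ)| < b) ∧ (T.card : ℝ) ≤ 2 * b := by
  classical
  have hc : 1 ≤ ⌈b⌉ := Int.one_le_ceil_iff.2 hb
  have hc2 : ((⌈b⌉ : ℤ) : ℝ) < b + 1 := Int.ceil_lt_add_one b
  refine ⟨(Finset.Ioo (-⌈b⌉) ⌈b⌉).erase 0, ?_, ?_⟩
  · intro s
    rw [Finset.mem_erase, Finset.mem_Ioo, abs_lt]
    refine and_congr_right fun _ => and_congr ?_ Int.lt_ceil
    rw [neg_lt, Int.lt_ceil, Int.cast_neg, neg_lt]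
  · have h0 : (0 : ℤ) ∈ Finset.Ioo (-⌈b⌉) ⌈b⌉ := Finset.mem_Ioo.2 ⟨by omega, by omega⟩
    rw [Finset.card_erase_of_mem h0, Int.card_Ioo]
    have h1 : (((⌈b⌉ - -⌈b⌉ - 1).toNat - 1 : ℕ) : ℤ) = 2 * ⌈b⌉ - 2 := by omega
    have h2 : (((⌈b⌉ - -⌈b⌉ - 1).toNat - 1 : ℕ) : ℝ) = 2 * (⌈b⌉ : ℤ) - 2 := by exact_mod_cast h1
    rw [h2]
    linarith

theorem spiv_count (n : ℕ) : ∃ K : ℝ, 1 ≤ K ∧ ∀ q : ℕ, 1 ≤ q → Squarefree q →
    ∀ κ : Fin n → ℤ, Monotone κ → ∀ k : Fin n,
    (({S : Matrix (Fin n) (Fin n) ℤ | S ∈ Box (fun i j => (q : ℝ) * (2 : ℝ) ^ (κ i + κ j)) ∧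
      NegSq (q : ℤ) S ∧ (∀ i, i < k → S i i = 0) ∧ S k k ≠ 0}.ncard : ℕ) : ℝ) ≤
      K * (q : ℝ) ^ (n - (k : ℕ)) *
        (2 : ℝ) ^ (SLe fun i j => if i = k then κ i + κ j else max (κ i + κ j) 0) := by
  classical
  refine ⟨2 * 3 ^ n * 3 ^ (n * n), ?_, ?_⟩
  · have h1 : (1 : ℝ) ≤ 3 ^ n := one_le_pow₀ (by norm_num)
    have h2 : (1 : ℝ) ≤ 3 ^ (n * n) := one_le_pow₀ (by norm_num)
    nlinarith
  intro q hq hsq κ hκ k
  have hq1 : (1 : ℝ) ≤ q := by exact_mod_cast hq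
  have hq0 : (0 : ℝ) < q := by linarith
  obtain ⟨B, hBdef⟩ : ∃ B : Fin n → Fin n → ℝ, B = fun i j => (q : ℝ) * (2 : ℝ) ^ (κ i + κ j) :=
    ⟨_, rfl⟩
  have hBe : ∀ i j, B i j = (q : ℝ) * (2 : ℝ) ^ (κ i + κ j) := fun i j => by rw [hBdef]
  have hB : ∀ i j, 0 < B i j := fun i j => by rw [hBe]; positivity
  rw [← hBdef]
  obtain ⟨h, hh⟩ : ∃ h : Fin n → Fin n → ℤ,
      h = fun i j => if i = k then κ i + κ j else max (κ i + κ j) 0 := ⟨_, rfl⟩
  rw [← hh]
  -- the bound for one pivot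
  obtain ⟨M, hM⟩ : ∃ M : ℝ, M = (∏ i, ∏ j, if i ≤ j ∧ i ≠ k then 2 * B i j / q + 1 else 1) *
        ∏ j, (if k < j then 3 * B k j else 1) := ⟨_, rfl⟩
  obtain ⟨T, hT, hTc⟩ := t_card (B k k) (hB k k)
  have hM0 : 0 ≤ M := by
    rw [hM]
    refine mul_nonneg (Finset.prod_nonneg fun i _ => Finset.prod_nonneg fun j _ => ?_)
      (Finset.prod_nonneg fun j _ => ?_)
    · split_ifs
      · have := hB i j
        positivity
      · norm_num
    · split_ifs
      · have := hB k j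
        positivity
      · norm_num
  -- the final inequality
  have hfinal : M * (2 * B k k) ≤ 2 * 3 ^ n * 3 ^ (n * n) * (q : ℝ) ^ (n - (k : ℕ)) *
      (2 : ℝ) ^ (SLe h) := by
    have e1 : (∏ i, ∏ j, if i ≤ j ∧ i ≠ k then 2 * B i j / q + 1 else 1) ≤
        3 ^ (n * n) * ∏ i, ∏ j, (if i ≤ j ∧ i ≠ k then (2 : ℝ) ^ (h i j) else 1) := by
      have e2 : (3 : ℝ) ^ (n * n) = ∏ _i : Fin n, ∏ _j : Fin n, (3 : ℝ) := by
        simp [Finset.prod_const, pow_mul]
      rw [e2, ← Finset.prod_mul_distrib]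
      refine Finset.prod_le_prod (fun i _ => Finset.prod_nonneg fun j _ => ?_) fun i _ => ?_
      · split_ifs
        · have := hB i j
          positivity
        · norm_num
      · rw [← Finset.prod_mul_distrib]
        refine Finset.prod_le_prod (fun j _ => ?_) fun j _ => ?_
        · split_ifs
          · have := hB i j
            positivity
          · norm_num
        · by_cases hc : i ≤ j ∧ i ≠ k
          · rw [if_pos hc, if_pos hc, hBe, hh]
            show 2 * ((q : ℝ) * 2 ^ (κ i + κ j)) / q + 1 ≤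
              3 * 2 ^ (if i = k then κ i + κ j else max (κ i + κ j) 0)
            rw [if_neg hc.2]
            have : 2 * ((q : ℝ) * 2 ^ (κ i + κ j)) / q = 2 * 2 ^ (κ i + κ j) := by field_simp
            rw [this]
            exact two_add_one _
          · rw [if_neg hc, if_neg hc]
            norm_num
    have e3 : (∏ j, (if k < j then 3 * B k j else 1)) ≤
        3 ^ n * ((q : ℝ) ^ (n - 1 - (k : ℕ)) * ∏ j, (if k < j then (2 : ℝ) ^ (h k j) else 1)) := by
      have e4 : (3 : ℝ) ^ n = ∏ _j : Fin n, (3 : ℝ) := by simp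
      have e5 : (q : ℝ) ^ (n - 1 - (k : ℕ)) = ∏ j : Fin n, (if k < j then (q : ℝ) else 1) := by
        rw [Finset.prod_ite, Finset.prod_const, Finset.prod_const_one, mul_one]
        congr 1
        rw [← Fin.card_Ioi k]
        congr 1
        ext j
        simp
      rw [e4, e5, ← Finset.prod_mul_distrib, ← Finset.prod_mul_distrib]
      refine Finset.prod_le_prod (fun j _ => ?_) fun j _ => ?_
      · split_ifs
        · have := hB k j
          positivity
        · norm_num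
      · by_cases hc : k < j
        · rw [if_pos hc, if_pos hc, if_pos hc, hBe, hh]
          show 3 * ((q : ℝ) * 2 ^ (κ k + κ j)) ≤
            3 * (q * 2 ^ (if k = k then κ k + κ j else max (κ k + κ j) 0))
          rw [if_pos rfl]
        · rw [if_neg hc, if_neg hc, if_neg hc]
          norm_num
    have e6 : (2 : ℝ) ^ (SLe h) = (∏ i, ∏ j, (if i ≤ j ∧ i ≠ k then (2 : ℝ) ^ (h i j) else 1)) *
        ((2 : ℝ) ^ (κ k + κ k) * ∏ j, (if k < j then (2 : ℝ) ^ (h k j) else 1)) := by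
      have e7 : (2 : ℝ) ^ (κ k + κ k) = ∏ j : Fin n, (if j = k then (2 : ℝ) ^ (h k j) else 1) := by
        rw [Finset.prod_ite_eq' Finset.univ k, if_pos (Finset.mem_univ _), hh]
        simp
      have e8 : (2 : ℝ) ^ (κ k + κ k) * ∏ j, (if k < j then (2 : ℝ) ^ (h k j) else 1) =
          ∏ i : Fin n, (if i = k then ∏ j : Fin n, (if k ≤ j then (2 : ℝ) ^ (h k j) else 1)
            else 1) := by
        rw [Finset.prod_ite_eq' Finset.univ k, if_pos (Finset.mem_univ _), e7,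
          ← Finset.prod_mul_distrib]
        refine Finset.prod_congr rfl fun j _ => ?_
        rcases lt_trichotomy k j with hc | hc | hc
        · rw [if_neg hc.ne', if_pos hc, if_pos hc.le, one_mul]
        · subst hc
          rw [if_pos rfl, if_neg (lt_irrefl _), if_pos le_rfl, mul_one]
        · rw [if_neg hc.ne, if_neg hc.not_gt, if_neg hc.not_ge, mul_one]
      rw [sle_prod, e8, ← Finset.prod_mul_distrib]
      refine Finset.prod_congr rfl fun i _ => ?_
      by_cases hi : i = k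
      · subst hi
        rw [if_pos rfl]
        have : (∏ j : Fin n, (if i ≤ j ∧ i ≠ i then (2 : ℝ) ^ (h i j) else 1)) = 1 := by
          refine Finset.prod_eq_one fun j _ => if_neg fun hc => hc.2 rfl
        rw [this, one_mul]
      · rw [if_neg hi, mul_one]
        refine Finset.prod_congr rfl fun j _ => ?_
        simp only [ne_eq, hi, not_false_eq_true, and_true]
    have hkn : (k : ℕ) < n := k.2
    have e9 : (q : ℝ) ^ (n - (k : ℕ)) = q * (q : ℝ) ^ (n - 1 - (k : ℕ)) := by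
      rw [← pow_succ']
      congr 1
      omega
    have hP1 : 0 ≤ ∏ j, (if k < j then 3 * B k j else 1) := by
      refine Finset.prod_nonneg fun j _ => ?_
      split_ifs
      · have := hB k j
        positivity
      · norm_num
    have hP2 : 0 ≤ ∏ i, ∏ j, (if i ≤ j ∧ i ≠ k then (2 : ℝ) ^ (h i j) else 1) := by
      refine Finset.prod_nonneg fun i _ => Finset.prod_nonneg fun j _ => ?_
      split_ifs
      · positivity
      · norm_num
    have hmm := mul_le_mul e1 e3 hP1 (by positivity)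
    rw [hM, hBe k k, e6, e9]
    have h2b : (0 : ℝ) ≤ 2 * ((q : ℝ) * 2 ^ (κ k + κ k)) := by positivity
    refine (mul_le_mul_of_nonneg_right hmm h2b).trans (le_of_eq ?_)
    ring
  refine le_trans ?_ hfinal
  -- the count
  set X : Set (Matrix (Fin n) (Fin n) ℤ) := {S | S ∈ Box B ∧ NegSq (q : ℤ) S ∧
    (∀ i, i < k → S i i = 0) ∧ S k k ≠ 0} with hX
  by_cases hfin : X.Finite
  swap
  · rw [Set.Infinite.ncard hfin, Nat.cast_zero]
    have := hB k k
    positivity
  rw [Set.ncard_eq_toFinset_card X hfin]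
  refine (fib hfin.toFinset T (fun S => S k k) ?_ M ?_).trans
    (mul_le_mul_of_nonneg_left hTc hM0)
  · intro S hS
    have hS' := (Set.Finite.mem_toFinset hfin).1 hS
    exact (hT _).2 ⟨hS'.2.2.2, hS'.1.2 k k⟩
  · intro s hs
    obtain ⟨hs0, hsb⟩ := (hT s).1 hs
    have h1 := pivot_count q hsq k s hs0 B hB (fun j hj => by
      refine hsb.trans_le ?_
      rw [hBe, hBe]
      refine mul_le_mul_of_nonneg_left ?_ hq0.le
      exact zpow_le_zpow_right₀ (by norm_num) (by have := hκ hj; omega))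
    rw [← hM] at h1
    refine le_trans ?_ h1
    have h2 : ((hfin.toFinset.filter (fun S => S k k = s)).card : ℕ) ≤
        {S : Matrix (Fin n) (Fin n) ℤ | S ∈ Box B ∧ NegSq (q : ℤ) S ∧
          (∀ i, i < k → S i i = 0) ∧ S k k = s}.ncard := by
      rw [← Set.ncard_coe_finset]
      refine Set.ncard_le_ncard ?_ ?_
      · intro S hS
        rw [Finset.mem_coe, Finset.mem_filter, Set.Finite.mem_toFinset] at hS
        exact ⟨hS.1.1, hS.1.2.1, hS.1.2.2.1, hS.2⟩
      · refine hfin.subset ?_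
        intro S hS
        exact ⟨hS.1, hS.2.1, hS.2.2.1, by rw [hS.2.2.2]; exact hs0⟩
    exact_mod_cast h2

theorem sinf_count (n : ℕ) : ∃ K : ℝ, 1 ≤ K ∧ ∀ q : ℕ, 1 ≤ q → Squarefree q →
    ∀ κ : Fin n → ℤ, Monotone κ →
    (({S : Matrix (Fin n) (Fin n) ℤ | S ∈ Box (fun i j => (q : ℝ) * (2 : ℝ) ^ (κ i + κ j)) ∧
      NegSq (q : ℤ) S ∧ ∀ i, S i i = 0}.ncard : ℕ) : ℝ) ≤ K * (2 : ℝ) ^ (Xk κ) := by
  refine ⟨3 ^ (n * n), one_le_pow₀ (by norm_num), ?_⟩
  intro q hq hsq κ _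
  have hq1 : (1 : ℝ) ≤ q := by exact_mod_cast hq
  have hq0 : (0 : ℝ) < q := by linarith
  refine (pivot_inf q hsq (fun i j => (q : ℝ) * (2 : ℝ) ^ (κ i + κ j))
    (fun i j => by positivity)).trans ?_
  have e2 : (3 : ℝ) ^ (n * n) = ∏ _i : Fin n, ∏ _j : Fin n, (3 : ℝ) := by
    simp [Finset.prod_const, pow_mul]
  unfold Xk
  rw [sle_prod, e2, ← Finset.prod_mul_distrib]
  refine Finset.prod_le_prod (fun i _ => Finset.prod_nonneg fun j _ => ?_) fun i _ => ?_
  · split_ifs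
    · positivity
    · norm_num
  · rw [← Finset.prod_mul_distrib]
    refine Finset.prod_le_prod (fun j _ => ?_) fun j _ => ?_
    · split_ifs
      · positivity
      · norm_num
    · by_cases hc : i ≤ j
      · rw [if_pos hc, if_pos hc]
        have : 2 * ((q : ℝ) * 2 ^ (κ i + κ j)) / q = 2 * 2 ^ (κ i + κ j) := by field_simp
        rw [this]
        exact two_add_one _
      · rw [if_neg hc, if_neg hc]
        norm_num

end Pool.Agent.Helper31.FM2
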