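import Pool.Agent.Helper31.FM2.GCount
import Pool.Agent.Helper31.FM2.SCount
import Pool.Agent.Helper31.FM2.Constr
import Pool.Agent.Helper31.FM2.ExpIneq

set_option autoImplicit false

/-!
FM2-9 CellBound. The size of a cell.

PROOF. `n = 2g+1`. `Cell` is the union over `k : Fin n` of `C_k = {M ∈ Cell | M.2 i i = 0 for i < k, M.2 k k ≠ 0}` and of `C_∞ = {all M.2 i i = 0}`.
If `C_k` is not empty: `cell_constr` (with this `k`) gives the hypotheses of `exp_piv`, and `q 2^(2 κ k) > |M.2 k k| ≥ 1`, so `2^(2k max (-κ k) 0) ≤ q^k`.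
`#C_k ≤ #{G : box, SqDet} * #{S : pivot k}`; let `γ = 2^(-κ_last + ε ∑κ) + 2^(-2 max (κ 0) 0)`, `ε = 1/(2n)`: `gs_count` gives
`#{G} ≤ K 2^(Xk) γ`; `spiv_count`: `#{S} ≤ K q^(n-k) 2^(X1)`. With `exp_piv`: `#C_k ≤ K^2 q^n 2^((4g+4) ∑κ + Dk) 2^(-e/2) γ`, `e = κ_last - κ 0`.
`C_∞`: the same with `sinf_count`, `exp_inf` (`k = n` in `cell_constr`) and `1 ≤ q^n`.
Finally `2^(-e/2) γ ≤ 2 * 2^(-e/8) 2^(-δ ∑κ)`, `δ = 3/(8n)`: `∑κ ≤ n κ_last` (monotone), `∑κ ≥ 0`; first term of `γ`: `-κ_last + ε∑κ ≤ -(1/n - 1/(2n)) ∑κ`;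
second: `-3e/8 - 2 max (κ 0) 0 ≤ -(3/8) κ_last` (`κ 0 ≥ 0` or `κ 0 < 0`). `e ≥ 0`.
-/

open Matrix Pool.Agent.Helper32.DZ

namespace Pool.Agent.Helper31.FM2

private def CK (g q : ℕ) (κ : Fin (2 * g + 1) → ℤ) (k : Fin (2 * g + 1)) :
    Set (Matrix (Fin (2 * g + 1)) (Fin (2 * g + 1)) ℤ × Matrix (Fin (2 * g + 1)) (Fin (2 * g + 1)) ℤ) :=
  {M | M ∈ Cell g q κ ∧ (∀ i, i < k → M.2 i i = 0) ∧ M.2 k k ≠ 0}

private def CI (g q : ℕ) (κ : Fin (2 * g + 1) → ℤ) :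
    Set (Matrix (Fin (2 * g + 1)) (Fin (2 * g + 1)) ℤ × Matrix (Fin (2 * g + 1)) (Fin (2 * g + 1)) ℤ) :=
  {M | M ∈ Cell g q κ ∧ ∀ i, M.2 i i = 0}

private theorem cell_union (g q : ℕ) (κ : Fin (2 * g + 1) → ℤ) :
    (Cell g q κ).ncard ≤ (∑ k, (CK g q κ k).ncard) + (CI g q κ).ncard := by
  have hfin := cell_finite g q κ
  have hsub : Cell g q κ ⊆ (⋃ k, CK g q κ k) ∪ CI g q κ := by
    intro M hM
    by_cases h : ∀ i, M.2 i i = 0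
    · exact Or.inr ⟨hM, h⟩
    · push Not at h
      obtain ⟨k, hk, hmin⟩ := WellFounded.has_min (wellFounded_lt (α := Fin (2 * g + 1)))
        {i | M.2 i i ≠ 0} h
      refine Or.inl (Set.mem_iUnion.2 ⟨k, hM, fun i hi => ?_, hk⟩)
      by_contra hne
      exact hmin i hne hi
  have hf2 : ((⋃ k, CK g q κ k) ∪ CI g q κ).Finite := by
    refine hfin.subset ?_
    intro M hM
    rcases hM with hM | hM
    · obtain ⟨k, hk⟩ := Set.mem_iUnion.1 hM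
      exact hk.1
    · exact hM.1
  calc (Cell g q κ).ncard ≤ ((⋃ k, CK g q κ k) ∪ CI g q κ).ncard := Set.ncard_le_ncard hsub hf2
    _ ≤ (⋃ k, CK g q κ k).ncard + (CI g q κ).ncard := Set.ncard_union_le _ _
    _ ≤ _ := by
        gcongr
        exact Set.ncard_iUnion_le_of_fintype _

private def GS (g : ℕ) (κ : Fin (2 * g + 1) → ℤ) : Set (Matrix (Fin (2 * g + 1)) (Fin (2 * g + 1)) ℤ) :=
  {G | G ∈ Box (fun i j => (2 : ℝ) ^ (κ i + κ j)) ∧ SqDet G}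

private def SK (g q : ℕ) (κ : Fin (2 * g + 1) → ℤ) (k : Fin (2 * g + 1)) :
    Set (Matrix (Fin (2 * g + 1)) (Fin (2 * g + 1)) ℤ) :=
  {S | S ∈ Box (fun i j => (q : ℝ) * (2 : ℝ) ^ (κ i + κ j)) ∧
      NegSq (q : ℤ) S ∧ (∀ i, i < k → S i i = 0) ∧ S k k ≠ 0}

private def SI (g q : ℕ) (κ : Fin (2 * g + 1) → ℤ) :
    Set (Matrix (Fin (2 * g + 1)) (Fin (2 * g + 1)) ℤ) :=
  {S | S ∈ Box (fun i j => (q : ℝ) * (2 : ℝ) ^ (κ i + κ j)) ∧ NegSq (q : ℤ) S ∧ ∀ i, S i i = 0}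

private theorem ck_card (g q : ℕ) (κ : Fin (2 * g + 1) → ℤ) (k : Fin (2 * g + 1)) :
    (CK g q κ k).ncard ≤ (GS g κ).ncard * (SK g q κ k).ncard := by
  have hf : (GS g κ ×ˢ SK g q κ k).Finite := by
    refine Set.Finite.prod ?_ ?_
    · exact (box_card _).1.subset fun G hG => hG.1
    · exact (box_card _).1.subset fun S hS => hS.1
  rw [← Set.ncard_prod]
  refine Set.ncard_le_ncard ?_ hf
  intro M hM
  obtain ⟨⟨h1, h2, h3, h4, h5, h6⟩, h7, h8⟩ := hM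
  exact ⟨⟨h1, h5⟩, h2, h3, h7, h8⟩

private theorem ci_card (g q : ℕ) (κ : Fin (2 * g + 1) → ℤ) :
    (CI g q κ).ncard ≤ (GS g κ).ncard * (SI g q κ).ncard := by
  have hf : (GS g κ ×ˢ SI g q κ).Finite := by
    refine Set.Finite.prod ?_ ?_
    · exact (box_card _).1.subset fun G hG => hG.1
    · exact (box_card _).1.subset fun S hS => hS.1
  rw [← Set.ncard_prod]
  refine Set.ncard_le_ncard ?_ hf
  intro M hM
  obtain ⟨⟨h1, h2, h3, h4, h5, h6⟩, h7⟩ := hM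
  exact ⟨⟨h1, h5⟩, h2, h3, h7⟩

private theorem two_zpow_eq (a : ℤ) : (2 : ℝ) ^ a = (2 : ℝ) ^ (a : ℝ) := (Real.rpow_intCast 2 a).symm

private theorem two_rpow_mono {a b : ℝ} (h : a ≤ b) : (2 : ℝ) ^ a ≤ (2 : ℝ) ^ b :=
  Real.rpow_le_rpow_of_exponent_le (by norm_num) h

/-- the sum is at most `n` times the last one -/
private theorem sum_le (g : ℕ) (κ : Fin (2 * g + 1) → ℤ) (hκ : Monotone κ) :
    ∑ i, κ i ≤ (2 * g + 1) * κ (Fin.last (2 * g)) := by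
  calc ∑ i, κ i ≤ ∑ _i : Fin (2 * g + 1), κ (Fin.last (2 * g)) :=
        Finset.sum_le_sum fun i _ => hκ (Fin.le_last i)
    _ = _ := by
        rw [Finset.sum_const, Finset.card_univ, Fintype.card_fin, nsmul_eq_mul]
        push_cast; ring

private theorem sum_nonneg' (g : ℕ) (κ : Fin (2 * g + 1) → ℤ)
    (h1 : ∀ i : Fin (2 * g + 1), 1 ≤ κ i + κ i.rev) : 0 ≤ ∑ i, κ i := by
  have h2 : ∑ i : Fin (2 * g + 1), κ i.rev = ∑ i, κ i :=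
    Equiv.sum_comp Fin.revPerm κ
  have h3 : 0 ≤ ∑ i : Fin (2 * g + 1), (κ i + κ i.rev) :=
    Finset.sum_nonneg fun i _ => by linarith [h1 i]
  rw [Finset.sum_add_distrib, h2] at h3
  linarith

/-- the final inequality of exponents -/
private theorem gamma_bound (g : ℕ) (κ : Fin (2 * g + 1) → ℤ) (hκ : Monotone κ)
    (hs : 0 ≤ ∑ i, κ i) :
    (2 : ℝ) ^ (-(((κ (Fin.last (2 * g)) - κ 0 : ℤ) : ℝ) / 2)) *
      ((2 : ℝ) ^ (-((κ (Fin.last (2 * g)) : ℤ) : ℝ) +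
          (1 / (2 * (2 * (g : ℝ) + 1))) * ((∑ i, κ i : ℤ) : ℝ)) +
        (2 : ℝ) ^ (-(2 * max (κ 0) 0))) ≤
      2 * ((2 : ℝ) ^ (-(3 / (8 * (2 * (g : ℝ) + 1))) * ((∑ i, κ i : ℤ) : ℝ)) *
        (2 : ℝ) ^ (-(((κ (Fin.last (2 * g)) - κ 0 : ℤ) : ℝ) / 8))) := by
  have hle : ((κ 0 : ℤ) : ℝ) ≤ ((κ (Fin.last (2 * g)) : ℤ) : ℝ) := by
    exact_mod_cast hκ (Fin.zero_le _)
  have hsum : ((∑ i, κ i : ℤ) : ℝ) ≤ (2 * (g : ℝ) + 1) * ((κ (Fin.last (2 * g)) : ℤ) : ℝ) := by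
    exact_mod_cast sum_le g κ hκ
  have hs' : (0 : ℝ) ≤ ((∑ i, κ i : ℤ) : ℝ) := by exact_mod_cast hs
  set S : ℝ := ((∑ i, κ i : ℤ) : ℝ) with hS
  set l : ℝ := ((κ (Fin.last (2 * g)) : ℤ) : ℝ) with hl
  set z : ℝ := ((κ 0 : ℤ) : ℝ) with hz
  have hn : (0 : ℝ) < 2 * (g : ℝ) + 1 := by positivity
  set n : ℝ := 2 * (g : ℝ) + 1 with hn'
  have he : ((κ (Fin.last (2 * g)) - κ 0 : ℤ) : ℝ) = l - z := by push_cast; rfl
  rw [he]
  have hSn : S / n ≤ l := by rw [div_le_iff₀ hn]; linarith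
  have hSn0 : 0 ≤ S / n := by positivity
  have hmax : (2 : ℝ) ^ (-(2 * max (κ 0) 0)) = (2 : ℝ) ^ (-(2 * max z 0)) := by
    rw [two_zpow_eq]; push_cast; rfl
  rw [hmax, mul_add, ← Real.rpow_add (by norm_num), ← Real.rpow_add (by norm_num),
    ← Real.rpow_add (by norm_num)]
  have e1 : 1 / (2 * n) * S = (S / n) / 2 := by field_simp
  have e2 : -(3 / (8 * n)) * S = -(3 / 8) * (S / n) := by field_simp
  rw [e1, e2]
  have t1 : (2 : ℝ) ^ (-((l - z) / 2) + (-l + S / n / 2)) ≤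
      (2 : ℝ) ^ (-(3 / 8) * (S / n) + -((l - z) / 8)) := two_rpow_mono (by linarith)
  have t2 : (2 : ℝ) ^ (-((l - z) / 2) + -(2 * max z 0)) ≤
      (2 : ℝ) ^ (-(3 / 8) * (S / n) + -((l - z) / 8)) := by
    refine two_rpow_mono ?_
    have h1 := le_max_left z 0
    have h2 := le_max_right z 0
    linarith
  linarith

/-- what is common to the two cases -/
private theorem common_bound (g q : ℕ) (hq : 1 ≤ q) (κ : Fin (2 * g + 1) → ℤ) (hκ : Monotone κ)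
    (hs : 0 ≤ ∑ i, κ i) (KG KS a s E : ℝ) (hKG : 1 ≤ KG) (hKS : 1 ≤ KS) (X : ℤ)
    (ha : a ≤ KG * (2 : ℝ) ^ (Xk κ) *
        ((2 : ℝ) ^ (-((κ (Fin.last (2 * g)) : ℤ) : ℝ) +
          (1 / (2 * (2 * (g : ℝ) + 1))) * ((∑ i, κ i : ℤ) : ℝ)) +
          (2 : ℝ) ^ (-(2 * max (κ 0) 0)))) (hs0 : 0 ≤ s)
    (hsle : s ≤ KS * E * (2 : ℝ) ^ X)
    (hX : E * ((2 : ℝ) ^ (Xk κ) * (2 : ℝ) ^ X) ≤ (q : ℝ) ^ (2 * g + 1) *
      ((2 : ℝ) ^ (Dk κ) * (2 : ℝ) ^ ((4 * (g : ℝ) + 4) * ((∑ i, κ i : ℤ) : ℝ)) *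
      (2 : ℝ) ^ (-(((κ (Fin.last (2 * g)) - κ 0 : ℤ) : ℝ) / 2)))) :
    a * s ≤ KG * KS * 2 * ((q : ℝ) ^ (2 * g + 1) * (2 : ℝ) ^ (Dk κ) *
      (2 : ℝ) ^ ((4 * (g : ℝ) + 4 - 3 / (8 * (2 * (g : ℝ) + 1))) * ((∑ i, κ i : ℤ) : ℝ)) *
      (2 : ℝ) ^ (-(((κ (Fin.last (2 * g)) - κ 0 : ℤ) : ℝ) / 8))) := by
  have hgam := gamma_bound g κ hκ hs
  set γ : ℝ := ((2 : ℝ) ^ (-((κ (Fin.last (2 * g)) : ℤ) : ℝ) +
          (1 / (2 * (2 * (g : ℝ) + 1))) * ((∑ i, κ i : ℤ) : ℝ)) +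
          (2 : ℝ) ^ (-(2 * max (κ 0) 0))) with hγ
  have hγ0 : 0 ≤ γ := by positivity
  set Q : ℝ := (q : ℝ) ^ (2 * g + 1) with hQ
  have hQ0 : 0 ≤ Q := by positivity
  have hsplit : (2 : ℝ) ^ ((4 * (g : ℝ) + 4 - 3 / (8 * (2 * (g : ℝ) + 1))) *
      ((∑ i, κ i : ℤ) : ℝ)) = (2 : ℝ) ^ ((4 * (g : ℝ) + 4) * ((∑ i, κ i : ℤ) : ℝ)) *
      (2 : ℝ) ^ (-(3 / (8 * (2 * (g : ℝ) + 1))) * ((∑ i, κ i : ℤ) : ℝ)) := by
    rw [← Real.rpow_add (by norm_num)]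
    congr 1
    ring
  rw [hsplit]
  set P : ℝ := (2 : ℝ) ^ ((4 * (g : ℝ) + 4) * ((∑ i, κ i : ℤ) : ℝ)) with hP
  set D : ℝ := (2 : ℝ) ^ (Dk κ) with hD
  set e2 : ℝ := (2 : ℝ) ^ (-(((κ (Fin.last (2 * g)) - κ 0 : ℤ) : ℝ) / 2)) with he2
  set e8 : ℝ := (2 : ℝ) ^ (-(((κ (Fin.last (2 * g)) - κ 0 : ℤ) : ℝ) / 8)) with he8
  set d : ℝ := (2 : ℝ) ^ (-(3 / (8 * (2 * (g : ℝ) + 1))) * ((∑ i, κ i : ℤ) : ℝ)) with hd
  set Y : ℝ := (2 : ℝ) ^ (Xk κ) with hY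
  set Z : ℝ := (2 : ℝ) ^ X with hZ
  have hP0 : 0 ≤ P := by positivity
  have hD0 : 0 ≤ D := by positivity
  have hY0 : 0 ≤ Y := by positivity
  have hZ0 : 0 ≤ Z := by positivity
  have hKG0 : 0 ≤ KG := by linarith
  have hKS0 : 0 ≤ KS := by linarith
  calc a * s ≤ (KG * Y * γ) * (KS * E * Z) := by
        refine mul_le_mul ha hsle hs0 (by positivity)
    _ = (KG * KS * γ) * (E * (Y * Z)) := by ring
    _ ≤ (KG * KS * γ) * (Q * (D * P * e2)) := mul_le_mul_of_nonneg_left hX (by positivity)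
    _ = (KG * KS * Q * D * P) * (e2 * γ) := by ring
    _ ≤ (KG * KS * Q * D * P) * (2 * (d * e8)) := mul_le_mul_of_nonneg_left hgam (by positivity)
    _ = _ := by ring

theorem cell_bound (g : ℕ) (hg : 1 ≤ g) : ∃ K δ : ℝ, 1 ≤ K ∧ 0 < δ ∧ δ ≤ 1 ∧
    ∀ q : ℕ, 1 ≤ q → Squarefree q → ∀ κ : Fin (2 * g + 1) → ℤ, Monotone κ →
    (((Cell g q κ).ncard : ℕ) : ℝ) ≤ K * (q : ℝ) ^ (2 * g + 1) * (2 : ℝ) ^ (Dk κ) *
      (2 : ℝ) ^ ((4 * (g : ℝ) + 4 - δ) * ((∑ i, κ i : ℤ) : ℝ)) *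
      (2 : ℝ) ^ (-(((κ (Fin.last (2 * g)) - κ 0 : ℤ) : ℝ) / 8)) := by
  have hn : (0 : ℝ) < 2 * (g : ℝ) + 1 := by positivity
  obtain ⟨KG, hKG, hG⟩ := gs_count g hg (1 / (2 * (2 * (g : ℝ) + 1))) (by positivity)
  obtain ⟨KS, hKS, hSc⟩ := spiv_count (2 * g + 1)
  obtain ⟨KI, hKI, hIc⟩ := sinf_count (2 * g + 1)
  have hδ1 : (3 : ℝ) / (8 * (2 * (g : ℝ) + 1)) ≤ 1 := by
    rw [div_le_one (by positivity)]
    have : (1 : ℝ) ≤ (g : ℝ) := by exact_mod_cast hg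
    linarith
  refine ⟨((2 * g + 1 : ℕ) : ℝ) * (KG * KS * 2) + KG * KI * 2, 3 / (8 * (2 * (g : ℝ) + 1)), ?_,
    by positivity, hδ1, ?_⟩
  · have h1 : (1 : ℝ) ≤ KG * KI := by nlinarith
    have h2 : (0 : ℝ) ≤ ((2 * g + 1 : ℕ) : ℝ) * (KG * KS * 2) := by positivity
    linarith
  intro q hq hsq κ hκ
  set RHS : ℝ := (q : ℝ) ^ (2 * g + 1) * (2 : ℝ) ^ (Dk κ) *
      (2 : ℝ) ^ ((4 * (g : ℝ) + 4 - 3 / (8 * (2 * (g : ℝ) + 1))) * ((∑ i, κ i : ℤ) : ℝ)) *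
      (2 : ℝ) ^ (-(((κ (Fin.last (2 * g)) - κ 0 : ℤ) : ℝ) / 8)) with hRHS
  have hR0 : 0 ≤ RHS := by positivity
  have hq1 : (1 : ℝ) ≤ (q : ℝ) := by exact_mod_cast hq
  -- the pieces with a pivot
  have hK : ∀ k : Fin (2 * g + 1), (((CK g q κ k).ncard : ℕ) : ℝ) ≤ KG * KS * 2 * RHS := by
    intro k
    rcases Set.eq_empty_or_nonempty (CK g q κ k) with hemp | ⟨M, hM⟩
    · rw [hemp, Set.ncard_empty, Nat.cast_zero]; positivity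
    · obtain ⟨hMc, hM0, hMk⟩ := hM
      obtain ⟨c1, c2, c3⟩ := cell_constr g q hg hsq κ hκ M hMc (k : ℕ)
        (fun i hi => hM0 i (Fin.lt_def.2 hi))
      have hs := sum_nonneg' g κ c1
      have hexp := exp_piv g hg κ hκ (fun i => by linarith [c1 i]) k
        (fun i j a b c => by linarith [c2 i j a b c]) (fun a i b => by linarith [c3 a i b])
      have hGc := hG κ hκ c1
      have hSk := hSc q hq hsq κ hκ k
      have hqk : (2 : ℝ) ^ (2 * ((k : ℕ) : ℤ) * max (-κ k) 0) ≤ (q : ℝ) ^ (k : ℕ) := by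
        have h1 : (2 : ℝ) ^ (2 * max (-κ k) 0) ≤ (q : ℝ) := by
          rcases le_or_gt (κ k) 0 with h | h
          · have h2 : max (-κ k) 0 = -κ k := max_eq_left (by linarith)
            rw [h2]
            have h3 := hMc.2.1.2 k k
            have h4 : (1 : ℝ) ≤ |((M.2 k k : ℤ) : ℝ)| := by
              have : (1 : ℤ) ≤ |M.2 k k| := Int.one_le_abs hMk
              exact_mod_cast this
            have h5 : (1 : ℝ) ≤ (q : ℝ) * (2 : ℝ) ^ (κ k + κ k) := le_of_lt (lt_of_le_of_lt h4 h3)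
            have h6 : (2 : ℝ) ^ (2 * -κ k) = ((2 : ℝ) ^ (κ k + κ k))⁻¹ := by
              rw [← _root_.zpow_neg]; congr 1; ring
            rw [h6, inv_le_iff_one_le_mul₀ (by positivity)]
            exact h5
          · have h2 : max (-κ k) 0 = 0 := max_eq_right (by linarith)
            rw [h2]; simpa using hq1
        calc (2 : ℝ) ^ (2 * ((k : ℕ) : ℤ) * max (-κ k) 0)
            = ((2 : ℝ) ^ (2 * max (-κ k) 0)) ^ (k : ℕ) := by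
              rw [← _root_.zpow_natCast, ← _root_.zpow_mul]; congr 1; ring
          _ ≤ _ := pow_le_pow_left₀ (by positivity) h1 _
      have hX : (q : ℝ) ^ (2 * g + 1 - (k : ℕ)) * ((2 : ℝ) ^ (Xk κ) *
          (2 : ℝ) ^ (SLe fun i j => if i = k then κ i + κ j else max (κ i + κ j) 0)) ≤
          (q : ℝ) ^ (2 * g + 1) *
          ((2 : ℝ) ^ (Dk κ) * (2 : ℝ) ^ ((4 * (g : ℝ) + 4) * ((∑ i, κ i : ℤ) : ℝ)) *
          (2 : ℝ) ^ (-(((κ (Fin.last (2 * g)) - κ 0 : ℤ) : ℝ) / 2))) := by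
        set X1 : ℤ := SLe fun i j => if i = k then κ i + κ j else max (κ i + κ j) 0 with hX1
        have h1 : (2 : ℝ) ^ (Xk κ) * (2 : ℝ) ^ X1 ≤
            (2 : ℝ) ^ (2 * ((k : ℕ) : ℤ) * max (-κ k) 0) *
            ((2 : ℝ) ^ (Dk κ) * (2 : ℝ) ^ ((4 * (g : ℝ) + 4) * ((∑ i, κ i : ℤ) : ℝ)) *
            (2 : ℝ) ^ (-(((κ (Fin.last (2 * g)) - κ 0 : ℤ) : ℝ) / 2))) := by
          rw [two_zpow_eq (Xk κ), two_zpow_eq X1, two_zpow_eq (2 * ((k : ℕ) : ℤ) * max (-κ k) 0),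
            two_zpow_eq (Dk κ), ← Real.rpow_add (by norm_num), ← Real.rpow_add (by norm_num),
            ← Real.rpow_add (by norm_num), ← Real.rpow_add (by norm_num)]
          apply two_rpow_mono
          have h2 : (2 : ℝ) * (((Xk κ : ℤ) : ℝ) + (X1 : ℝ)) +
              ((κ (Fin.last (2 * g)) - κ 0 : ℤ) : ℝ) ≤
              2 * ((4 * (g : ℝ) + 4) * ((∑ i, κ i : ℤ) : ℝ) + ((Dk κ : ℤ) : ℝ) +
                ((2 * ((k : ℕ) : ℤ) * max (-κ k) 0 : ℤ) : ℝ)) := by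
            exact_mod_cast hexp
          linarith
        have hkle : (k : ℕ) ≤ 2 * g + 1 := k.2.le
        calc (q : ℝ) ^ (2 * g + 1 - (k : ℕ)) * ((2 : ℝ) ^ (Xk κ) * (2 : ℝ) ^ X1)
            ≤ (q : ℝ) ^ (2 * g + 1 - (k : ℕ)) * ((q : ℝ) ^ (k : ℕ) *
            ((2 : ℝ) ^ (Dk κ) * (2 : ℝ) ^ ((4 * (g : ℝ) + 4) * ((∑ i, κ i : ℤ) : ℝ)) *
            (2 : ℝ) ^ (-(((κ (Fin.last (2 * g)) - κ 0 : ℤ) : ℝ) / 2)))) := by
              refine mul_le_mul_of_nonneg_left (h1.trans ?_) (by positivity)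
              exact mul_le_mul_of_nonneg_right hqk (by positivity)
          _ = ((q : ℝ) ^ (2 * g + 1 - (k : ℕ)) * (q : ℝ) ^ (k : ℕ)) *
            ((2 : ℝ) ^ (Dk κ) * (2 : ℝ) ^ ((4 * (g : ℝ) + 4) * ((∑ i, κ i : ℤ) : ℝ)) *
            (2 : ℝ) ^ (-(((κ (Fin.last (2 * g)) - κ 0 : ℤ) : ℝ) / 2))) := by ring
          _ = _ := by rw [← pow_add, Nat.sub_add_cancel hkle]
      have hcard : (((CK g q κ k).ncard : ℕ) : ℝ) ≤
          (((GS g κ).ncard : ℕ) : ℝ) * (((SK g q κ k).ncard : ℕ) : ℝ) := by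
        exact_mod_cast ck_card g q κ k
      refine hcard.trans ?_
      exact common_bound g q hq κ hκ hs KG KS _ _ ((q : ℝ) ^ (2 * g + 1 - (k : ℕ))) hKG hKS
        (SLe fun i j => if i = k then κ i + κ j else max (κ i + κ j) 0) hGc (Nat.cast_nonneg _)
        hSk hX
  have hI : (((CI g q κ).ncard : ℕ) : ℝ) ≤ KG * KI * 2 * RHS := by
    rcases Set.eq_empty_or_nonempty (CI g q κ) with hemp | ⟨M, hM⟩
    · rw [hemp, Set.ncard_empty, Nat.cast_zero]; positivity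
    · obtain ⟨hMc, hM0⟩ := hM
      obtain ⟨c1, c2, c3⟩ := cell_constr g q hg hsq κ hκ M hMc (2 * g + 1)
        (fun i _ => hM0 i)
      have hs := sum_nonneg' g κ c1
      have hexp := exp_inf g hg κ hκ (fun i => by linarith [c1 i])
        (fun i j b c => by linarith [c2 i j i.2 b c])
        (fun i b => by linarith [c3 (by omega) i b])
      have hGc := hG κ hκ c1
      have hSI := hIc q hq hsq κ hκ
      have hX : (1 : ℝ) * ((2 : ℝ) ^ (Xk κ) * (2 : ℝ) ^ (Xk κ)) ≤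
          (q : ℝ) ^ (2 * g + 1) *
          ((2 : ℝ) ^ (Dk κ) * (2 : ℝ) ^ ((4 * (g : ℝ) + 4) * ((∑ i, κ i : ℤ) : ℝ)) *
          (2 : ℝ) ^ (-(((κ (Fin.last (2 * g)) - κ 0 : ℤ) : ℝ) / 2))) := by
        refine mul_le_mul (one_le_pow₀ hq1) ?_ (by positivity) (by positivity)
        rw [two_zpow_eq (Xk κ), two_zpow_eq (Dk κ), ← Real.rpow_add (by norm_num),
          ← Real.rpow_add (by norm_num), ← Real.rpow_add (by norm_num)]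
        apply two_rpow_mono
        have h2 : (4 : ℝ) * (((Xk κ : ℤ) : ℝ)) + ((κ (Fin.last (2 * g)) - κ 0 : ℤ) : ℝ) ≤
            2 * ((4 * (g : ℝ) + 4) * ((∑ i, κ i : ℤ) : ℝ) + ((Dk κ : ℤ) : ℝ)) := by
          exact_mod_cast hexp
        linarith
      have hcard : (((CI g q κ).ncard : ℕ) : ℝ) ≤
          (((GS g κ).ncard : ℕ) : ℝ) * (((SI g q κ).ncard : ℕ) : ℝ) := by
        exact_mod_cast ci_card g q κ
      refine hcard.trans ?_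
      exact common_bound g q hq κ hκ hs KG KI _ _ 1 hKG hKI (Xk κ) hGc (Nat.cast_nonneg _)
        (by rw [mul_one]; exact hSI) hX
  have hU : (((Cell g q κ).ncard : ℕ) : ℝ) ≤
      (∑ k, (((CK g q κ k).ncard : ℕ) : ℝ)) + (((CI g q κ).ncard : ℕ) : ℝ) := by
    exact_mod_cast cell_union g q κ
  have hS : ∑ k, (((CK g q κ k).ncard : ℕ) : ℝ) ≤ ((2 * g + 1 : ℕ) : ℝ) * (KG * KS * 2 * RHS) := by
    calc _ ≤ ∑ _k : Fin (2 * g + 1), KG * KS * 2 * RHS := Finset.sum_le_sum fun k _ => hK k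
      _ = _ := by rw [Finset.sum_const, Finset.card_univ, Fintype.card_fin, nsmul_eq_mul]
  calc (((Cell g q κ).ncard : ℕ) : ℝ) ≤ ((2 * g + 1 : ℕ) : ℝ) * (KG * KS * 2 * RHS) +
        KG * KI * 2 * RHS := by linarith
    _ = _ := by rw [hRHS]; ring

end Pool.Agent.Helper31.FM2
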