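import Pool.Agent.Helper32.DZ.CellOddS
import Pool.Agent.Helper31.FM2.Defs

set_option autoImplicit false

/-!
FM2-3 CellSub. Reduction of a pair `(G0, S0)` with `det G0 = ± s^2`, `det (X r G0 - S0) = c f`, `a_n = r s^2`.

PROOF. Copy `odd_cell_red` (Helper32/FM/OddCellRed.lean) with: `e_i = r θ_i`, weight `D z = max 1 (‖z‖ / |r|)` (`1 ≤ D`, `D (conj z) = D z`), `ρ = |r|`
(`‖r θ_i‖ ≤ |r| D(r θ_i)`). So `det Φ0 = s^2 ∏ max 1 ‖θ_i‖ ≤ s^2 (∑ |a_i|)/|a_n| ≤ (2 g + 2) H / |r|` by `roots_mahler` (Helper32/DZ/Roots.lean), and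
`cell_gen` gives `2^(2 ∑ κ) ≤ (4n)^(2n) C1 det Φ0`. `2^c ≥ (4n)^(2n) C1 (2 g + 2)`.
-/

open Polynomial Matrix Pool.Agent.Helper32.DZ Pool.Agent.Helper32.FM

namespace Pool.Agent.Helper31.FM2

private theorem csb_toR {N : ℕ} (M g : Matrix (Fin N) (Fin N) ℤ) :
    toR (gᵀ * M * g) = (toR g)ᵀ * toR M * toR g := by
  have h : (gᵀ * M * g).map (Int.castRingHom ℝ) = (g.map (Int.castRingHom ℝ))ᵀ *
      M.map (Int.castRingHom ℝ) * g.map (Int.castRingHom ℝ) := by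
    rw [Matrix.map_mul, Matrix.map_mul, Matrix.transpose_map]
  exact h

private theorem csb_ev {N : ℕ} (A g : Matrix (Fin N) (Fin N) ℝ) (u w : Fin N → ℝ) :
    ev (gᵀ * A * g) u w = ev A (g *ᵥ u) (g *ᵥ w) := by
  unfold ev
  rw [← Matrix.mulVec_mulVec, ← Matrix.mulVec_mulVec, Matrix.dotProduct_mulVec u gᵀ,
    Matrix.vecMul_transpose]

private theorem csb_det {N : ℕ} (g : Matrix (Fin N) (Fin N) ℤ) (hg : g.det = 1 ∨ g.det = -1) :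
    (toR g).det ≠ 0 := by
  have h : (toR g).det = ((g.det : ℤ) : ℝ) := (Int.cast_det g).symm
  rw [h]
  rcases hg with h1 | h1 <;> rw [h1] <;> norm_num

theorem cell_sub (g : ℕ) (hg : 1 ≤ g) : ∃ c : ℕ, ∀ H : ℕ, 1 ≤ H →
    ∀ a : Fin (2 * g + 1 + 1) → ℤ, (∀ i, |a i| ≤ (H : ℤ)) → Good a →
    ∀ r s : ℤ, a (Fin.last (2 * g + 1)) = r * s ^ 2 →
    ∀ G0 S0 : Matrix (Fin (2 * g + 1)) (Fin (2 * g + 1)) ℤ, G0.IsSymm → S0.IsSymm →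
    |G0.det| = s ^ 2 → pen (r • G0) S0 = C (-(-1) ^ (g + 1) * r ^ (2 * g)) * pol a →
    ∃ (h : Matrix (Fin (2 * g + 1)) (Fin (2 * g + 1)) ℤ) (κ : Fin (2 * g + 1) → ℤ),
      (h.det = 1 ∨ h.det = -1) ∧ PG (hᵀ * G0 * h) (hᵀ * S0 * h) ∧ Monotone κ ∧
      |(r : ℝ)| * (2 : ℝ) ^ (2 * ∑ i, κ i) ≤ 2 ^ c * H ∧
      ∀ U ∈ Tr κ, ∀ i j, |(((Uᵀ * (hᵀ * G0 * h) * U) i j : ℤ) : ℝ)| < (2 : ℝ) ^ (κ i + κ j) ∧
        |(((Uᵀ * (hᵀ * S0 * h) * U) i j : ℤ) : ℝ)| < |(r : ℝ)| * (2 : ℝ) ^ (κ i + κ j) := by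
  obtain ⟨C1, hC1, hherm⟩ := herm_sort (2 * g + 1)
  have hK0 : (0 : ℝ) < (4 * ((2 * g + 1 : ℕ) : ℝ)) ^ (2 * (2 * g + 1)) * C1 * (2 * g + 2) := by
    positivity
  obtain ⟨c, hc⟩ := pow_unbounded_of_one_lt
    ((4 * ((2 * g + 1 : ℕ) : ℝ)) ^ (2 * (2 * g + 1)) * C1 * (2 * g + 2)) (one_lt_two : (1 : ℝ) < 2)
  refine ⟨c, fun H hH a ha hgood r s hrs G0 S0 hG hS hdet1 hpen => ?_⟩
  have hl := hgood.1
  have hr0 : r ≠ 0 := by
    rintro rfl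
    exact hl (by rw [hrs, zero_mul])
  have hs0 : s ≠ 0 := by
    rintro rfl
    exact hl (by rw [hrs]; simp)
  have hdet0 : G0.det ≠ 0 := by
    intro h
    rw [h, abs_zero] at hdet1
    exact hs0 (pow_eq_zero_iff two_ne_zero |>.1 hdet1.symm)
  obtain ⟨e, he, hfac⟩ := hgood.2
  have hrC : ((r : ℤ) : ℂ) ≠ 0 := Int.cast_ne_zero.2 hr0
  have hrR : (0 : ℝ) < |(r : ℝ)| := abs_pos.2 (Int.cast_ne_zero.2 hr0)
  have hr : ∀ i, ((((r : ℤ) : ℂ) * e i) • G0.map (Int.cast : ℤ → ℂ) -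
      S0.map (Int.cast : ℤ → ℂ)).det = 0 := by
    intro i
    have h1 := pen_eval (r • G0) S0 (e i)
    rw [hpen, map_mul, pol_eval, hfac (e i), Finset.prod_eq_zero (Finset.mem_univ i)
      (sub_self (e i)), mul_zero, mul_zero] at h1
    rw [h1]
    congr 1
    ext k l
    simp only [Matrix.sub_apply, Matrix.smul_apply, Matrix.map_apply, smul_eq_mul]
    push_cast
    ring
  have hinj : Function.Injective fun i => ((r : ℤ) : ℂ) * e i :=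
    fun i j hij => he (mul_left_cancel₀ hrC hij)
  have hPG : PG G0 S0 := ⟨hG, hS, hdet0, fun i => ((r : ℤ) : ℂ) * e i, hinj, hr⟩
  have hconj : ∀ i, ∃ j, ((r : ℤ) : ℂ) * e j = (starRingEnd ℂ) (((r : ℤ) : ℂ) * e i) := by
    intro i
    obtain ⟨j, hj⟩ := roots_conj a hl e hfac i
    refine ⟨j, ?_⟩
    rw [hj, map_mul, map_intCast]
  obtain ⟨Φ0, hΦ0, hΦdet, hΦP, hΦR⟩ := real_form G0 S0 hG hS hdet0
    (fun i => ((r : ℤ) : ℂ) * e i) hinj hr hconj (fun z => max 1 (‖z‖ / |(r : ℝ)|))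
    (fun z => le_max_left _ _) (fun z => by
      show max 1 (‖(starRingEnd ℂ) z‖ / |(r : ℝ)|) = max 1 (‖z‖ / |(r : ℝ)|)
      rw [RCLike.norm_conj])
    (|(r : ℝ)|) (fun i => by
      have h1 : ‖((r : ℤ) : ℂ) * e i‖ / |(r : ℝ)| ≤ max 1 (‖((r : ℤ) : ℂ) * e i‖ / |(r : ℝ)|) :=
        le_max_right _ _
      have h2 := mul_le_mul_of_nonneg_left h1 hrR.le
      rwa [mul_div_cancel₀ _ hrR.ne'] at h2)
  have hDe : ∀ i, max 1 (‖((r : ℤ) : ℂ) * e i‖ / |(r : ℝ)|) = max 1 ‖e i‖ := by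
    intro i
    rw [norm_mul, Complex.norm_intCast, mul_div_cancel_left₀ _ hrR.ne']
  have hd1 : |(G0.det : ℝ)| = (s : ℝ) ^ 2 := by
    have h1 : ((|G0.det| : ℤ) : ℝ) = ((s ^ 2 : ℤ) : ℝ) := by rw [hdet1]
    rw [Int.cast_abs, Int.cast_pow] at h1
    exact h1
  have hΦd : |(r : ℝ)| * Φ0.det ≤ (2 * g + 2) * H := by
    have h1 := roots_mahler a hl e hfac
    have h2 : |(a (Fin.last (2 * g + 1)) : ℝ)| = |(r : ℝ)| * (s : ℝ) ^ 2 := by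
      rw [hrs]
      push_cast
      rw [abs_mul, abs_of_nonneg (sq_nonneg (s : ℝ))]
    have h3 : ∑ i, |(a i : ℝ)| ≤ (2 * g + 2) * H := by
      calc ∑ i, |(a i : ℝ)| ≤ ∑ _i : Fin (2 * g + 1 + 1), (H : ℝ) := by
            refine Finset.sum_le_sum fun i _ => ?_
            have h4 : ((|a i| : ℤ) : ℝ) ≤ ((H : ℤ) : ℝ) := Int.cast_le.2 (ha i)
            push_cast at h4
            exact h4
        _ = (2 * g + 2) * H := by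
            rw [Finset.sum_const, Finset.card_univ, Fintype.card_fin, nsmul_eq_mul]
            push_cast
            ring
    rw [hΦdet, hd1]
    have h4 : ∏ i, max 1 (‖((r : ℤ) : ℂ) * e i‖ / |(r : ℝ)|) = ∏ i, max 1 ‖e i‖ :=
      Finset.prod_congr rfl fun i _ => hDe i
    rw [h4]
    rw [h2] at h1
    calc |(r : ℝ)| * ((s : ℝ) ^ 2 * ∏ i, max 1 ‖e i‖)
        = |(r : ℝ)| * (s : ℝ) ^ 2 * ∏ i, max 1 ‖e i‖ := by ring
      _ ≤ _ := h1.trans h3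
  obtain ⟨h, hh, hprod, hmono⟩ := hherm Φ0 hΦ0
  have hgd := csb_det h hh
  have hΦ : ((toR h)ᵀ * Φ0 * toR h).PosDef := by
    have h1 := hΦ0.conjTranspose_mul_mul_same (B := toR h)
      (Matrix.mulVec_injective_of_det_ne_zero hgd)
    rwa [Matrix.conjTranspose_eq_transpose_of_trivial] at h1
  obtain ⟨κ, hκm, hκs, hκU⟩ := cell_gen (hᵀ * G0 * h) (hᵀ * S0 * h) ((toR h)ᵀ * Φ0 * toR h) hΦ
    (|(r : ℝ)|) hrR
    (fun u w => by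
      rw [csb_toR, csb_ev, csb_ev, csb_ev]
      exact hΦP _ _)
    (fun u w => by
      rw [csb_toR, csb_ev, csb_ev, csb_ev]
      exact hΦR _ _) hmono
  refine ⟨h, κ, hh, pg_conj G0 S0 h hPG hh, hκm, ?_, hκU⟩
  have hC0 : (0 : ℝ) < C1 := lt_of_lt_of_le one_pos hC1
  calc |(r : ℝ)| * (2 : ℝ) ^ (2 * ∑ i, κ i)
      ≤ |(r : ℝ)| * ((4 * ((2 * g + 1 : ℕ) : ℝ)) ^ (2 * (2 * g + 1)) * (C1 * Φ0.det)) := by
        refine mul_le_mul_of_nonneg_left (hκs.trans ?_) hrR.le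
        exact mul_le_mul_of_nonneg_left hprod (by positivity)
    _ = (4 * ((2 * g + 1 : ℕ) : ℝ)) ^ (2 * (2 * g + 1)) * C1 * (|(r : ℝ)| * Φ0.det) := by ring
    _ ≤ (4 * ((2 * g + 1 : ℕ) : ℝ)) ^ (2 * (2 * g + 1)) * C1 * ((2 * g + 2) * H) :=
        mul_le_mul_of_nonneg_left hΦd (by positivity)
    _ = (4 * ((2 * g + 1 : ℕ) : ℝ)) ^ (2 * (2 * g + 1)) * C1 * (2 * g + 2) * H := by ring
    _ ≤ 2 ^ c * H := mul_le_mul_of_nonneg_right hc.le (Nat.cast_nonneg H)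

end Pool.Agent.Helper31.FM2
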