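import Pool.Agent.Helper31.FM2.Defs

set_option autoImplicit false

/-!
FM2-5a DetZero. Counting symmetric matrices in a box by the last diagonal entry; singular matrices in a box.

PROOFS. `box_last`: map `G ↦` (the entries `(i, j)`, `i ≤ j`, `(i,j) ≠ (last,last)`); the number of images is `≤ ∏ 3 * max (B i j) 1 ≤ 3^((n+1)^2) 2^(Xk - max(2κ_last) 0)`
(as `box_card`), and every fibre has at most `N` elements. `det_last`: `det` is an affine function of the last diagonal entry with slope the leading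
minor: `det (G + t E_last,last) = det G + t det (G.submatrix castSucc castSucc)` (`Matrix.det_succ_row`, or `Matrix.det_updateRow_add` and the adjugate).
`det_zero`: induction on `n`. If `κ 0 ≤ 0`: `box_card_two`. `κ 0 ≥ 1`: all `κ i ≥ 1`. `n = 0`: one matrix, `2^(Xk) = 2^(2 κ 0)`. `n + 1`: leading minor `≠ 0`: at most one value of the
last entry for given other entries: `≤ 3^(..) 2^(Xk - 2 κ_last)`; leading minor `= 0`: the leading block is in the set for `κ ∘ castSucc` (induction), the remaining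
`n + 2` entries in their intervals, `Xk κ = Xk (κ ∘ castSucc) + ∑_i max (κ i + κ_last) 0`.
-/

open Matrix Pool.Agent.Helper32.DZ

namespace Pool.Agent.Helper31.FM2

private theorem dz_zpow {ι : Type*} (s : Finset ι) (e : ι → ℤ) :
    ∏ i ∈ s, (2 : ℝ) ^ (e i) = (2 : ℝ) ^ (∑ i ∈ s, e i) := by
  classical
  induction s using Finset.induction_on with
  | empty => simp
  | insert a s ha ih =>
    rw [Finset.prod_insert ha, Finset.sum_insert ha, ih, zpow_add₀ (two_ne_zero)]

private theorem dz_prod {N : ℕ} (B : Fin N → Fin N → ℝ) (e : Fin N → Fin N → ℤ)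
    (he : ∀ i j, 0 ≤ e i j) (hB : ∀ i j, i ≤ j → B i j ≤ (2 : ℝ) ^ (e i j)) :
    ∏ i, ∏ j, (if i ≤ j then 3 * max (B i j) 1 else 1) ≤
      (3 : ℝ) ^ (N ^ 2) * (2 : ℝ) ^ (∑ i, ∑ j, e i j) := by
  have key : ∀ i j : Fin N, (if i ≤ j then 3 * max (B i j) 1 else 1) ≤
      3 * (2 : ℝ) ^ (e i j) := by
    intro i j
    have h2 : (1 : ℝ) ≤ (2 : ℝ) ^ (e i j) := one_le_zpow₀ (by norm_num) (he i j)
    by_cases h : i ≤ j
    · rw [if_pos h]
      have h3 : max (B i j) 1 ≤ (2 : ℝ) ^ (e i j) := max_le (hB i j h) h2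
      linarith
    · rw [if_neg h]
      linarith
  have hnn : ∀ i j : Fin N, (0 : ℝ) ≤ if i ≤ j then 3 * max (B i j) 1 else 1 := by
    intro i j
    by_cases h : i ≤ j
    · rw [if_pos h]
      have := le_max_right (B i j) 1
      linarith
    · rw [if_neg h]
      exact zero_le_one
  calc ∏ i, ∏ j, (if i ≤ j then 3 * max (B i j) 1 else 1)
      ≤ ∏ i : Fin N, ∏ j : Fin N, 3 * (2 : ℝ) ^ (e i j) := by
        refine Finset.prod_le_prod (fun i _ => Finset.prod_nonneg fun j _ => hnn i j)
          fun i _ => ?_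
        exact Finset.prod_le_prod (fun j _ => hnn i j) fun j _ => key i j
    _ = (3 : ℝ) ^ (N ^ 2) * (2 : ℝ) ^ (∑ i, ∑ j, e i j) := by
        have h1 : ∀ i : Fin N, ∏ j : Fin N, 3 * (2 : ℝ) ^ (e i j) =
            (3 : ℝ) ^ N * (2 : ℝ) ^ (∑ j, e i j) := by
          intro i
          rw [Finset.prod_mul_distrib, Finset.prod_const, Finset.card_univ, Fintype.card_fin,
            dz_zpow]
        rw [Finset.prod_congr rfl fun i _ => h1 i, Finset.prod_mul_distrib, Finset.prod_const,
          Finset.card_univ, Fintype.card_fin, dz_zpow, ← pow_mul, pow_two]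

/-- number of elements by fibres -/
private theorem dz_fibre {α β : Type*} (A : Set α) (hA : A.Finite) (T : Set β) (hT : T.Finite)
    (f : α → β) (hf : ∀ a ∈ A, f a ∈ T) (N : ℝ) (hN : 0 ≤ N)
    (h : ∀ a ∈ A, (({a' ∈ A | f a' = f a}.ncard : ℕ) : ℝ) ≤ N) :
    ((A.ncard : ℕ) : ℝ) ≤ (T.ncard : ℝ) * N := by
  classical
  have h0 : hA.toFinset.card ≤ ⌊N⌋₊ * hT.toFinset.card := by
    refine Finset.card_le_mul_card_image_of_maps_to (f := f) ?_ _ ?_
    · intro a ha
      exact (Set.Finite.mem_toFinset hT).2 (hf a ((Set.Finite.mem_toFinset hA).1 ha))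
    · intro b _
      rcases (hA.toFinset.filter fun a => f a = b).eq_empty_or_nonempty with he | ⟨a, ha⟩
      · rw [he, Finset.card_empty]
        exact Nat.zero_le _
      · rw [Finset.mem_filter, Set.Finite.mem_toFinset] at ha
        have h1 := h a ha.1
        have h2 : ({a' ∈ A | f a' = f a} : Set α) = ((hA.toFinset.filter fun a => f a = b :
            Finset α) : Set α) := by
          ext x
          simp only [Set.mem_ofPred_eq, Finset.coe_filter, Set.Finite.mem_toFinset, ha.2]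
        rw [h2, Set.ncard_coe_finset] at h1
        exact Nat.le_floor h1
  rw [Set.ncard_eq_toFinset_card A hA, Set.ncard_eq_toFinset_card T hT]
  have h1 : ((hA.toFinset.card : ℕ) : ℝ) ≤ ((⌊N⌋₊ * hT.toFinset.card : ℕ) : ℝ) := by
    exact_mod_cast h0
  refine h1.trans ?_
  rw [Nat.cast_mul, mul_comm]
  exact mul_le_mul_of_nonneg_left (Nat.floor_le hN) (Nat.cast_nonneg _)

theorem box_last (n : ℕ) : ∃ K : ℝ, 1 ≤ K ∧ ∀ (κ : Fin (n + 1) → ℤ)
    (A : Set (Matrix (Fin (n + 1)) (Fin (n + 1)) ℤ)) (N : ℝ), 0 ≤ N →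
    A ⊆ Box (fun i j => (2 : ℝ) ^ (κ i + κ j)) →
    (∀ G ∈ A, (({G' ∈ A | ∀ i j, ¬ (i = Fin.last n ∧ j = Fin.last n) → G' i j = G i j}.ncard : ℕ) : ℝ) ≤ N) →
    ((A.ncard : ℕ) : ℝ) ≤ K * (2 : ℝ) ^ (Xk κ - max (2 * κ (Fin.last n)) 0) * N := by
  classical
  refine ⟨(3 : ℝ) ^ ((n + 1) ^ 2), one_le_pow₀ (by norm_num), ?_⟩
  intro κ A N hN hA hfib
  set l : Fin (n + 1) := Fin.last n with hl
  set B' : Fin (n + 1) → Fin (n + 1) → ℝ := fun i j =>
    if i = l ∧ j = l then 1 else (2 : ℝ) ^ (κ i + κ j) with hB'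
  set e : Fin (n + 1) → Fin (n + 1) → ℤ := fun i j =>
    if i ≤ j then (if i = l ∧ j = l then 0 else max (κ i + κ j) 0) else 0 with he
  have hAfin : A.Finite := (box_card _).1.subset hA
  have h1 := dz_fibre A hAfin (Box B') (box_card B').1
    (fun G i j => if i = l ∧ j = l then 0 else G i j) ?_ N hN ?_
  · refine h1.trans ?_
    have h2 : ((Box B').ncard : ℝ) ≤ (3 : ℝ) ^ ((n + 1) ^ 2) *
        (2 : ℝ) ^ (Xk κ - max (2 * κ l) 0) := by
      refine (box_card B').2.trans ((dz_prod B' e ?_ ?_).trans (le_of_eq ?_))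
      · intro i j
        simp only [he]
        split_ifs
        · exact le_refl _
        · exact le_max_right _ _
        · exact le_refl _
      · intro i j hij
        simp only [hB', he, if_pos hij]
        split_ifs
        · rw [zpow_zero]
        · exact zpow_le_zpow_right₀ (by norm_num) (le_max_left _ _)
      · have h3 : ∑ i, ∑ j, e i j = Xk κ - max (2 * κ l) 0 := by
          have h4 : Xk κ = ∑ i, ∑ j, (e i j + if i = l ∧ j = l then max (2 * κ l) 0 else 0) := by
            unfold Xk SLe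
            refine Finset.sum_congr rfl fun i _ => Finset.sum_congr rfl fun j _ => ?_
            simp only [he]
            by_cases hij : i ≤ j
            · rw [if_pos hij, if_pos hij]
              by_cases hll : i = l ∧ j = l
              · rw [if_pos hll, if_pos hll, hll.1, hll.2, zero_add, two_mul]
              · rw [if_neg hll, if_neg hll, add_zero]
            · have hll : ¬ (i = l ∧ j = l) := fun h => hij (by rw [h.1, h.2])
              rw [if_neg hij, if_neg hij, if_neg hll, add_zero]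
          have h5 : ∑ i, ∑ j, (if i = l ∧ j = l then max (2 * κ l) 0 else 0) =
              max (2 * κ l) 0 := by
            rw [Finset.sum_eq_single l, Finset.sum_eq_single l, if_pos ⟨rfl, rfl⟩]
            · intro j _ hj
              rw [if_neg fun h => hj h.2]
            · intro h
              exact absurd (Finset.mem_univ _) h
            · intro i _ hi
              refine Finset.sum_eq_zero fun j _ => ?_
              rw [if_neg fun h => hi h.1]
            · intro h
              exact absurd (Finset.mem_univ _) h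
          rw [h4]
          simp only [Finset.sum_add_distrib]
          rw [h5]
          ring
        rw [h3]
    exact mul_le_mul_of_nonneg_right h2 hN
  · intro G hG
    have h2 := hA hG
    refine ⟨?_, ?_⟩
    · ext i j
      have h3 : G j i = G i j := h2.1.apply i j
      simp only [Matrix.transpose_apply]
      by_cases hll : i = l ∧ j = l
      · rw [if_pos hll, if_pos ⟨hll.2, hll.1⟩]
      · rw [if_neg hll, if_neg fun h => hll ⟨h.2, h.1⟩, h3]
    · intro i j
      simp only [hB']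
      by_cases hll : i = l ∧ j = l
      · rw [if_pos hll, if_pos hll, Int.cast_zero, abs_zero]
        exact one_pos
      · rw [if_neg hll, if_neg hll]
        exact h2.2 i j
  · intro G hG
    have h2 := hfib G hG
    refine le_trans (le_of_eq ?_) h2
    congr 2
    ext G'
    simp only [Set.mem_ofPred_eq]
    constructor
    · rintro ⟨h3, h4⟩
      refine ⟨h3, fun i j hij => ?_⟩
      have h5 : (if i = l ∧ j = l then (0 : ℤ) else G' i j) =
          if i = l ∧ j = l then 0 else G i j := congrFun (congrFun h4 i) j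
      rw [if_neg hij, if_neg hij] at h5
      exact h5
    · rintro ⟨h3, h4⟩
      refine ⟨h3, ?_⟩
      funext i j
      by_cases hll : i = l ∧ j = l
      · rw [if_pos hll, if_pos hll]
      · rw [if_neg hll, if_neg hll]
        exact h4 i j hll

theorem det_last {n : ℕ} (G G' : Matrix (Fin (n + 1)) (Fin (n + 1)) ℤ)
    (h : ∀ i j, ¬ (i = Fin.last n ∧ j = Fin.last n) → G' i j = G i j) :
    G'.det = G.det + (G' (Fin.last n) (Fin.last n) - G (Fin.last n) (Fin.last n)) *
      (G.submatrix Fin.castSucc Fin.castSucc).det := by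
  rw [Matrix.det_succ_row G' (Fin.last n), Matrix.det_succ_row G (Fin.last n),
    Fin.sum_univ_castSucc, Fin.sum_univ_castSucc]
  have h1 : ∀ j : Fin (n + 1), G'.submatrix (Fin.last n).succAbove j.succAbove =
      G.submatrix (Fin.last n).succAbove j.succAbove := by
    intro j
    ext a b
    simp only [Matrix.submatrix_apply]
    refine h _ _ fun hh => ?_
    rw [Fin.succAbove_last] at hh
    exact absurd hh.1 (Fin.castSucc_lt_last a).ne
  have h2 : ∀ j : Fin n, G' (Fin.last n) j.castSucc = G (Fin.last n) j.castSucc := by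
    intro j
    exact h _ _ fun hh => absurd hh.2 (Fin.castSucc_lt_last j).ne
  have h3 : (G.submatrix (Fin.last n).succAbove (Fin.last n).succAbove) =
      G.submatrix Fin.castSucc Fin.castSucc := by
    rw [Fin.succAbove_last]
  rw [h1 (Fin.last n), h3, Finset.sum_congr rfl fun j _ => by rw [h1, h2 j]]
  have h4 : ((-1 : ℤ)) ^ ((Fin.last n : ℕ) + (Fin.last n : ℕ)) = 1 := by
    rw [← two_mul, pow_mul]
    norm_num
  rw [h4]
  ring

private theorem dz_Xk {n : ℕ} (κ : Fin (n + 1) → ℤ) :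
    Xk κ = Xk (κ ∘ Fin.castSucc) + ∑ i, max (κ i + κ (Fin.last n)) 0 := by
  unfold Xk SLe
  rw [Fin.sum_univ_castSucc, Fin.sum_univ_castSucc (f := fun i => max (κ i + κ (Fin.last n)) 0)]
  have h1 : ∀ i : Fin n, (∑ j, if i.castSucc ≤ j then max (κ i.castSucc + κ j) 0 else 0) =
      (∑ j : Fin n, if i ≤ j then max ((κ ∘ Fin.castSucc) i + (κ ∘ Fin.castSucc) j) 0 else 0) +
        max (κ i.castSucc + κ (Fin.last n)) 0 := by
    intro i
    rw [Fin.sum_univ_castSucc, if_pos (Fin.castSucc_lt_last i).le]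
    congr 1
  have h2 : (∑ j, if Fin.last n ≤ j then max (κ (Fin.last n) + κ j) 0 else 0) =
      max (κ (Fin.last n) + κ (Fin.last n)) 0 := by
    rw [Fin.sum_univ_castSucc, if_pos (le_refl _), Finset.sum_eq_zero, zero_add]
    intro j _
    rw [if_neg (not_le.2 (Fin.castSucc_lt_last j))]
  rw [Finset.sum_congr rfl fun i _ => h1 i, h2, Finset.sum_add_distrib]
  ring

private theorem dz_vec {N : ℕ} (e : Fin N → ℤ) (he : ∀ i, 0 ≤ e i) :
    ({w : Fin N → ℤ | ∀ i, |((w i : ℤ) : ℝ)| < (2 : ℝ) ^ (e i)} : Set (Fin N → ℤ)).Finite ∧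
    (({w : Fin N → ℤ | ∀ i, |((w i : ℤ) : ℝ)| < (2 : ℝ) ^ (e i)}.ncard : ℕ) : ℝ) ≤
      (2 : ℝ) ^ N * (2 : ℝ) ^ (∑ i, e i) := by
  classical
  have hz : ∀ i, (2 : ℝ) ^ (e i) = (((2 : ℤ) ^ (e i).toNat : ℤ) : ℝ) := by
    intro i
    push_cast
    rw [← zpow_natCast, Int.toNat_of_nonneg (he i)]
  have hset : ({w : Fin N → ℤ | ∀ i, |((w i : ℤ) : ℝ)| < (2 : ℝ) ^ (e i)} : Set (Fin N → ℤ)) =
      ((Fintype.piFinset fun i => Finset.Ioo (-((2 : ℤ) ^ (e i).toNat)) ((2 : ℤ) ^ (e i).toNat) :
        Finset (Fin N → ℤ)) : Set (Fin N → ℤ)) := by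
    ext w
    simp only [Set.mem_ofPred_eq, Finset.mem_coe, Fintype.mem_piFinset, Finset.mem_Ioo]
    refine forall_congr' fun i => ?_
    rw [hz i, abs_lt]
    constructor
    · rintro ⟨h1, h2⟩
      exact ⟨by exact_mod_cast h1, by exact_mod_cast h2⟩
    · rintro ⟨h1, h2⟩
      exact ⟨by exact_mod_cast h1, by exact_mod_cast h2⟩
  rw [hset]
  refine ⟨Finset.finite_toSet _, ?_⟩
  rw [Set.ncard_coe_finset, Fintype.card_piFinset]
  push_cast
  have h1 : ∀ i ∈ (Finset.univ : Finset (Fin N)),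
      ((Finset.Ioo (-((2 : ℤ) ^ (e i).toNat)) ((2 : ℤ) ^ (e i).toNat)).card : ℝ) ≤
        2 * (2 : ℝ) ^ (e i) := by
    intro i _
    rw [Int.card_Ioo, hz i]
    have h2 : (0 : ℤ) < (2 : ℤ) ^ (e i).toNat := by positivity
    have h3 : ((((2 : ℤ) ^ (e i).toNat - -((2 : ℤ) ^ (e i).toNat) - 1).toNat : ℕ) : ℤ) =
        (2 : ℤ) ^ (e i).toNat - -((2 : ℤ) ^ (e i).toNat) - 1 := Int.toNat_of_nonneg (by omega)
    have h4 : ((((2 : ℤ) ^ (e i).toNat - -((2 : ℤ) ^ (e i).toNat) - 1).toNat : ℕ) : ℝ) =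
        (((2 : ℤ) ^ (e i).toNat - -((2 : ℤ) ^ (e i).toNat) - 1 : ℤ) : ℝ) := by
      rw [← Int.cast_natCast, h3]
    rw [h4]
    push_cast
    linarith
  refine (Finset.prod_le_prod (fun i _ => Nat.cast_nonneg _) h1).trans (le_of_eq ?_)
  rw [Finset.prod_mul_distrib, Finset.prod_const, Finset.card_univ, Fintype.card_fin, dz_zpow]

theorem det_zero (n : ℕ) : ∃ K : ℝ, 1 ≤ K ∧ ∀ κ : Fin (n + 1) → ℤ, Monotone κ →
    (({G : Matrix (Fin (n + 1)) (Fin (n + 1)) ℤ | G ∈ Box (fun i j => (2 : ℝ) ^ (κ i + κ j)) ∧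
      G.det = 0}.ncard : ℕ) : ℝ) ≤ K * (2 : ℝ) ^ (Xk κ - 2 * max (κ 0) 0) := by
  induction n with
  | zero =>
    refine ⟨1, le_refl _, ?_⟩
    intro κ _
    by_cases h0 : κ 0 ≤ 0
    · have h1 : ({G : Matrix (Fin (0 + 1)) (Fin (0 + 1)) ℤ | G ∈ Box (fun i j =>
          (2 : ℝ) ^ (κ i + κ j)) ∧ G.det = 0}.ncard) ≤ ({0} : Set (Matrix (Fin (0 + 1))
          (Fin (0 + 1)) ℤ)).ncard := by
        refine Set.ncard_le_ncard ?_ (Set.finite_singleton _)
        rintro G ⟨_, hG⟩
        rw [Set.mem_singleton_iff]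
        ext i j
        have hi : i = 0 := Fin.fin_one_eq_zero i
        have hj : j = 0 := Fin.fin_one_eq_zero j
        rw [Matrix.det_fin_one] at hG
        rw [hi, hj, hG]
        rfl
      rw [Set.ncard_singleton] at h1
      have h2 : 0 ≤ Xk κ - 2 * max (κ 0) 0 := by
        have h3 : Xk κ = max (κ 0 + κ 0) 0 := by
          unfold Xk SLe
          simp
        rw [h3, max_eq_right h0]
        simp
      have h3 : (1 : ℝ) ≤ (2 : ℝ) ^ (Xk κ - 2 * max (κ 0) 0) := one_le_zpow₀ (by norm_num) h2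
      rw [one_mul]
      refine le_trans ?_ h3
      exact_mod_cast h1
    · have h1 : ({G : Matrix (Fin (0 + 1)) (Fin (0 + 1)) ℤ | G ∈ Box (fun i j =>
          (2 : ℝ) ^ (κ i + κ j)) ∧ G.det = 0}.ncard) ≤ ({0} : Set (Matrix (Fin (0 + 1))
          (Fin (0 + 1)) ℤ)).ncard := by
        refine Set.ncard_le_ncard ?_ (Set.finite_singleton _)
        rintro G ⟨_, hG⟩
        rw [Set.mem_singleton_iff]
        ext i j
        have hi : i = 0 := Fin.fin_one_eq_zero i
        have hj : j = 0 := Fin.fin_one_eq_zero j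
        rw [Matrix.det_fin_one] at hG
        rw [hi, hj, hG]
        rfl
      rw [Set.ncard_singleton] at h1
      have h2 : 0 ≤ Xk κ - 2 * max (κ 0) 0 := by
        have h3 : Xk κ = max (κ 0 + κ 0) 0 := by
          unfold Xk SLe
          simp
        rw [h3, max_eq_left (by omega : (0 : ℤ) ≤ κ 0), max_eq_left (by omega)]
        omega
      have h3 : (1 : ℝ) ≤ (2 : ℝ) ^ (Xk κ - 2 * max (κ 0) 0) := one_le_zpow₀ (by norm_num) h2
      rw [one_mul]
      refine le_trans ?_ h3
      exact_mod_cast h1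
  | succ n ih =>
    obtain ⟨K1, hK1, hbox⟩ := box_last (n + 1)
    obtain ⟨K2, hK2, hind⟩ := ih
    set K3 : ℝ := (3 : ℝ) ^ ((n + 1 + 1) ^ 2) with hK3
    have hK3' : 1 ≤ K3 := one_le_pow₀ (by norm_num)
    set K4 : ℝ := K2 * (2 : ℝ) ^ (n + 1 + 1) with hK4
    have hK4' : 0 ≤ K4 := by positivity
    refine ⟨K1 + K3 + K4, by linarith, ?_⟩
    intro κ hmon
    set R : ℝ := (2 : ℝ) ^ (Xk κ - 2 * max (κ 0) 0) with hR
    have hRpos : 0 < R := by positivity
    have hbf : (Box (fun i j => (2 : ℝ) ^ (κ i + κ j)) :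
        Set (Matrix (Fin (n + 1 + 1)) (Fin (n + 1 + 1)) ℤ)).Finite := (box_card _).1
    by_cases h0 : κ 0 ≤ 0
    · have h1 : (({G : Matrix (Fin (n + 1 + 1)) (Fin (n + 1 + 1)) ℤ | G ∈ Box (fun i j =>
          (2 : ℝ) ^ (κ i + κ j)) ∧ G.det = 0}.ncard : ℕ) : ℝ) ≤ K3 * R := by
        have h2 := box_card_two κ 1 (le_refl _)
        simp only [one_mul, mul_one] at h2
        have h3 : ({G : Matrix (Fin (n + 1 + 1)) (Fin (n + 1 + 1)) ℤ | G ∈ Box (fun i j =>
          (2 : ℝ) ^ (κ i + κ j)) ∧ G.det = 0}.ncard) ≤ (Box (fun i j =>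
          (2 : ℝ) ^ (κ i + κ j)) : Set (Matrix (Fin (n + 1 + 1)) (Fin (n + 1 + 1)) ℤ)).ncard :=
          Set.ncard_le_ncard (fun G hG => hG.1) hbf
        have h4 : R = (2 : ℝ) ^ (Xk κ) := by
          rw [hR, max_eq_right h0]
          simp
        rw [h4]
        exact le_trans (by exact_mod_cast h3) h2
      refine h1.trans (mul_le_mul_of_nonneg_right ?_ hRpos.le)
      linarith
    · have hpos : ∀ i, 1 ≤ κ i := by
        intro i
        have h1 := hmon (Fin.zero_le i)
        omega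
      set A1 : Set (Matrix (Fin (n + 1 + 1)) (Fin (n + 1 + 1)) ℤ) :=
        {G | G ∈ Box (fun i j => (2 : ℝ) ^ (κ i + κ j)) ∧ G.det = 0 ∧
          (G.submatrix Fin.castSucc Fin.castSucc).det ≠ 0} with hA1
      set A2 : Set (Matrix (Fin (n + 1 + 1)) (Fin (n + 1 + 1)) ℤ) :=
        {G | G ∈ Box (fun i j => (2 : ℝ) ^ (κ i + κ j)) ∧
          (G.submatrix Fin.castSucc Fin.castSucc).det = 0} with hA2
      have hA1f : A1.Finite := hbf.subset fun G hG => hG.1
      have hA2f : A2.Finite := hbf.subset fun G hG => hG.1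
      have hsub : {G : Matrix (Fin (n + 1 + 1)) (Fin (n + 1 + 1)) ℤ | G ∈ Box (fun i j =>
          (2 : ℝ) ^ (κ i + κ j)) ∧ G.det = 0} ⊆ A1 ∪ A2 := by
        rintro G ⟨h1, h2⟩
        by_cases h3 : (G.submatrix Fin.castSucc Fin.castSucc).det = 0
        · exact Or.inr ⟨h1, h3⟩
        · exact Or.inl ⟨h1, h2, h3⟩
      have hb1 : ((A1.ncard : ℕ) : ℝ) ≤ K1 * R := by
        have h1 := hbox κ A1 1 zero_le_one (fun G hG => hG.1) ?_
        · rw [mul_one] at h1
          refine h1.trans (mul_le_mul_of_nonneg_left ?_ (by linarith))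
          rw [hR]
          refine zpow_le_zpow_right₀ (by norm_num) ?_
          have h2 := hmon (Fin.le_last (0 : Fin (n + 1 + 1)))
          have h3 := hpos 0
          rw [max_eq_left (by omega : (0 : ℤ) ≤ κ 0)]
          have h4 := le_max_left (2 * κ (Fin.last (n + 1))) 0
          omega
        · intro G hG
          have h2 : {G' ∈ A1 | ∀ i j, ¬ (i = Fin.last (n + 1) ∧ j = Fin.last (n + 1)) →
              G' i j = G i j} ⊆ {G} := by
            rintro G' ⟨hG', h3⟩
            rw [Set.mem_singleton_iff]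
            have h4 := det_last G G' h3
            rw [hG.2.1, hG'.2.1, zero_add] at h4
            have h5 := mul_eq_zero.1 h4.symm
            rcases h5 with h5 | h5
            · ext i j
              by_cases hll : i = Fin.last (n + 1) ∧ j = Fin.last (n + 1)
              · rw [hll.1, hll.2]
                linarith
              · exact h3 i j hll
            · exact absurd h5 hG.2.2
          have h3 := Set.ncard_le_ncard h2 (Set.finite_singleton _)
          rw [Set.ncard_singleton] at h3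
          exact_mod_cast h3
      have hb2 : ((A2.ncard : ℕ) : ℝ) ≤ K4 * R := by
        set e : Fin (n + 1 + 1) → ℤ := fun i => κ i + κ (Fin.last (n + 1)) with he
        have he0 : ∀ i, 0 ≤ e i := by
          intro i
          have h1 := hpos i
          have h2 := hpos (Fin.last (n + 1))
          simp only [he]
          omega
        obtain ⟨hvf, hvc⟩ := dz_vec e he0
        have hmon' : Monotone (κ ∘ Fin.castSucc) := fun a b hab => hmon (Fin.castSucc_le_castSucc_iff.2 hab)
        have hi := hind (κ ∘ Fin.castSucc) hmon'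
        set L : Set (Matrix (Fin (n + 1)) (Fin (n + 1)) ℤ) := {G | G ∈ Box (fun i j =>
          (2 : ℝ) ^ ((κ ∘ Fin.castSucc) i + (κ ∘ Fin.castSucc) j)) ∧ G.det = 0} with hL
        have hLf : L.Finite := (box_card (fun i j : Fin (n + 1) =>
          (2 : ℝ) ^ ((κ ∘ Fin.castSucc) i + (κ ∘ Fin.castSucc) j))).1.subset fun G hG => hG.1
        set V : Set (Fin (n + 1 + 1) → ℤ) := {w | ∀ i, |((w i : ℤ) : ℝ)| < (2 : ℝ) ^ (e i)} with hV
        have h1 : A2.ncard ≤ (L ×ˢ V).ncard := by
          refine Set.ncard_le_ncard_of_injOn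
            (fun G => (G.submatrix Fin.castSucc Fin.castSucc, fun i => G i (Fin.last (n + 1))))
            ?_ ?_ (hLf.prod hvf)
          · intro G hG
            refine Set.mk_mem_prod ?_ ?_
            · refine ⟨⟨?_, ?_⟩, hG.2⟩
              · exact hG.1.1.submatrix _
              · intro i j
                exact hG.1.2 _ _
            · intro i
              exact hG.1.2 _ _
          · intro G hG G' hG' h
            simp only [Prod.mk.injEq] at h
            obtain ⟨h2, h3⟩ := h
            have h4 : ∀ i, G i (Fin.last (n + 1)) = G' i (Fin.last (n + 1)) := fun i => congrFun h3 i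
            ext i j
            rcases Fin.eq_castSucc_or_eq_last j with ⟨j', rfl⟩ | rfl
            · rcases Fin.eq_castSucc_or_eq_last i with ⟨i', rfl⟩ | rfl
              · exact congrFun (congrFun h2 i') j'
              · rw [← hG.1.1.apply, ← hG'.1.1.apply]
                exact h4 _
            · exact h4 i
        rw [Set.ncard_prod] at h1
        have h2 : ((A2.ncard : ℕ) : ℝ) ≤ (L.ncard : ℝ) * (V.ncard : ℝ) := by exact_mod_cast h1
        refine h2.trans ?_
        have h3 : (L.ncard : ℝ) * (V.ncard : ℝ) ≤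
            (K2 * (2 : ℝ) ^ (Xk (κ ∘ Fin.castSucc) - 2 * max ((κ ∘ Fin.castSucc) 0) 0)) *
              ((2 : ℝ) ^ (n + 1 + 1) * (2 : ℝ) ^ (∑ i, e i)) :=
          mul_le_mul hi hvc (Nat.cast_nonneg _) (by positivity)
        refine h3.trans (le_of_eq ?_)
        have h4 : Xk κ - 2 * max (κ 0) 0 =
            (Xk (κ ∘ Fin.castSucc) - 2 * max ((κ ∘ Fin.castSucc) 0) 0) + ∑ i, e i := by
          rw [dz_Xk κ]
          have h5 : ∑ i, max (κ i + κ (Fin.last (n + 1))) 0 = ∑ i, e i :=
            Finset.sum_congr rfl fun i _ => max_eq_left (he0 i)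
          rw [h5]
          have h6 : (κ ∘ Fin.castSucc) 0 = κ 0 := rfl
          rw [h6]
          ring
        rw [hR, h4, zpow_add₀ (two_ne_zero), hK4]
        ring
      have h1 : ({G : Matrix (Fin (n + 1 + 1)) (Fin (n + 1 + 1)) ℤ | G ∈ Box (fun i j =>
          (2 : ℝ) ^ (κ i + κ j)) ∧ G.det = 0}.ncard) ≤ A1.ncard + A2.ncard :=
        (Set.ncard_le_ncard hsub (hA1f.union hA2f)).trans (Set.ncard_union_le _ _)
      have h2 : (({G : Matrix (Fin (n + 1 + 1)) (Fin (n + 1 + 1)) ℤ | G ∈ Box (fun i j =>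
          (2 : ℝ) ^ (κ i + κ j)) ∧ G.det = 0}.ncard : ℕ) : ℝ) ≤ (A1.ncard : ℝ) + A2.ncard := by
        exact_mod_cast h1
      have h3 : 0 ≤ K3 * R := by positivity
      have h4 : (K1 + K3 + K4) * R = K1 * R + K3 * R + K4 * R := by ring
      rw [h4]
      linarith

end Pool.Agent.Helper31.FM2
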