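import Mathlib

set_option autoImplicit false

/-!
FM2-8a ExpNat. The exponent inequality for a cell (sequence `x 0 ≤ x 1 ≤ ... ≤ x (2g)`).

Notation `y^- = max (-y) 0`, `DN = ∑_(i<j) (x j - x i)`, `NN = ∑_(i≤j) (x i + x j)^-`. [Checked by computer for g ≤ 5.]
PROOF by induction on `g`, removing the first and the last term: `x' i = x (i+1)`.
(1) RECURSION (`g ≥ 1`): `DN (2g+1) x = DN (2g-1) x' + 2 g (x_(2g) - x_0)`; `NN (2g+1) x = NN (2g-1) x' + 2 x_0^- + Σ`, `Σ = ∑_(j=1)^(2g-1) (x_0 + x_j)^-`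
 (the terms with `x_(2g)` vanish by `h1`).
(2) LEMMA L. Let `x_0 < 0`, `0 ≤ K ≤ g - 1`, `x_i + x_(2g-1-i) ≥ 0` for `i < K`; `z_j = min x_j |x_0|`. Then `Σ ≤ (2g-1)|x_0| - (z_K + |x_0|) - z_g`.
 [Pair `j` and `2g - j`, `1 ≤ j ≤ g-1`: `(x_0+x_j)^- + (x_0+x_(2g-j))^- ≤ 2|x_0|` as `x_j + x_(2g-j) ≥ 0`, and `≤ 2|x_0| - (z_j - z_(j-1))` if `j ≤ K` as
 `x_(2g-j) ≥ -x_(j-1)`; middle term `j = g`: `≤ |x_0| - z_g`, `x_g ≥ 0`.] So the increment of `DN - 2 NN` is
 `2g(x_(2g) - x_0) - 4|x_0| - 2Σ ≥ 2g(x_(2g) - |x_0|) + 2 z_K + 2 z_g`.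
(3) LEMMA Z. `DN - 2 NN ≥ - 2 g x_0^-` (induction, `K = 0`, `z_0 = -|x_0|`, `z_g ≥ 0`, `x_(2g) ≥ |x_0|`; if `x_0 ≥ 0` then `NN = 0`, `DN ≥ 0`).
(4) `F(g,k,x) = DN - 2 NN + Y_k + 2k x_k^-`, `Y_k = ∑_(j≥k) (x_k + x_j)^-`. CLAIM A: if `k < g`, `x_0 < 0`: `F ≥ 2 x_(2g) - |x_0|`. `k = 0`:
 `F = 2g(x_(2g) + |x_0|) - 2|x_0| - Σ + (DN - 2NN)(x') ≥ 2g (x_(2g) - |x_0|) + |x_0|` by `Σ ≤ (2g-1)|x_0|` and lemma Z for `x'`. `k ≥ 1`:
 `F(g,k,x) - F(g-1,k-1,x') = increment + 2 x_k^- ≥ 2 (x_(2g) - |x_0|) + 4 min (x_k^+) |x_0|` (`K = k`; if `x_k ≥ 0` then `z_g ≥ z_k ≥ 0`). If `x_1 < 0`: induction gives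
 `≥ 2(x_(2g) - |x_0|) + 2 x_(2g-1) - |x_1| ≥ 2 x_(2g) - |x_0|` since `x_(2g-1) ≥ |x_0|` (`h2`, `i = 0`). If `x_1 ≥ 0`: `F(g-1,k-1,x') = DN(x') ≥ 2 (x_(2g-1) - x_1) ≥ 2 (|x_0| - x_1)` and it is
 `≥ 0`, and `4 min x_1 |x_0| + 2 (|x_0| - x_1)^+ ≥ 2|x_0|`. (5) CLAIM B: `DN - 2NN ≥ 2 x_(2g) - |x_0|` if `x_0 < 0`, `h2` for all `i < g`, `0 ≤ x (g-1)`: the same induction with `K = g - 1`
 (`g = 1` is impossible as then `x_0 ≥ 0`). (6) `x_0 < 0`: `x_(2g) ≥ |x_0|`, so `2 (2 x_(2g) - |x_0|) ≥ x_(2g) + |x_0|`. `x_0 ≥ 0`: `NN = 0`, `DN ≥ x_(2g) - x_0` (`g ≥ 1`). For `k ≥ g`: `x_k ≥ x_g ≥ 0`, so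
 `Y_k = 0`, `x_k^- = 0` and claim B applies.
-/

namespace Pool.Agent.Helper31.FM2

/-- `∑_(i<j) (x j - x i)` -/
def DN (n : ℕ) (x : ℕ → ℤ) : ℤ :=
  ∑ i ∈ Finset.range n, ∑ j ∈ Finset.range n, if i < j then x j - x i else 0

/-- `∑_(i≤j) (x i + x j)^-` -/
def NN (n : ℕ) (x : ℕ → ℤ) : ℤ :=
  ∑ i ∈ Finset.range n, ∑ j ∈ Finset.range n, if i ≤ j then max (-(x i + x j)) 0 else 0

private theorem rsum (m : ℕ) (f : ℕ → ℤ) :
    ∑ i ∈ Finset.range (m + 2), f i = f 0 + (∑ i ∈ Finset.range m, f (i + 1)) + f (m + 1) := by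
  rw [Finset.sum_range_succ, Finset.sum_range_succ']
  ring

private theorem DN_step (m : ℕ) (x : ℕ → ℤ) :
    DN (m + 2) x = DN m (fun i => x (i + 1)) + (m + 1) * (x (m + 1) - x 0) := by
  have e1 : ∀ i, i ∈ Finset.range m →
      (∑ j ∈ Finset.range (m + 2), if i + 1 < j then x j - x (i + 1) else 0) =
      (∑ j ∈ Finset.range m, if i < j then x (j + 1) - x (i + 1) else 0) +
        (x (m + 1) - x (i + 1)) := by
    intro i hi
    rw [rsum]
    have him : i + 1 < m + 1 := by have := Finset.mem_range.mp hi; omega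
    rw [if_pos him, if_neg (by omega), zero_add]
    congr 1
    apply Finset.sum_congr rfl
    intro j _
    by_cases h : i < j
    · rw [if_pos h, if_pos (by omega)]
    · rw [if_neg h, if_neg (by omega)]
  have e0 : (∑ j ∈ Finset.range (m + 2), if 0 < j then x j - x 0 else 0) =
      (∑ j ∈ Finset.range m, (x (j + 1) - x 0)) + (x (m + 1) - x 0) := by
    rw [rsum, if_neg (by omega), if_pos (by omega), zero_add]
    congr 1
  have e2 : (∑ j ∈ Finset.range (m + 2), if m + 1 < j then x j - x (m + 1) else 0) = 0 := by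
    apply Finset.sum_eq_zero
    intro j hj
    rw [if_neg (by have := Finset.mem_range.mp hj; omega)]
  unfold DN
  rw [rsum, e0, e2, Finset.sum_congr rfl e1, Finset.sum_add_distrib]
  have e3 : (∑ j ∈ Finset.range m, (x (j + 1) - x 0)) +
      (∑ i ∈ Finset.range m, (x (m + 1) - x (i + 1))) = m * (x (m + 1) - x 0) := by
    rw [← Finset.sum_add_distrib]
    have : ∀ j ∈ Finset.range m, (x (j + 1) - x 0) + (x (m + 1) - x (j + 1)) =
        x (m + 1) - x 0 := fun j _ => by ring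
    rw [Finset.sum_congr rfl this, Finset.sum_const, Finset.card_range, nsmul_eq_mul]
  linarith [e3]

private theorem NN_step (m : ℕ) (x : ℕ → ℤ) (hx : ∀ i j, i ≤ j → j < m + 2 → x i ≤ x j)
    (h : 0 ≤ x 0 + x (m + 1)) :
    NN (m + 2) x = NN m (fun i => x (i + 1)) + max (-(x 0 + x 0)) 0 +
      ∑ j ∈ Finset.range m, max (-(x 0 + x (j + 1))) 0 := by
  have z : ∀ i, i < m + 2 → max (-(x i + x (m + 1))) 0 = 0 := by
    intro i hi
    have := hx 0 i (by omega) hi
    exact max_eq_right (by linarith)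
  have e1 : ∀ i, i ∈ Finset.range m →
      (∑ j ∈ Finset.range (m + 2), if i + 1 ≤ j then max (-(x (i + 1) + x j)) 0 else 0) =
      (∑ j ∈ Finset.range m, if i ≤ j then max (-(x (i + 1) + x (j + 1))) 0 else 0) := by
    intro i hi
    have him : i + 1 ≤ m + 1 := by have := Finset.mem_range.mp hi; omega
    rw [rsum, if_pos him, if_neg (by omega), zero_add, z (i + 1) (by omega), add_zero]
    apply Finset.sum_congr rfl
    intro j _
    by_cases h : i ≤ j
    · rw [if_pos h, if_pos (by omega)]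
    · rw [if_neg h, if_neg (by omega)]
  have e0 : (∑ j ∈ Finset.range (m + 2), if 0 ≤ j then max (-(x 0 + x j)) 0 else 0) =
      max (-(x 0 + x 0)) 0 + ∑ j ∈ Finset.range m, max (-(x 0 + x (j + 1))) 0 := by
    rw [rsum, if_pos le_rfl, if_pos (by omega), z 0 (by omega), add_zero]
    congr 1
  have e2 : (∑ j ∈ Finset.range (m + 2), if m + 1 ≤ j then max (-(x (m + 1) + x j)) 0 else 0)
      = 0 := by
    apply Finset.sum_eq_zero
    intro j hj
    by_cases h : m + 1 ≤ j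
    · rw [if_pos h, add_comm (x (m + 1)), z j (Finset.mem_range.mp hj)]
    · rw [if_neg h]
  unfold NN
  rw [rsum, e0, e2, Finset.sum_congr rfl e1]
  ring

private theorem Y_step (m k : ℕ) (x : ℕ → ℤ) (hk : k < m)
    (hx : ∀ i j, i ≤ j → j < m + 2 → x i ≤ x j) (h : 0 ≤ x 0 + x (m + 1)) :
    (∑ j ∈ Finset.range (m + 2), if k + 1 ≤ j then max (-(x (k + 1) + x j)) 0 else 0) =
      ∑ j ∈ Finset.range m, if k ≤ j then max (-(x (k + 1) + x (j + 1))) 0 else 0 := by
  have := hx 0 (k + 1) (by omega) (by omega)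
  rw [rsum, if_neg (by omega), if_pos (by omega), zero_add,
    max_eq_right (by linarith : -(x (k + 1) + x (m + 1)) ≤ 0), add_zero]
  apply Finset.sum_congr rfl
  intro j _
  by_cases h : k ≤ j
  · rw [if_pos h, if_pos (by omega)]
  · rw [if_neg h, if_neg (by omega)]

private theorem Y_zero (m : ℕ) (x : ℕ → ℤ) (h : 0 ≤ x 0 + x (m + 1)) :
    (∑ j ∈ Finset.range (m + 2), if 0 ≤ j then max (-(x 0 + x j)) 0 else 0) =
      max (-(x 0 + x 0)) 0 + ∑ j ∈ Finset.range m, max (-(x 0 + x (j + 1))) 0 := by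
  rw [rsum, if_pos le_rfl, if_pos (by omega),
    max_eq_right (by linarith : -(x 0 + x (m + 1)) ≤ 0), add_zero]
  congr 1

private theorem NN_zero (n : ℕ) (x : ℕ → ℤ) (h : ∀ i, i < n → 0 ≤ x i) : NN n x = 0 := by
  unfold NN
  apply Finset.sum_eq_zero
  intro i hi
  apply Finset.sum_eq_zero
  intro j hj
  have hi' := h i (Finset.mem_range.mp hi)
  have hj' := h j (Finset.mem_range.mp hj)
  by_cases hij : i ≤ j
  · rw [if_pos hij, max_eq_right (by linarith)]
  · rw [if_neg hij]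

private theorem DN_nonneg (n : ℕ) (x : ℕ → ℤ) (hx : ∀ i j, i ≤ j → j < n → x i ≤ x j) :
    0 ≤ DN n x := by
  unfold DN
  apply Finset.sum_nonneg
  intro i _
  apply Finset.sum_nonneg
  intro j hj
  by_cases hij : i < j
  · rw [if_pos hij]
    have := hx i j hij.le (Finset.mem_range.mp hj)
    linarith
  · rw [if_neg hij]

private theorem mid_sum (g : ℕ) (w : ℕ → ℤ) :
    ∑ j ∈ Finset.range (2 * g + 1), w j = w g + ∑ j ∈ Finset.range g, (w j + w (2 * g - j)) := by
  have e : 2 * g + 1 = g + (g + 1) := by omega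
  rw [e, Finset.sum_range_add, Finset.sum_range_succ' (fun j => w (g + j)), Finset.sum_add_distrib]
  have r : ∑ j ∈ Finset.range g, w (g + (j + 1)) = ∑ j ∈ Finset.range g, w (2 * g - j) := by
    rw [← Finset.sum_range_reflect (fun j => w (g + (j + 1))) g]
    apply Finset.sum_congr rfl
    intro j hj
    have := Finset.mem_range.mp hj
    congr 1
    omega
  rw [r]
  simp only [add_zero]
  ring

/-- lemma L -/
private theorem lemL (g K : ℕ) (hK : K ≤ g) (x : ℕ → ℤ)
    (hx : ∀ i j, i ≤ j → j < 2 * g + 3 → x i ≤ x j)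
    (h1 : ∀ i, i < 2 * g + 3 → 0 ≤ x i + x (2 * (g + 1) - i)) (h0 : x 0 < 0)
    (h2 : ∀ i, i < K → 0 ≤ x i + x (2 * g + 1 - i)) :
    min (x K) (-x 0) + (-x 0) + min (x (g + 1)) (-x 0) ≤
      ∑ j ∈ Finset.range (2 * g + 1), min (x (j + 1)) (-x 0) := by
  obtain ⟨r, rfl⟩ := Nat.exists_eq_add_of_le hK
  rw [mid_sum (K + r) (fun j => min (x (j + 1)) (-x 0)), Finset.sum_range_add]
  have t1 : ∑ j ∈ Finset.range K, (min (x (j + 1)) (-x 0) - min (x j) (-x 0)) ≤
      ∑ j ∈ Finset.range K, (min (x (j + 1)) (-x 0) +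
        min (x (2 * (K + r) - j + 1)) (-x 0)) := by
    apply Finset.sum_le_sum
    intro j hj
    have hj' := Finset.mem_range.mp hj
    have a1 := h2 j hj'
    have e : 2 * (K + r) + 1 - j = 2 * (K + r) - j + 1 := by omega
    rw [e] at a1
    have a2 := hx 0 j (by omega) (by omega)
    have a3 := hx 0 (2 * (K + r) - j + 1) (by omega) (by omega)
    rcases min_cases (x j) (-x 0) with ⟨q1, q2⟩ | ⟨q1, q2⟩ <;>
    rcases min_cases (x (2 * (K + r) - j + 1)) (-x 0) with ⟨p1, p2⟩ | ⟨p1, p2⟩ <;>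
    rw [q1, p1] <;> linarith
  have t2 : 0 ≤ ∑ j ∈ Finset.range r, (min (x (K + j + 1)) (-x 0) +
        min (x (2 * (K + r) - (K + j) + 1)) (-x 0)) := by
    apply Finset.sum_nonneg
    intro j hj
    have hj' := Finset.mem_range.mp hj
    have a1 := h1 (K + j + 1) (by omega)
    have e : 2 * (K + r + 1) - (K + j + 1) = 2 * (K + r) - (K + j) + 1 := by omega
    rw [e] at a1
    have a2 := hx 0 (K + j + 1) (by omega) (by omega)
    have a3 := hx 0 (2 * (K + r) - (K + j) + 1) (by omega) (by omega)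
    rcases min_cases (x (K + j + 1)) (-x 0) with ⟨q1, q2⟩ | ⟨q1, q2⟩ <;>
    rcases min_cases (x (2 * (K + r) - (K + j) + 1)) (-x 0) with ⟨p1, p2⟩ | ⟨p1, p2⟩ <;>
    rw [q1, p1] <;> linarith
  have t3 : ∑ j ∈ Finset.range K, (min (x (j + 1)) (-x 0) - min (x j) (-x 0)) =
      min (x K) (-x 0) - min (x 0) (-x 0) := Finset.sum_range_sub (fun j => min (x j) (-x 0)) K
  have t4 : min (x 0) (-x 0) = x 0 := min_eq_left (by linarith)
  rw [t3, t4] at t1
  linarith

/-- the increment of `DN - 2 NN` -/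
private theorem incr (g K : ℕ) (hK : K ≤ g) (x : ℕ → ℤ)
    (hx : ∀ i j, i ≤ j → j < 2 * g + 3 → x i ≤ x j)
    (h1 : ∀ i, i < 2 * g + 3 → 0 ≤ x i + x (2 * (g + 1) - i)) (h0 : x 0 < 0)
    (h2 : ∀ i, i < K → 0 ≤ x i + x (2 * g + 1 - i)) :
    DN (2 * g + 1) (fun i => x (i + 1)) - 2 * NN (2 * g + 1) (fun i => x (i + 1)) +
      (2 * g + 2) * (x (2 * g + 2) + x 0) + 2 * min (x K) (-x 0) + 2 * min (x (g + 1)) (-x 0) ≤
      DN (2 * g + 3) x - 2 * NN (2 * g + 3) x := by
  have hz := h1 0 (by omega)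
  have e0 : 2 * (g + 1) - 0 = 2 * g + 1 + 1 := by omega
  rw [e0] at hz
  have L := lemL g K hK x hx h1 h0 h2
  have d := DN_step (2 * g + 1) x
  have n := NN_step (2 * g + 1) x hx hz
  have s : ∑ j ∈ Finset.range (2 * g + 1), max (-(x 0 + x (j + 1))) 0 =
      (2 * g + 1) * (-x 0) - ∑ j ∈ Finset.range (2 * g + 1), min (x (j + 1)) (-x 0) := by
    have : ∀ j ∈ Finset.range (2 * g + 1), max (-(x 0 + x (j + 1))) 0 =
        (-x 0) - min (x (j + 1)) (-x 0) := by
      intro j _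
      rcases min_cases (x (j + 1)) (-x 0) with ⟨p1, p2⟩ | ⟨p1, p2⟩
      · rw [p1, max_eq_left (by linarith)]; ring
      · rw [p1, max_eq_right (by linarith)]; ring
    rw [Finset.sum_congr rfl this, Finset.sum_sub_distrib, Finset.sum_const, Finset.card_range,
      nsmul_eq_mul]
    push_cast
    ring
  have m0 : max (-(x 0 + x 0)) 0 = -2 * x 0 := by rw [max_eq_left (by linarith)]; ring
  rw [s, m0] at n
  push_cast at d
  have e3 : 2 * g + 1 + 2 = 2 * g + 3 := rfl
  have e4 : 2 * g + 1 + 1 = 2 * g + 2 := rfl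
  rw [e3] at d n
  rw [e4] at d
  rw [d, n]
  nlinarith [L]

private theorem h1_shift (g : ℕ) (x : ℕ → ℤ)
    (h1 : ∀ i, i < 2 * g + 3 → 0 ≤ x i + x (2 * (g + 1) - i)) :
    ∀ i, i < 2 * g + 1 → 0 ≤ x (i + 1) + x (2 * g - i + 1) := by
  intro i hi
  have := h1 (i + 1) (by omega)
  have e : 2 * (g + 1) - (i + 1) = 2 * g - i + 1 := by omega
  rwa [e] at this

private theorem mono_shift (m : ℕ) (x : ℕ → ℤ) (hx : ∀ i j, i ≤ j → j < m + 2 → x i ≤ x j) :
    ∀ i j, i ≤ j → j < m → x (i + 1) ≤ x (j + 1) :=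
  fun i j hij hj => hx (i + 1) (j + 1) (by omega) (by omega)

/-- lemma Z -/
private theorem lemZ : ∀ (g : ℕ) (x : ℕ → ℤ), (∀ i j, i ≤ j → j < 2 * g + 1 → x i ≤ x j) →
    (∀ i, i < 2 * g + 1 → 0 ≤ x i + x (2 * g - i)) →
    -(2 * g) * max (-x 0) 0 ≤ DN (2 * g + 1) x - 2 * NN (2 * g + 1) x
  | 0, x, hx, h1 => by
    have h := h1 0 (by omega)
    have h' : 0 ≤ x 0 := by
      have e : 2 * 0 - 0 = 0 := rfl
      rw [e] at h
      linarith
    have n := NN_zero (2 * 0 + 1) x (by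
      intro i hi
      have : i = 0 := by omega
      rw [this]; exact h')
    have d := DN_nonneg (2 * 0 + 1) x hx
    rw [n, max_eq_right (by linarith)]
    linarith
  | g + 1, x, hx, h1 => by
    by_cases h0 : 0 ≤ x 0
    · have n := NN_zero (2 * (g + 1) + 1) x (fun i hi => h0.trans (hx 0 i (by omega) hi))
      have d := DN_nonneg (2 * (g + 1) + 1) x hx
      rw [n, max_eq_right (by linarith)]
      linarith
    · have h0' : x 0 < 0 := not_le.mp h0
      have hx' : ∀ i j, i ≤ j → j < 2 * g + 3 → x i ≤ x j := fun i j a b => hx i j a (by omega)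
      have h1' : ∀ i, i < 2 * g + 3 → 0 ≤ x i + x (2 * (g + 1) - i) :=
        fun i a => h1 i (by omega)
      have I := incr g 0 (by omega) x hx' h1' h0' (fun i hi => absurd hi (by omega))
      have IH := lemZ g (fun i => x (i + 1)) (mono_shift (2 * g + 1) x hx')
        (h1_shift g x h1')
      have a1 := hx' 0 1 (by omega) (by omega)
      have a2 := h1' 0 (by omega)
      have a3 := h1' (g + 1) (by omega)
      have e3 : 2 * (g + 1) - (g + 1) = g + 1 := by omega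
      have e2 : 2 * (g + 1) - 0 = 2 * g + 2 := by omega
      rw [e3] at a3
      rw [e2] at a2
      have b1 : max (-(x (0 + 1))) 0 ≤ -x 0 := max_le (by simpa using a1) (by linarith)
      have b0 : max (-x 0) 0 = -x 0 := max_eq_left (by linarith)
      have b2 : 0 ≤ min (x (g + 1)) (-x 0) := le_min (by linarith) (by linarith)
      have b3 : min (x 0) (-x 0) = x 0 := min_eq_left (by linarith)
      have e1 : 2 * (g + 1) + 1 = 2 * g + 3 := by ring
      rw [e1, b0]
      rw [b3] at I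
      have c1 : (0 : ℤ) ≤ (2 * g + 2) * (x (2 * g + 2) + x 0) := by
        apply mul_nonneg
        · positivity
        · linarith
      have c2 : (2 * (g : ℤ)) * max (-(x (0 + 1))) 0 ≤ (2 * g) * (-x 0) :=
        mul_le_mul_of_nonneg_left b1 (by positivity)
      push_cast
      nlinarith [IH, I, c1, c2, b2]

private theorem DN_two (m : ℕ) (x : ℕ → ℤ) (hx : ∀ i j, i ≤ j → j < m + 3 → x i ≤ x j) :
    2 * (x (m + 2) - x 0) ≤ DN (m + 3) x := by
  have d := DN_step (m + 1) x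
  have n := DN_nonneg (m + 1) (fun i => x (i + 1)) (mono_shift (m + 1) x hx)
  have a := hx 0 (m + 2) (by omega) (by omega)
  have e : m + 1 + 2 = m + 3 := rfl
  have e' : m + 1 + 1 = m + 2 := rfl
  rw [e, e'] at d
  rw [d]
  push_cast
  have : (0 : ℤ) ≤ m * (x (m + 2) - x 0) := mul_nonneg (by positivity) (by linarith)
  nlinarith

/-- common end of claims A and B: the case `0 ≤ x 1` -/
private theorem end_nonneg (a b c D : ℤ) (ha : 0 < a) (hb : 0 ≤ b) (h1 : 2 * (c - b) ≤ D)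
    (hD : 0 ≤ D) (hc : a ≤ c) : a ≤ 4 * min b a + D := by
  rcases min_cases b a with ⟨p1, p2⟩ | ⟨p1, p2⟩ <;> rw [p1] <;> linarith

/-- claim A -/
private theorem claimA : ∀ (g k : ℕ) (x : ℕ → ℤ), k < g →
    (∀ i j, i ≤ j → j < 2 * g + 1 → x i ≤ x j) →
    (∀ i, i < 2 * g + 1 → 0 ≤ x i + x (2 * g - i)) → x 0 < 0 →
    (∀ i, i < k → 0 ≤ x i + x (2 * g - 1 - i)) →
    2 * x (2 * g) + x 0 ≤ DN (2 * g + 1) x - 2 * NN (2 * g + 1) x +
      (∑ j ∈ Finset.range (2 * g + 1), if k ≤ j then max (-(x k + x j)) 0 else 0) +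
      2 * k * max (-x k) 0
  | 0, k, x, hk, _, _, _, _ => absurd hk (by omega)
  | g + 1, 0, x, hk, hx, h1, h0, h2 => by
    have hx' : ∀ i j, i ≤ j → j < 2 * g + 3 → x i ≤ x j := fun i j a b => hx i j a (by omega)
    have h1' : ∀ i, i < 2 * g + 3 → 0 ≤ x i + x (2 * (g + 1) - i) :=
      fun i a => h1 i (by omega)
    have a2 := h1' 0 (by omega)
    have e2 : 2 * (g + 1) - 0 = 2 * g + 1 + 1 := by omega
    rw [e2] at a2
    have d := DN_step (2 * g + 1) x
    have n := NN_step (2 * g + 1) x hx' a2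
    have y := Y_zero (2 * g + 1) x a2
    have Zl := lemZ g (fun i => x (i + 1)) (mono_shift (2 * g + 1) x hx') (h1_shift g x h1')
    have a1 := hx' 0 1 (by omega) (by omega)
    have b1 : max (-(x (0 + 1))) 0 ≤ -x 0 := max_le (by simpa using a1) (by linarith)
    have m0 : max (-(x 0 + x 0)) 0 = -2 * x 0 := by rw [max_eq_left (by linarith)]; ring
    have c2 : (2 * (g : ℤ)) * max (-(x (0 + 1))) 0 ≤ (2 * g) * (-x 0) :=
      mul_le_mul_of_nonneg_left b1 (by positivity)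
    have s : ∑ j ∈ Finset.range (2 * g + 1), max (-(x 0 + x (j + 1))) 0 ≤
        (2 * g + 1) * (-x 0) - min (x (g + 1)) (-x 0) := by
      have L := lemL g 0 (by omega) x hx' h1' h0 (fun i hi => absurd hi (by omega))
      have e : ∀ j ∈ Finset.range (2 * g + 1), max (-(x 0 + x (j + 1))) 0 =
          (-x 0) - min (x (j + 1)) (-x 0) := by
        intro j _
        rcases min_cases (x (j + 1)) (-x 0) with ⟨p1, p2⟩ | ⟨p1, p2⟩
        · rw [p1, max_eq_left (by linarith)]; ring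
        · rw [p1, max_eq_right (by linarith)]; ring
      rw [Finset.sum_congr rfl e, Finset.sum_sub_distrib, Finset.sum_const, Finset.card_range,
        nsmul_eq_mul]
      have b3 : min (x 0) (-x 0) = x 0 := min_eq_left (by linarith)
      rw [b3] at L
      push_cast
      linarith
    have a3 := h1' (g + 1) (by omega)
    have e3 : 2 * (g + 1) - (g + 1) = g + 1 := by omega
    rw [e3] at a3
    have b2 : 0 ≤ min (x (g + 1)) (-x 0) := le_min (by linarith) (by linarith)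
    have f1 : 2 * (g + 1) + 1 = 2 * g + 1 + 2 := by ring
    have f2 : 2 * (g + 1) = 2 * g + 1 + 1 := by ring
    rw [f1, f2, d, n, y, m0]
    have c1 : (0 : ℤ) ≤ (2 * g) * (x (2 * g + 1 + 1) + x 0) := by
      apply mul_nonneg
      · positivity
      · linarith
    push_cast
    nlinarith [Zl, s, c1, c2, b2]
  | g + 1, k + 1, x, hk, hx, h1, h0, h2 => by
    have hx' : ∀ i j, i ≤ j → j < 2 * g + 3 → x i ≤ x j := fun i j a b => hx i j a (by omega)
    have h1' : ∀ i, i < 2 * g + 3 → 0 ≤ x i + x (2 * (g + 1) - i) :=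
      fun i a => h1 i (by omega)
    have h2' : ∀ i, i < k + 1 → 0 ≤ x i + x (2 * g + 1 - i) := by
      intro i hi
      have := h2 i hi
      have e : 2 * (g + 1) - 1 - i = 2 * g + 1 - i := by omega
      rwa [e] at this
    have I := incr g (k + 1) (by omega) x hx' h1' h0 h2'
    have a2 := h1' 0 (by omega)
    have e2 : 2 * (g + 1) - 0 = 2 * g + 1 + 1 := by omega
    rw [e2] at a2
    have y := Y_step (2 * g + 1) k x (by omega) hx' a2
    have a4 := h2' 0 (by omega)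
    have e4 : 2 * g + 1 - 0 = 2 * g + 1 := by omega
    rw [e4] at a4
    have a3 := h1' (g + 1) (by omega)
    have e3 : 2 * (g + 1) - (g + 1) = g + 1 := by omega
    rw [e3] at a3
    have hkg := hx' (k + 1) (g + 1) (by omega) (by omega)
    have b5 : 4 * min (max (x (k + 1)) 0) (-x 0) ≤ 2 * min (x (k + 1)) (-x 0) +
        2 * min (x (g + 1)) (-x 0) + 2 * max (-x (k + 1)) 0 := by
      by_cases hk0 : 0 ≤ x (k + 1)
      · rw [max_eq_left hk0, max_eq_right (by linarith : -x (k + 1) ≤ 0)]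
        have : min (x (k + 1)) (-x 0) ≤ min (x (g + 1)) (-x 0) := min_le_min_right _ hkg
        linarith
      · have hk1 : x (k + 1) < 0 := not_le.mp hk0
        rw [max_eq_right hk1.le, max_eq_left (by linarith : (0:ℤ) ≤ -x (k + 1)),
          min_eq_left (by linarith : (0:ℤ) ≤ -x 0), min_eq_left (by linarith : x (k + 1) ≤ -x 0)]
        have b2 : 0 ≤ min (x (g + 1)) (-x 0) := le_min (by linarith) (by linarith)
        linarith
    have c1 : (0 : ℤ) ≤ (2 * g) * (x (2 * g + 2) + x 0) := by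
      apply mul_nonneg
      · positivity
      · linarith
    have f1 : 2 * (g + 1) + 1 = 2 * g + 3 := by ring
    have f2 : 2 * (g + 1) = 2 * g + 2 := by ring
    have f3 : 2 * g + 1 + 2 = 2 * g + 3 := rfl
    rw [f3] at y
    rw [f1, f2, y]
    by_cases hx1 : x 1 < 0
    · have IH := claimA g k (fun i => x (i + 1)) (by omega) (mono_shift (2 * g + 1) x hx')
        (h1_shift g x h1') hx1 (by
          intro i hi
          have := h2' (i + 1) (by omega)
          have e : 2 * g + 1 - (i + 1) = 2 * g - 1 - i + 1 := by omega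
          rwa [e] at this)
      simp only [zero_add] at IH
      have a1 := hx' 0 1 (by omega) (by omega)
      have b6 : 0 ≤ min (max (x (k + 1)) 0) (-x 0) := le_min (le_max_right _ _) (by linarith)
      push_cast
      nlinarith [IH, I, b5, b6, c1, a1, a4]
    · have hx1' : 0 ≤ x 1 := not_lt.mp hx1
      have pos : ∀ i, i < 2 * g + 1 → 0 ≤ x (i + 1) := fun i hi =>
        hx1'.trans (hx' 1 (i + 1) (by omega) (by omega))
      have n0 := NN_zero (2 * g + 1) (fun i => x (i + 1)) pos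
      obtain ⟨g', rfl⟩ : ∃ g', g = g' + 1 := ⟨g - 1, by omega⟩
      have D2 := DN_two (2 * g') (fun i => x (i + 1)) (by
        intro i j hij hj
        exact hx' (i + 1) (j + 1) (by omega) (by omega))
      have D0 := DN_nonneg (2 * (g' + 1) + 1) (fun i => x (i + 1))
        (mono_shift (2 * (g' + 1) + 1) x hx')
      have f4 : 2 * g' + 3 = 2 * (g' + 1) + 1 := by ring
      rw [f4] at D2
      simp only [zero_add] at D2
      have E := end_nonneg (-x 0) (x 1) (x (2 * (g' + 1) + 1))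
        (DN (2 * (g' + 1) + 1) (fun i => x (i + 1))) (by linarith) hx1' D2 D0 (by linarith)
      have y0 : 0 ≤ ∑ j ∈ Finset.range (2 * (g' + 1) + 1),
          if k ≤ j then max (-(x (k + 1) + x (j + 1))) 0 else 0 := by
        apply Finset.sum_nonneg
        intro j _
        by_cases h : k ≤ j
        · rw [if_pos h]; exact le_max_right _ _
        · rw [if_neg h]
      have hk1 : x 1 ≤ x (k + 1) := hx' 1 (k + 1) (by omega) (by omega)
      have b7 : min (x 1) (-x 0) ≤ min (max (x (k + 1)) 0) (-x 0) :=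
        min_le_min_right _ (hk1.trans (le_max_left _ _))
      have b8 : 0 ≤ (k : ℤ) * max (-x (k + 1)) 0 := mul_nonneg (by positivity) (le_max_right _ _)
      rw [n0] at I
      push_cast at I c1 ⊢
      nlinarith [I, b5, b7, b8, c1, E, y0]

/-- claim B -/
private theorem claimB : ∀ (g : ℕ) (x : ℕ → ℤ), 1 ≤ g →
    (∀ i j, i ≤ j → j < 2 * g + 1 → x i ≤ x j) →
    (∀ i, i < 2 * g + 1 → 0 ≤ x i + x (2 * g - i)) → x 0 < 0 →
    (∀ i, i < g → 0 ≤ x i + x (2 * g - 1 - i)) → 0 ≤ x (g - 1) →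
    2 * x (2 * g) + x 0 ≤ DN (2 * g + 1) x - 2 * NN (2 * g + 1) x
  | 0, x, hg, _, _, _, _, _ => absurd hg (by omega)
  | 1, x, _, _, _, h0, _, h4 => absurd h4 (by simpa using h0)
  | g + 2, x, _, hx, h1, h0, h2, h4 => by
    have hx' : ∀ i j, i ≤ j → j < 2 * (g + 1) + 3 → x i ≤ x j := fun i j a b => hx i j a (by omega)
    have h1' : ∀ i, i < 2 * (g + 1) + 3 → 0 ≤ x i + x (2 * (g + 1 + 1) - i) :=
      fun i a => h1 i (by omega)
    have h2' : ∀ i, i < g + 2 → 0 ≤ x i + x (2 * (g + 1) + 1 - i) := by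
      intro i hi
      have := h2 i hi
      have e : 2 * (g + 2) - 1 - i = 2 * (g + 1) + 1 - i := by omega
      rwa [e] at this
    have h4' : 0 ≤ x (g + 1) := by
      have e : g + 2 - 1 = g + 1 := by omega
      rwa [e] at h4
    have I := incr (g + 1) (g + 1) le_rfl x hx' h1' h0 (fun i hi => h2' i (by omega))
    have a2 := h1' 0 (by omega)
    have e2 : 2 * (g + 1 + 1) - 0 = 2 * (g + 1) + 2 := by omega
    rw [e2] at a2
    have a4 := h2' 0 (by omega)
    have e4 : 2 * (g + 1) + 1 - 0 = 2 * (g + 1) + 1 := by omega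
    rw [e4] at a4
    have hkg := hx' (g + 1) (g + 1 + 1) (by omega) (by omega)
    have b1 : min (x (g + 1)) (-x 0) ≤ min (x (g + 1 + 1)) (-x 0) := min_le_min_right _ hkg
    have b2 : 0 ≤ min (x (g + 1)) (-x 0) := le_min h4' (by linarith)
    have c1 : (0 : ℤ) ≤ (2 * ((g + 1 : ℕ) : ℤ)) * (x (2 * (g + 1) + 2) + x 0) := by
      apply mul_nonneg
      · positivity
      · linarith
    have f1 : 2 * (g + 2) + 1 = 2 * (g + 1) + 3 := by ring
    have f2 : 2 * (g + 2) = 2 * (g + 1) + 2 := by ring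
    rw [f1, f2]
    by_cases hx1 : x 1 < 0
    · have IH := claimB (g + 1) (fun i => x (i + 1)) (by omega)
        (mono_shift (2 * (g + 1) + 1) x hx') (h1_shift (g + 1) x h1') hx1 (by
          intro i hi
          have := h2' (i + 1) (by omega)
          have e : 2 * (g + 1) + 1 - (i + 1) = 2 * (g + 1) - 1 - i + 1 := by omega
          rwa [e] at this) (by
          have e : g + 1 - 1 + 1 = g + 1 := by omega
          change 0 ≤ x (g + 1 - 1 + 1)
          rw [e]; exact h4')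
      simp only [zero_add] at IH
      have a1 := hx' 0 1 (by omega) (by omega)
      push_cast at I IH c1 ⊢
      nlinarith [IH, I, b1, b2, c1, a1, a4]
    · have hx1' : 0 ≤ x 1 := not_lt.mp hx1
      have pos : ∀ i, i < 2 * (g + 1) + 1 → 0 ≤ x (i + 1) := fun i hi =>
        hx1'.trans (hx' 1 (i + 1) (by omega) (by omega))
      have n0 := NN_zero (2 * (g + 1) + 1) (fun i => x (i + 1)) pos
      have D2 := DN_two (2 * g) (fun i => x (i + 1)) (by
        intro i j hij hj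
        exact hx' (i + 1) (j + 1) (by omega) (by omega))
      have D0 := DN_nonneg (2 * (g + 1) + 1) (fun i => x (i + 1))
        (mono_shift (2 * (g + 1) + 1) x hx')
      have f4 : 2 * g + 3 = 2 * (g + 1) + 1 := by ring
      rw [f4] at D2
      simp only [zero_add] at D2
      have E := end_nonneg (-x 0) (x 1) (x (2 * (g + 1) + 1))
        (DN (2 * (g + 1) + 1) (fun i => x (i + 1))) (by linarith) hx1' D2 D0 (by linarith)
      have hk1 : x 1 ≤ x (g + 1) := hx' 1 (g + 1) (by omega) (by omega)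
      have b7 : min (x 1) (-x 0) ≤ min (x (g + 1)) (-x 0) := min_le_min_right _ hk1
      rw [n0] at I
      push_cast at I c1 ⊢
      nlinarith [I, b1, b7, c1, E]

private theorem pos_case (g : ℕ) (hg : 1 ≤ g) (x : ℕ → ℤ)
    (hx : ∀ i j, i ≤ j → j < 2 * g + 1 → x i ≤ x j) (h0 : 0 ≤ x 0) :
    x (2 * g) - x 0 ≤ 2 * (DN (2 * g + 1) x - 2 * NN (2 * g + 1) x) := by
  obtain ⟨g', rfl⟩ : ∃ g', g = g' + 1 := ⟨g - 1, by omega⟩
  have n := NN_zero (2 * (g' + 1) + 1) x (fun i hi => h0.trans (hx 0 i (by omega) hi))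
  have D2 := DN_two (2 * g') x (fun i j a b => hx i j a (by omega))
  have f4 : 2 * g' + 3 = 2 * (g' + 1) + 1 := by ring
  have f5 : 2 * g' + 2 = 2 * (g' + 1) := by ring
  rw [f4, f5] at D2
  have a := hx 0 (2 * (g' + 1)) (by omega) (by omega)
  rw [n]
  linarith

theorem exp_nat_inf (g : ℕ) (hg : 1 ≤ g) (x : ℕ → ℤ)
    (hx : ∀ i j, i ≤ j → j < 2 * g + 1 → x i ≤ x j)
    (h1 : ∀ i, i < 2 * g + 1 → 0 ≤ x i + x (2 * g - i))
    (h2 : ∀ i, i < g → 0 ≤ x i + x (2 * g - 1 - i)) (h4 : 0 ≤ x (g - 1)) :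
    x (2 * g) - x 0 ≤ 2 * (DN (2 * g + 1) x - 2 * NN (2 * g + 1) x) := by
  by_cases h0 : 0 ≤ x 0
  · exact pos_case g hg x hx h0
  · have h0' : x 0 < 0 := not_le.mp h0
    have B := claimB g x hg hx h1 h0' h2 h4
    have a := h1 0 (by omega)
    have e : 2 * g - 0 = 2 * g := by omega
    rw [e] at a
    linarith

theorem exp_nat_piv (g k : ℕ) (hg : 1 ≤ g) (hk : k < 2 * g + 1) (x : ℕ → ℤ)
    (hx : ∀ i j, i ≤ j → j < 2 * g + 1 → x i ≤ x j)
    (h1 : ∀ i, i < 2 * g + 1 → 0 ≤ x i + x (2 * g - i))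
    (h2 : ∀ i, i < k → i < g → 0 ≤ x i + x (2 * g - 1 - i)) (h4 : g ≤ k → 0 ≤ x (g - 1)) :
    x (2 * g) - x 0 ≤ 2 * (DN (2 * g + 1) x - 2 * NN (2 * g + 1) x +
      (∑ j ∈ Finset.range (2 * g + 1), if k ≤ j then max (-(x k + x j)) 0 else 0) +
      2 * k * max (-x k) 0) := by
  have y0 : 0 ≤ ∑ j ∈ Finset.range (2 * g + 1), if k ≤ j then max (-(x k + x j)) 0 else 0 := by
    apply Finset.sum_nonneg
    intro j _
    by_cases h : k ≤ j
    · rw [if_pos h]; exact le_max_right _ _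
    · rw [if_neg h]
  have b8 : 0 ≤ (k : ℤ) * max (-x k) 0 := mul_nonneg (by positivity) (le_max_right _ _)
  by_cases h0 : 0 ≤ x 0
  · have := pos_case g hg x hx h0
    nlinarith
  · have h0' : x 0 < 0 := not_le.mp h0
    by_cases hkg : k < g
    · have A := claimA g k x hkg hx h1 h0' (fun i hi => h2 i hi (by omega))
      have a := h1 0 (by omega)
      have e : 2 * g - 0 = 2 * g := by omega
      rw [e] at a
      linarith
    · have B := exp_nat_inf g hg x hx h1 (fun i hi => h2 i (by omega) hi) (h4 (by omega))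
      nlinarith

end Pool.Agent.Helper31.FM2
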