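import Pool.Agent.Helper31.FM2.All
import Pool.Agent.Helper5.FM.Poly

set_option autoImplicit false

/-!
FM2-14 Final. The first moment theorem for every degree `d ≥ 3`, all leading coefficients.
-/

open Polynomial Pool.Agent.Helper32.DZ Pool.Agent.Helper32.FM Pool.Agent.Helper38.FM
  Pool.Agent.Helper5.FM

namespace Pool.Agent.Helper31.FM2

theorem class_bd_all (d : ℕ) (hd : 3 ≤ d) : ∃ C0 c : ℝ, 0 < C0 ∧ 0 < c ∧
    ∀ H : ℕ, 2 ≤ H → ClassBd d ∅ H (C0 * (H : ℝ) ^ (d + 1) * (Real.log H) ^ (-c)) := by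
  obtain ⟨m, rfl⟩ : ∃ m, d = m + 1 := ⟨d - 1, by omega⟩
  rcases Nat.even_or_odd m with hm | hm
  · obtain ⟨C, γ, hC, hγ, h⟩ := odd_points_all m hm (by omega)
    refine ⟨C, γ, by linarith, hγ, fun H hH T hT hone => ?_⟩
    exact h H hH T (fun p hp => ⟨(hT p hp).1, (hT p hp).2.1, (hT p hp).2.2.2⟩) hone
  · obtain ⟨C, hC, h⟩ := even_points m hm
    refine ⟨C, 1 / 64, by linarith, by norm_num, fun H hH T hT hone => ?_⟩
    exact h H hH T (fun p hp => ⟨(hT p hp).1, (hT p hp).2.1, (hT p hp).2.2.2⟩) hone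

theorem first_moment_full (d : ℕ) (hd : 3 ≤ d) : ∃ C c : ℝ, 0 < C ∧ 0 < c ∧
    ∀ H : ℕ, 2 ≤ H →
    {p : ℤ[X] × ℤ × ℤ | p.1.natDegree = d ∧ (∀ i, |p.1.coeff i| ≤ (H : ℤ)) ∧
      (p.1.map (Int.castRingHom ℚ)).Separable ∧ p.2.2 ^ 2 = p.1.eval p.2.1}.Finite ∧
    (({p : ℤ[X] × ℤ × ℤ | p.1.natDegree = d ∧ (∀ i, |p.1.coeff i| ≤ (H : ℤ)) ∧
      (p.1.map (Int.castRingHom ℚ)).Separable ∧ p.2.2 ^ 2 = p.1.eval p.2.1}.ncard : ℕ) : ℝ) ≤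
      C * (H : ℝ) ^ (d + 1) / (Real.log H) ^ c := by
  obtain ⟨C0, c, hC0, hc, h⟩ := class_bd_all d hd
  obtain ⟨C, hC, hass⟩ := assembly d hd C0 c hC0 hc
  refine ⟨C, c, by linarith, hc, fun H hH => ?_⟩
  have hHr : (2 : ℝ) ≤ H := by exact_mod_cast hH
  have hL : 0 < Real.log H := Real.log_pos (by linarith)
  have hE : symE (∅ : Finset ℤ) = ∅ := rfl
  obtain ⟨h4, h5⟩ := hass H ∅ hH (h H hH)
  rw [hE] at h4 h5
  obtain ⟨h6, h7⟩ := pol_le d (by omega) _ H h4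
  have hset : {p : ℤ[X] × ℤ × ℤ | p.1.natDegree = d ∧ (∀ i, |p.1.coeff i| ≤ (H : ℤ)) ∧
      (p.1.map (Int.castRingHom ℚ)).Separable ∧ p.2.2 ^ 2 = p.1.eval p.2.1} = PolPts d ∅ H := by
    ext p
    simp only [PolPts, Set.mem_setOf_eq, Finset.notMem_empty, not_false_eq_true, true_and]
  rw [hset]
  refine ⟨h6, ?_⟩
  have h8 : ((PolPts d ∅ H).ncard : ℝ) ≤ (Pts d ∅ H).ncard := by exact_mod_cast h7
  rw [Real.rpow_neg hL.le, ← div_eq_mul_inv] at h5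
  exact h8.trans h5

end Pool.Agent.Helper31.FM2
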