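import Mathlib
import Pool.Agent.Helper10.DivBound

set_option autoImplicit false

/-!
FM2-4 SqAp. Squares in a short arithmetic progression.

PROOF. Two signs: it is enough to bound `A = {t : |t| < L, M t + c = y^2 for some y}` (the other sign: `-M`, `-c`). For `t ∈ A` choose `y_t ≥ 0`; `t ↦ y_t` is
injective (`M ≠ 0`). Ordered pairs `(t, t')`, `t ≠ t'`: `(y_t - y_t') (y_t + y_t') = M (t - t') ≠ 0`. For a given difference `k = t - t'`, `0 < |k| < 2L`, the divisor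
`y_t - y_t'` of `M k` determines `y_t`, `y_t'` and so `(t, t')`: at most `2 d(|M k|)` pairs. So `#A^2 ≤ #A + 4 L * 2 max d(|M k|)`, `|M k| ≤ 2 |M| L`, and by
the divisor bound `d(m) ≤ C_k m^(1/k)` (`Helper10/DivBound.lean`: `divisor_bound`; or `Helper33/MRB/B01.lean`: `b01_card_divisors`)
`#A ≤ 1 + sqrt (8 L C (2 |M| L)^(2 ε))`. Take `1/k ≤ 2 ε`.
-/

namespace Pool.Agent.Helper31.FM2

private lemma sa_tau (ε : ℝ) (hε : 0 < ε) : ∃ C : ℝ, 1 ≤ C ∧ ∀ m : ℕ, m ≠ 0 →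
    (m.divisors.card : ℝ) ≤ C * (m : ℝ) ^ ε := by
  obtain ⟨k, hk⟩ := exists_nat_one_div_lt hε
  obtain ⟨C, hC, h⟩ := Pool.Agent.Helper10.divisor_bound (k + 1)
  refine ⟨C, by exact_mod_cast hC, fun m hm => ?_⟩
  have h1 := h m hm
  unfold Pool.Agent.Helper10.tau at h1
  have h2 : ((m.divisors.card : ℝ)) ^ (k + 1) ≤ C * m := by exact_mod_cast h1
  have hm1 : (1 : ℝ) ≤ m := by exact_mod_cast Nat.one_le_iff_ne_zero.2 hm
  have hC1 : (1 : ℝ) ≤ C := by exact_mod_cast hC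
  have hk1 : (0 : ℝ) < (k : ℝ) + 1 := by positivity
  have hk2 : (1 : ℝ) ≤ ε * ((k + 1 : ℕ) : ℝ) := by
    rw [div_lt_iff₀ hk1] at hk
    push_cast
    linarith
  have h3 : (C : ℝ) * m ≤ (C * (m : ℝ) ^ ε) ^ (k + 1) := by
    rw [mul_pow]
    apply mul_le_mul
    · exact le_self_pow₀ hC1 (by omega)
    · rw [← Real.rpow_natCast, ← Real.rpow_mul (by positivity)]
      calc (m : ℝ) = (m : ℝ) ^ (1 : ℝ) := (Real.rpow_one _).symm
        _ ≤ (m : ℝ) ^ (ε * ((k + 1 : ℕ) : ℝ)) := Real.rpow_le_rpow_of_exponent_le hm1 hk2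
    · positivity
    · positivity
  exact le_of_pow_le_pow_left₀ (by omega) (by positivity) (h2.trans h3)

private lemma sa_count (C ε : ℝ) (hC : 1 ≤ C) (hε : 0 < ε)
    (hτ : ∀ m : ℕ, m ≠ 0 → (m.divisors.card : ℝ) ≤ C * (m : ℝ) ^ (2 * ε))
    (L : ℝ) (M c : ℤ) (hL : 1 ≤ L) (hM : M ≠ 0) (A : Finset ℤ)
    (hA : ∀ t ∈ A, |(t : ℝ)| < L ∧ ∃ y : ℤ, y ≠ 0 ∧ M * t + c = y ^ 2) :
    (A.card : ℝ) ≤ (1 + 2 * Real.sqrt C * 2 ^ ε) * (L ^ (1 / 2 : ℝ) * (|(M : ℝ)| * L) ^ ε) := by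
  classical
  have hA' : ∀ t ∈ A, ∃ y : ℤ, 0 < y ∧ M * t + c = y ^ 2 := by
    intro t ht
    obtain ⟨-, y, hy, h⟩ := hA t ht
    exact ⟨|y|, abs_pos.2 hy, by rw [sq_abs]; exact h⟩
  choose! y hy0 hy using hA'
  have hL0 : (0 : ℝ) < L := by linarith
  have hMa : (1 : ℝ) ≤ |(M : ℝ)| := by
    have h1 : (1 : ℤ) ≤ |M| := Int.one_le_abs hM
    exact_mod_cast h1
  have hML : (1 : ℝ) ≤ |(M : ℝ)| * L := by nlinarith
  set N : ℕ := ⌊2 * L⌋₊ with hN
  have hNL : (N : ℝ) ≤ 2 * L := Nat.floor_le (by positivity)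
  set Ks : Finset ℤ := (Finset.Icc (-(N : ℤ)) N).erase 0 with hKs
  have hKc : (Ks.card : ℝ) ≤ 4 * L := by
    have h1 : Ks.card = 2 * N := by
      rw [hKs, Finset.card_erase_of_mem (by rw [Finset.mem_Icc]; omega), Int.card_Icc]
      omega
    rw [h1]
    push_cast
    linarith
  have hinj : A.offDiag.card ≤ (Ks.sigma (fun k => (M * k).natAbs.divisors)).card := by
    refine Finset.card_le_card_of_injOn
      (fun q => (⟨q.1 - q.2, (y q.1 - y q.2).natAbs⟩ : Σ _ : ℤ, ℕ)) ?_ ?_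
    · rintro ⟨t, t'⟩ hq
      rw [Finset.mem_coe, Finset.mem_offDiag] at hq
      obtain ⟨ht, ht', hne⟩ := hq
      simp only at ht ht' hne
      rw [Finset.mem_coe, Finset.mem_sigma]
      have hk0 : t - t' ≠ 0 := sub_ne_zero.2 hne
      refine ⟨?_, ?_⟩
      · simp only
        rw [hKs, Finset.mem_erase, Finset.mem_Icc]
        have h1 : ((t - t').natAbs : ℝ) ≤ 2 * L := by
          rw [Nat.cast_natAbs]
          push_cast
          have h2 := (hA t ht).1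
          have h3 := (hA t' ht').1
          have h4 := abs_sub (t : ℝ) t'
          linarith
        have h2 : (t - t').natAbs ≤ N := Nat.le_floor h1
        exact ⟨hk0, by omega, by omega⟩
      · simp only
        rw [Nat.mem_divisors]
        refine ⟨Int.natAbs_dvd_natAbs.2 ⟨y t + y t', ?_⟩,
          Int.natAbs_ne_zero.2 (mul_ne_zero hM hk0)⟩
        have h1 := hy t ht
        have h2 := hy t' ht'
        linear_combination h1 - h2
    · rintro ⟨t, t'⟩ hq ⟨s, s'⟩ hr hqr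
      rw [Finset.mem_coe, Finset.mem_offDiag] at hq hr
      obtain ⟨ht, ht', hne⟩ := hq
      obtain ⟨hs, hs', hne'⟩ := hr
      simp only at ht ht' hne hs hs' hne' hqr
      have e1 : t - t' = s - s' := by
        have := congrArg Sigma.fst hqr
        simpa using this
      have e2 : (y t - y t').natAbs = (y s - y s').natAbs := by
        have h9 := hqr
        rw [Sigma.mk.injEq] at h9
        exact eq_of_heq h9.2
      have hk0 : t - t' ≠ 0 := sub_ne_zero.2 hne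
      have a1 : (y t - y t') * (y t + y t') = M * (t - t') := by
        have h1 := hy t ht
        have h2 := hy t' ht'
        linear_combination h2 - h1
      have a2 : (y s - y s') * (y s + y s') = M * (t - t') := by
        rw [e1]
        have h1 := hy s hs
        have h2 := hy s' hs'
        linear_combination h2 - h1
      have hMk : M * (t - t') ≠ 0 := mul_ne_zero hM hk0
      have p1 : 0 < y t + y t' := add_pos (hy0 t ht) (hy0 t' ht')
      have p2 : 0 < y s + y s' := add_pos (hy0 s hs) (hy0 s' hs')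
      have hD : y t - y t' = y s - y s' := by
        rcases Int.natAbs_eq_natAbs_iff.1 e2 with h | h
        · exact h
        · exfalso
          rw [h] at a1
          have h3 : (y s - y s') * ((y t + y t') + (y s + y s')) = 0 := by
            linear_combination a2 - a1
          rcases mul_eq_zero.1 h3 with h4 | h4
          · rw [h4, zero_mul] at a2
            exact hMk a2.symm
          · linarith
      have hD0 : y t - y t' ≠ 0 := by
        intro h4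
        rw [h4, zero_mul] at a1
        exact hMk a1.symm
      have hS : y t + y t' = y s + y s' := by
        rw [← hD] at a2
        exact mul_left_cancel₀ hD0 (a1.trans a2.symm)
      have hyt : y t = y s := by linarith
      have hts : t = s := by
        have h1 := hy t ht
        have h2 := hy s hs
        rw [hyt] at h1
        have h3 : M * (t - s) = 0 := by linear_combination h1 - h2
        rcases mul_eq_zero.1 h3 with h4 | h4
        · exact absurd h4 hM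
        · linarith
      have hts' : t' = s' := by linarith
      rw [hts, hts']
  set Z : ℝ := (2 * (|(M : ℝ)| * L)) ^ ε with hZ
  have hZ0 : 0 < Z := by positivity
  have hsum : ((Ks.sigma (fun k => (M * k).natAbs.divisors)).card : ℝ) ≤ 4 * L * (C * Z ^ 2) := by
    rw [Finset.card_sigma]
    push_cast
    have h1 : ∀ k ∈ Ks, (((M * k).natAbs.divisors.card : ℕ) : ℝ) ≤ C * Z ^ 2 := by
      intro k hk
      rw [hKs, Finset.mem_erase, Finset.mem_Icc] at hk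
      obtain ⟨hk0, hk1, hk2⟩ := hk
      refine le_trans (hτ _ (Int.natAbs_ne_zero.2 (mul_ne_zero hM hk0))) ?_
      refine mul_le_mul_of_nonneg_left ?_ (by linarith)
      have h2 : Z ^ 2 = (2 * (|(M : ℝ)| * L)) ^ (2 * ε) := by
        rw [hZ, ← Real.rpow_natCast, ← Real.rpow_mul (by positivity)]
        congr 1
        push_cast
        ring
      rw [h2]
      refine Real.rpow_le_rpow (Nat.cast_nonneg _) ?_ (by positivity)
      rw [Nat.cast_natAbs, abs_mul]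
      push_cast
      have h3 : |(k : ℝ)| ≤ 2 * L := by
        have h4 : |k| ≤ (N : ℤ) := abs_le.2 ⟨hk1, hk2⟩
        have h5 : |(k : ℝ)| ≤ (N : ℝ) := by exact_mod_cast h4
        linarith
      nlinarith [abs_nonneg (M : ℝ)]
    have h2 := Finset.sum_le_sum h1
    rw [Finset.sum_const, nsmul_eq_mul] at h2
    refine le_trans h2 (mul_le_mul_of_nonneg_right hKc ?_)
    positivity
  have hoff : (A.card : ℝ) * A.card ≤ A.card + 4 * L * (C * Z ^ 2) := by
    have h1 := Finset.offDiag_card A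
    have h2 : A.card * A.card ≤ A.card + A.offDiag.card := by omega
    have h3 : (A.card : ℝ) * A.card ≤ A.card + A.offDiag.card := by exact_mod_cast h2
    have h4 : (A.offDiag.card : ℝ) ≤ ((Ks.sigma (fun k => (M * k).natAbs.divisors)).card : ℝ) := by
      exact_mod_cast hinj
    linarith
  set Y : ℝ := 2 * Real.sqrt C * L ^ (1 / 2 : ℝ) * Z with hY
  have hY0 : 0 ≤ Y := by positivity
  have hYsq : Y ^ 2 = 4 * L * (C * Z ^ 2) := by
    have h1 : (L ^ (1 / 2 : ℝ)) ^ 2 = L := by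
      rw [← Real.rpow_natCast, ← Real.rpow_mul hL0.le]
      norm_num
    have h2 : Real.sqrt C ^ 2 = C := Real.sq_sqrt (by linarith)
    rw [hY]
    calc (2 * Real.sqrt C * L ^ (1 / 2 : ℝ) * Z) ^ 2
        = 4 * Real.sqrt C ^ 2 * (L ^ (1 / 2 : ℝ)) ^ 2 * Z ^ 2 := by ring
      _ = 4 * L * (C * Z ^ 2) := by rw [h1, h2]; ring
  have hfin : (A.card : ℝ) ≤ 1 + Y := by
    by_contra hcon
    push Not at hcon
    rw [← hYsq] at hoff
    nlinarith
  have hZ2 : Z = 2 ^ ε * (|(M : ℝ)| * L) ^ ε := by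
    rw [hZ, Real.mul_rpow (by norm_num) (by positivity)]
  have hone : (1 : ℝ) ≤ L ^ (1 / 2 : ℝ) * (|(M : ℝ)| * L) ^ ε := by
    have h1 : (1 : ℝ) ≤ L ^ (1 / 2 : ℝ) := Real.one_le_rpow hL (by norm_num)
    have h2 : (1 : ℝ) ≤ (|(M : ℝ)| * L) ^ ε := Real.one_le_rpow hML hε.le
    nlinarith
  have hYe : Y = 2 * Real.sqrt C * 2 ^ ε * (L ^ (1 / 2 : ℝ) * (|(M : ℝ)| * L) ^ ε) := by
    rw [hY, hZ2]
    ring
  calc (A.card : ℝ) ≤ 1 + Y := hfin
    _ ≤ L ^ (1 / 2 : ℝ) * (|(M : ℝ)| * L) ^ ε + Y := by linarith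
    _ = (1 + 2 * Real.sqrt C * 2 ^ ε) * (L ^ (1 / 2 : ℝ) * (|(M : ℝ)| * L) ^ ε) := by
      rw [hYe]
      ring

theorem sq_ap (ε : ℝ) (hε : 0 < ε) : ∃ K : ℝ, 1 ≤ K ∧ ∀ (L : ℝ) (M c : ℤ), 1 ≤ L → M ≠ 0 →
    (({t : ℤ | |(t : ℝ)| < L ∧ ∃ y : ℤ, y ≠ 0 ∧ (M * t + c = y ^ 2 ∨ M * t + c = -y ^ 2)}.ncard : ℕ) : ℝ) ≤
      K * L ^ (1 / 2 : ℝ) * (|(M : ℝ)| * L) ^ ε := by
  obtain ⟨C, hC, hτ⟩ := sa_tau (2 * ε) (by positivity)
  have hp : (0 : ℝ) ≤ 2 * Real.sqrt C * 2 ^ ε := by positivity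
  refine ⟨2 * (1 + 2 * Real.sqrt C * 2 ^ ε), by linarith, fun L M c hL hM => ?_⟩
  have hfinite : {t : ℤ | |(t : ℝ)| < L}.Finite := by
    refine Set.Finite.subset (Set.finite_Icc (-⌈L⌉) ⌈L⌉) fun t ht => ?_
    have h1 : |(t : ℝ)| < L := ht
    have h2 : |(t : ℝ)| ≤ (⌈L⌉ : ℝ) := le_trans h1.le (Int.le_ceil L)
    have h3 : |t| ≤ ⌈L⌉ := by exact_mod_cast h2
    exact ⟨(abs_le.1 h3).1, (abs_le.1 h3).2⟩
  have hf1 : {t : ℤ | |(t : ℝ)| < L ∧ ∃ y : ℤ, y ≠ 0 ∧ M * t + c = y ^ 2}.Finite :=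
    hfinite.subset fun t ht => ht.1
  have hf2 : {t : ℤ | |(t : ℝ)| < L ∧ ∃ y : ℤ, y ≠ 0 ∧ (-M) * t + (-c) = y ^ 2}.Finite :=
    hfinite.subset fun t ht => ht.1
  have hsub : {t : ℤ | |(t : ℝ)| < L ∧ ∃ y : ℤ, y ≠ 0 ∧
      (M * t + c = y ^ 2 ∨ M * t + c = -y ^ 2)} ⊆
      {t : ℤ | |(t : ℝ)| < L ∧ ∃ y : ℤ, y ≠ 0 ∧ M * t + c = y ^ 2} ∪
      {t : ℤ | |(t : ℝ)| < L ∧ ∃ y : ℤ, y ≠ 0 ∧ (-M) * t + (-c) = y ^ 2} := by
    rintro t ⟨h1, y, hy, h2 | h2⟩
    · exact Or.inl ⟨h1, y, hy, h2⟩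
    · exact Or.inr ⟨h1, y, hy, by linarith⟩
  have hle := le_trans (Set.ncard_le_ncard hsub (hf1.union hf2)) (Set.ncard_union_le _ _)
  have e1 := Set.ncard_eq_toFinset_card _ hf1
  have e2 := Set.ncard_eq_toFinset_card _ hf2
  have b1 := sa_count C ε hC hε hτ L M c hL hM hf1.toFinset (fun t ht => hf1.mem_toFinset.1 ht)
  have b2 := sa_count C ε hC hε hτ L (-M) (-c) hL (neg_ne_zero.2 hM) hf2.toFinset
    (fun t ht => hf2.mem_toFinset.1 ht)
  rw [← e1] at b1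
  rw [← e2] at b2
  have hneg : |((-M : ℤ) : ℝ)| = |(M : ℝ)| := by push_cast; exact abs_neg _
  rw [hneg] at b2
  have hle' : (({t : ℤ | |(t : ℝ)| < L ∧ ∃ y : ℤ, y ≠ 0 ∧
      (M * t + c = y ^ 2 ∨ M * t + c = -y ^ 2)}.ncard : ℕ) : ℝ) ≤
      (({t : ℤ | |(t : ℝ)| < L ∧ ∃ y : ℤ, y ≠ 0 ∧ M * t + c = y ^ 2}.ncard : ℕ) : ℝ) +
      (({t : ℤ | |(t : ℝ)| < L ∧ ∃ y : ℤ, y ≠ 0 ∧ (-M) * t + (-c) = y ^ 2}.ncard : ℕ) : ℝ) := by
    exact_mod_cast hle
  calc _ ≤ _ := hle'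
    _ ≤ _ := add_le_add b1 b2
    _ = 2 * (1 + 2 * Real.sqrt C * 2 ^ ε) * L ^ (1 / 2 : ℝ) * (|(M : ℝ)| * L) ^ ε := by ring

end Pool.Agent.Helper31.FM2
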