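import Pool.Agent.Helper31.FM2.DetZero
import Pool.Agent.Helper31.FM2.SqAp

set_option autoImplicit false

/-!
FM2-5b GCount. The symmetric matrices of a box whose determinant is `±` a nonzero square.

PROOF. Split by the leading minor `M` (rows and columns `< last`). `M ≠ 0`: for given other entries the possible last entries `t` satisfy `|t| < L = 2^(2 κ_last)`
(`κ_last ≥ 1` by `h1`, `i = 0` or `last`) and `M t + c = ± y^2` (`det_last`): `sq_ap` with `ε/2`: at most `K 2^(κ_last) (|M| L)^(ε/2)`, and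
`|M| ≤ (2g)! 2^(2 ∑_(i<last) κ i)` (every product in the Leibniz formula), so `(|M| L)^(ε/2) ≤ K' 2^(ε ∑ κ)`. `box_last`: total `≤ K'' 2^(Xk - 2κ_last + κ_last + ε ∑ κ)`.
`M = 0`: the leading block is in the set of `det_zero` for `κ ∘ castSucc`, the remaining entries in their intervals: `≤ K 2^(Xk - 2 max (κ 0) 0)`.
-/

open Matrix Pool.Agent.Helper32.DZ

namespace Pool.Agent.Helper31.FM2

private lemma gc_ioo (e : ℤ) :
    (((Finset.Ioo (-⌈(2 : ℝ) ^ e⌉) ⌈(2 : ℝ) ^ e⌉).card : ℕ) : ℝ) ≤ 3 * (2 : ℝ) ^ (max e 0) := by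
  have h1 := Int.ceil_lt_add_one ((2 : ℝ) ^ e)
  have h0 : (0 : ℝ) < (2 : ℝ) ^ e := by positivity
  have hc : (1 : ℤ) ≤ ⌈(2 : ℝ) ^ e⌉ := Int.one_le_ceil_iff.2 h0
  rw [Int.card_Ioo]
  have h2 : (((⌈(2 : ℝ) ^ e⌉ - -⌈(2 : ℝ) ^ e⌉ - 1).toNat : ℕ) : ℤ) =
      2 * ⌈(2 : ℝ) ^ e⌉ - 1 := by omega
  have h3 : (((⌈(2 : ℝ) ^ e⌉ - -⌈(2 : ℝ) ^ e⌉ - 1).toNat : ℕ) : ℝ) =
      2 * (⌈(2 : ℝ) ^ e⌉ : ℝ) - 1 := by exact_mod_cast h2
  rw [h3]
  have h4 : (2 : ℝ) ^ e ≤ (2 : ℝ) ^ (max e 0) :=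
    zpow_le_zpow_right₀ (by norm_num) (le_max_left _ _)
  have h5 : (1 : ℝ) ≤ (2 : ℝ) ^ (max e 0) := one_le_zpow₀ (by norm_num) (le_max_right _ _)
  linarith

private lemma gc_zpow {ι : Type*} (s : Finset ι) (e : ι → ℤ) :
    ∏ i ∈ s, (2 : ℝ) ^ (e i) = (2 : ℝ) ^ (∑ i ∈ s, e i) := by
  classical
  induction s using Finset.induction_on with
  | empty => simp
  | insert a s ha ih =>
    rw [Finset.prod_insert ha, Finset.sum_insert ha, ih, zpow_add₀ (two_ne_zero)]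

private lemma gc_det {m : ℕ} (κ : Fin m → ℤ) (M : Matrix (Fin m) (Fin m) ℤ)
    (h : ∀ i j, |((M i j : ℤ) : ℝ)| < (2 : ℝ) ^ (κ i + κ j)) :
    |((M.det : ℤ) : ℝ)| ≤ (m.factorial : ℝ) * (2 : ℝ) ^ (2 * ∑ i, κ i) := by
  rw [Matrix.det_apply']
  push_cast
  refine (Finset.abs_sum_le_sum_abs _ _).trans ?_
  have key : ∀ σ ∈ (Finset.univ : Finset (Equiv.Perm (Fin m))),
      |(((Equiv.Perm.sign σ : ℤˣ) : ℤ) : ℝ) * ∏ i, ((M (σ i) i : ℤ) : ℝ)| ≤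
        (2 : ℝ) ^ (2 * ∑ i, κ i) := by
    intro σ _
    have hs : |(((Equiv.Perm.sign σ : ℤˣ) : ℤ) : ℝ)| = 1 := by
      rcases Int.units_eq_one_or (Equiv.Perm.sign σ) with h1 | h1 <;> rw [h1] <;> simp
    rw [abs_mul, hs, one_mul, Finset.abs_prod]
    have h2 : ∏ i, |((M (σ i) i : ℤ) : ℝ)| ≤ ∏ i, (2 : ℝ) ^ (κ (σ i) + κ i) :=
      Finset.prod_le_prod (fun i _ => abs_nonneg _) fun i _ => (h _ _).le
    refine h2.trans (le_of_eq ?_)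
    rw [gc_zpow, Finset.sum_add_distrib, Equiv.sum_comp σ κ]
    congr 1
    ring
  refine (Finset.sum_le_sum key).trans (le_of_eq ?_)
  rw [Finset.sum_const, Finset.card_univ, Fintype.card_perm, Fintype.card_fin, nsmul_eq_mul]

private lemma gc_xk {m : ℕ} (κ : Fin (m + 1) → ℤ) :
    Xk κ = Xk (fun i : Fin m => κ i.castSucc) + ∑ i, max (κ i + κ (Fin.last m)) 0 := by
  unfold Xk SLe
  rw [Fin.sum_univ_castSucc, Fin.sum_univ_castSucc (fun i => max (κ i + κ (Fin.last m)) 0)]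
  have h1 : ∀ i : Fin m, (∑ j : Fin (m + 1), if i.castSucc ≤ j then
      max (κ i.castSucc + κ j) 0 else 0) =
      (∑ j : Fin m, if i ≤ j then max (κ i.castSucc + κ j.castSucc) 0 else 0) +
        max (κ i.castSucc + κ (Fin.last m)) 0 := by
    intro i
    rw [Fin.sum_univ_castSucc, if_pos (Fin.le_last _)]
    congr 1
  have h2 : (∑ j : Fin (m + 1), if Fin.last m ≤ j then
      max (κ (Fin.last m) + κ j) 0 else 0) = max (κ (Fin.last m) + κ (Fin.last m)) 0 := by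
    rw [Fin.sum_univ_castSucc, if_pos le_rfl, Finset.sum_eq_zero, zero_add]
    intro j _
    rw [if_neg]
    exact not_le.2 (Fin.castSucc_lt_last j)
  rw [Finset.sum_congr rfl fun i _ => h1 i, h2, Finset.sum_add_distrib]
  ring

/-- the matrices with singular leading block -/
private lemma gc_zero (m : ℕ) : ∃ K : ℝ, 1 ≤ K ∧ ∀ κ : Fin (m + 1 + 1) → ℤ, Monotone κ →
    (({G : Matrix (Fin (m + 1 + 1)) (Fin (m + 1 + 1)) ℤ |
      G ∈ Box (fun i j => (2 : ℝ) ^ (κ i + κ j)) ∧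
      (G.submatrix Fin.castSucc Fin.castSucc).det = 0}.ncard : ℕ) : ℝ) ≤
      K * (2 : ℝ) ^ (Xk κ - 2 * max (κ 0) 0) := by
  classical
  obtain ⟨K, hK, hz⟩ := det_zero m
  refine ⟨3 ^ (m + 1 + 1) * K, ?_, fun κ hκ => ?_⟩
  · have : (1 : ℝ) ≤ 3 ^ (m + 1 + 1) := one_le_pow₀ (by norm_num)
    nlinarith
  set κ' : Fin (m + 1) → ℤ := fun i => κ i.castSucc with hκ'
  set Z : Set (Matrix (Fin (m + 1)) (Fin (m + 1)) ℤ) :=
    {G | G ∈ Box (fun i j => (2 : ℝ) ^ (κ' i + κ' j)) ∧ G.det = 0} with hZ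
  set T : Finset (Fin (m + 1 + 1) → ℤ) := Fintype.piFinset fun i =>
    Finset.Ioo (-⌈(2 : ℝ) ^ (κ i + κ (Fin.last (m + 1)))⌉)
      ⌈(2 : ℝ) ^ (κ i + κ (Fin.last (m + 1)))⌉ with hT
  have hZf : Z.Finite := (box_card (fun i j => (2 : ℝ) ^ (κ' i + κ' j))).1.subset fun G hG => hG.1
  have hmaps : ∀ G ∈ {G : Matrix (Fin (m + 1 + 1)) (Fin (m + 1 + 1)) ℤ |
      G ∈ Box (fun i j => (2 : ℝ) ^ (κ i + κ j)) ∧
      (G.submatrix Fin.castSucc Fin.castSucc).det = 0},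
      ((G.submatrix Fin.castSucc Fin.castSucc, fun i => G i (Fin.last (m + 1))) :
        Matrix (Fin (m + 1)) (Fin (m + 1)) ℤ × (Fin (m + 1 + 1) → ℤ)) ∈
        Z ×ˢ (T : Set (Fin (m + 1 + 1) → ℤ)) := by
    rintro G ⟨⟨hs, hb⟩, hd⟩
    refine ⟨⟨⟨?_, fun i j => hb _ _⟩, hd⟩, ?_⟩
    · ext i j
      exact hs.apply _ _
    · rw [Finset.mem_coe, hT, Fintype.mem_piFinset]
      intro i
      rw [Finset.mem_Ioo]
      have h1 := abs_lt.1 (hb i (Fin.last (m + 1)))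
      have h2 := Int.le_ceil ((2 : ℝ) ^ (κ i + κ (Fin.last (m + 1))))
      constructor
      · have h3 : (-(⌈(2 : ℝ) ^ (κ i + κ (Fin.last (m + 1)))⌉ : ℤ) : ℝ) <
            ((G i (Fin.last (m + 1)) : ℤ) : ℝ) := by linarith [h1.1]
        exact_mod_cast h3
      · have h3 : ((G i (Fin.last (m + 1)) : ℤ) : ℝ) <
            ((⌈(2 : ℝ) ^ (κ i + κ (Fin.last (m + 1)))⌉ : ℤ) : ℝ) := by linarith [h1.2]
        exact_mod_cast h3
  have hinj : Set.InjOn (fun G : Matrix (Fin (m + 1 + 1)) (Fin (m + 1 + 1)) ℤ =>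
      ((G.submatrix Fin.castSucc Fin.castSucc, fun i => G i (Fin.last (m + 1))) :
        Matrix (Fin (m + 1)) (Fin (m + 1)) ℤ × (Fin (m + 1 + 1) → ℤ)))
      {G : Matrix (Fin (m + 1 + 1)) (Fin (m + 1 + 1)) ℤ |
      G ∈ Box (fun i j => (2 : ℝ) ^ (κ i + κ j)) ∧
      (G.submatrix Fin.castSucc Fin.castSucc).det = 0} := by
    rintro G ⟨⟨hs, -⟩, -⟩ G' ⟨⟨hs', -⟩, -⟩ h
    simp only [Prod.mk.injEq] at h
    obtain ⟨h1, h2⟩ := h
    ext i j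
    induction j using Fin.lastCases with
    | last => exact congrFun h2 i
    | cast j =>
      induction i using Fin.lastCases with
      | last =>
        rw [← hs.apply, ← hs'.apply]
        exact congrFun h2 _
      | cast i => exact congrFun (congrFun h1 i) j
  have hc := Set.ncard_le_ncard_of_injOn _ hmaps hinj (hZf.prod T.finite_toSet)
  rw [Set.ncard_prod, Set.ncard_coe_finset] at hc
  have hTc : (T.card : ℝ) ≤ 3 ^ (m + 1 + 1) *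
      (2 : ℝ) ^ (∑ i, max (κ i + κ (Fin.last (m + 1))) 0) := by
    rw [hT, Fintype.card_piFinset]
    push_cast
    refine (Finset.prod_le_prod (fun i _ => Nat.cast_nonneg _)
      fun i _ => gc_ioo (κ i + κ (Fin.last (m + 1)))).trans (le_of_eq ?_)
    rw [Finset.prod_mul_distrib, Finset.prod_const, Finset.card_univ, Fintype.card_fin, gc_zpow]
  have hZc : ((Z.ncard : ℕ) : ℝ) ≤ K * (2 : ℝ) ^ (Xk κ' - 2 * max (κ 0) 0) := by
    have := hz κ' (fun i j hij => hκ (Fin.castSucc_le_castSucc_iff.2 hij))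
    exact this
  have hx := gc_xk κ
  calc _ ≤ ((Z.ncard * T.card : ℕ) : ℝ) := by exact_mod_cast hc
    _ = (Z.ncard : ℝ) * (T.card : ℝ) := by push_cast; ring
    _ ≤ (K * (2 : ℝ) ^ (Xk κ' - 2 * max (κ 0) 0)) * (3 ^ (m + 1 + 1) *
      (2 : ℝ) ^ (∑ i, max (κ i + κ (Fin.last (m + 1))) 0)) :=
        mul_le_mul hZc hTc (Nat.cast_nonneg _) (by positivity)
    _ = 3 ^ (m + 1 + 1) * K * ((2 : ℝ) ^ (Xk κ' - 2 * max (κ 0) 0) *
      (2 : ℝ) ^ (∑ i, max (κ i + κ (Fin.last (m + 1))) 0)) := by ring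
    _ = 3 ^ (m + 1 + 1) * K * (2 : ℝ) ^ (Xk κ - 2 * max (κ 0) 0) := by
      rw [← zpow_add₀ (two_ne_zero), hx]
      congr 2
      ring

/-- the matrices with regular leading block -/
private lemma gc_reg (m : ℕ) (ε : ℝ) (hε : 0 < ε) : ∃ K : ℝ, 1 ≤ K ∧
    ∀ κ : Fin (m + 1) → ℤ, 1 ≤ κ (Fin.last m) →
    (({G : Matrix (Fin (m + 1)) (Fin (m + 1)) ℤ | (G ∈ Box (fun i j => (2 : ℝ) ^ (κ i + κ j)) ∧
      SqDet G) ∧ (G.submatrix Fin.castSucc Fin.castSucc).det ≠ 0}.ncard : ℕ) : ℝ) ≤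
      K * (2 : ℝ) ^ (Xk κ) *
        (2 : ℝ) ^ (-((κ (Fin.last m) : ℤ) : ℝ) + ε * ((∑ i, κ i : ℤ) : ℝ)) := by
  classical
  obtain ⟨Kb, hKb, hb⟩ := box_last m
  obtain ⟨Ks, hKs, hsq⟩ := sq_ap (ε / 2) (by positivity)
  set F : ℝ := ((m.factorial : ℕ) : ℝ) with hF
  have hF1 : 1 ≤ F := by
    rw [hF]
    exact_mod_cast Nat.one_le_iff_ne_zero.2 (Nat.factorial_ne_zero m)
  have hFe : 1 ≤ F ^ (ε / 2) := Real.one_le_rpow hF1 (by positivity)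
  refine ⟨Kb * (Ks * F ^ (ε / 2)), ?_, fun κ hl => ?_⟩
  · have h1 : 1 ≤ Ks * F ^ (ε / 2) := by nlinarith
    nlinarith
  set l := κ (Fin.last m) with hldef
  set sk : ℤ := ∑ i, κ i with hS
  have hsum : sk = (∑ i : Fin m, κ i.castSucc) + l := by
    rw [hS, Fin.sum_univ_castSucc]
  set L : ℝ := (2 : ℝ) ^ (l + l) with hL
  have hL1 : 1 ≤ L := one_le_zpow₀ (by norm_num) (by omega)
  set N : ℝ := Ks * L ^ (1 / 2 : ℝ) * (F ^ (ε / 2) * (2 : ℝ) ^ (ε * (sk : ℝ))) with hN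
  have hN0 : 0 ≤ N := by positivity
  set A : Set (Matrix (Fin (m + 1)) (Fin (m + 1)) ℤ) :=
    {G | (G ∈ Box (fun i j => (2 : ℝ) ^ (κ i + κ j)) ∧
      SqDet G) ∧ (G.submatrix Fin.castSucc Fin.castSucc).det ≠ 0} with hA
  have hfib : ∀ G ∈ A, (({G' ∈ A | ∀ i j, ¬ (i = Fin.last m ∧ j = Fin.last m) →
      G' i j = G i j}.ncard : ℕ) : ℝ) ≤ N := by
    rintro G ⟨⟨⟨hs, hbx⟩, hsd⟩, hM⟩
    set M : ℤ := (G.submatrix Fin.castSucc Fin.castSucc).det with hMdef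
    set c : ℤ := G.det - G (Fin.last m) (Fin.last m) * M with hc
    have h1 := hsq L M c hL1 hM
    have hfin : {t : ℤ | |(t : ℝ)| < L ∧ ∃ y : ℤ, y ≠ 0 ∧
        (M * t + c = y ^ 2 ∨ M * t + c = -y ^ 2)}.Finite := by
      refine Set.Finite.subset (Set.finite_Icc (-⌈L⌉) ⌈L⌉) fun t ht => ?_
      have h1 : |(t : ℝ)| < L := ht.1
      have h2 : |(t : ℝ)| ≤ (⌈L⌉ : ℝ) := le_trans h1.le (Int.le_ceil L)
      have h3 : |t| ≤ ⌈L⌉ := by exact_mod_cast h2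
      exact ⟨(abs_le.1 h3).1, (abs_le.1 h3).2⟩
    have h2 : {G' ∈ A | ∀ i j, ¬ (i = Fin.last m ∧ j = Fin.last m) →
        G' i j = G i j}.ncard ≤ {t : ℤ | |(t : ℝ)| < L ∧ ∃ y : ℤ, y ≠ 0 ∧
        (M * t + c = y ^ 2 ∨ M * t + c = -y ^ 2)}.ncard := by
      refine Set.ncard_le_ncard_of_injOn
        (fun G' : Matrix (Fin (m + 1)) (Fin (m + 1)) ℤ => G' (Fin.last m) (Fin.last m))
        ?_ ?_ hfin
      · rintro G' ⟨⟨⟨⟨-, hbx'⟩, ⟨y, hy, hdet⟩⟩, -⟩, hag⟩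
        refine ⟨hbx' _ _, y, hy, ?_⟩
        have h3 := det_last G G' hag
        have h4 : M * G' (Fin.last m) (Fin.last m) + c = G'.det := by
          rw [h3, hc, ← hMdef]
          ring
        rw [h4]
        exact hdet
      · rintro G1 ⟨-, hag1⟩ G2 ⟨-, hag2⟩ heq
        simp only at heq
        ext i j
        by_cases hij : i = Fin.last m ∧ j = Fin.last m
        · rw [hij.1, hij.2]
          exact heq
        · rw [hag1 i j hij, hag2 i j hij]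
    have h3 : |(M : ℝ)| * L ≤ F * (2 : ℝ) ^ (2 * sk) := by
      have h4 := gc_det (fun i : Fin m => κ i.castSucc) (G.submatrix Fin.castSucc Fin.castSucc)
        (fun i j => hbx _ _)
      rw [← hMdef] at h4
      calc |(M : ℝ)| * L ≤ (F * (2 : ℝ) ^ (2 * ∑ i : Fin m, κ i.castSucc)) * L :=
            mul_le_mul_of_nonneg_right h4 (by linarith)
        _ = F * ((2 : ℝ) ^ (2 * ∑ i : Fin m, κ i.castSucc) * (2 : ℝ) ^ (l + l)) := by
            rw [hL]; ring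
        _ = F * (2 : ℝ) ^ (2 * sk) := by
            rw [← zpow_add₀ (two_ne_zero), hsum]
            congr 2
            ring
    have h5 : (|(M : ℝ)| * L) ^ (ε / 2) ≤ F ^ (ε / 2) * (2 : ℝ) ^ (ε * (sk : ℝ)) := by
      have hnn : 0 ≤ |(M : ℝ)| * L := mul_nonneg (abs_nonneg _) (by linarith)
      refine (Real.rpow_le_rpow hnn h3 (by positivity)).trans (le_of_eq ?_)
      rw [Real.mul_rpow (by linarith) (by positivity)]
      congr 1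
      rw [← Real.rpow_intCast, ← Real.rpow_mul (by norm_num)]
      congr 1
      push_cast
      ring
    calc _ ≤ (({t : ℤ | |(t : ℝ)| < L ∧ ∃ y : ℤ, y ≠ 0 ∧
        (M * t + c = y ^ 2 ∨ M * t + c = -y ^ 2)}.ncard : ℕ) : ℝ) := by exact_mod_cast h2
      _ ≤ Ks * L ^ (1 / 2 : ℝ) * (|(M : ℝ)| * L) ^ (ε / 2) := h1
      _ ≤ N := by
        rw [hN]
        exact mul_le_mul_of_nonneg_left h5 (by positivity)
  have hmain := hb κ A N hN0 (fun G hG => hG.1.1) hfib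
  refine hmain.trans (le_of_eq ?_)
  have hmax : max (2 * κ (Fin.last m)) 0 = l + l := by
    rw [← hldef]
    omega
  rw [hmax, hN, zpow_sub₀ (two_ne_zero)]
  have hLr : L ^ (1 / 2 : ℝ) = (2 : ℝ) ^ (l : ℝ) := by
    rw [hL, ← Real.rpow_intCast, ← Real.rpow_mul (by norm_num)]
    congr 1
    push_cast
    ring
  have hLi : (2 : ℝ) ^ (l + l) = (2 : ℝ) ^ (l : ℝ) * (2 : ℝ) ^ (l : ℝ) := by
    rw [← Real.rpow_add (by norm_num), ← Real.rpow_intCast]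
    push_cast
    rfl
  have h2l : (0 : ℝ) < (2 : ℝ) ^ (l : ℝ) := by positivity
  rw [hLr, hLi, Real.rpow_add (by norm_num) (-(l : ℝ)), Real.rpow_neg (by norm_num)]
  field_simp

theorem gs_count (g : ℕ) (hg : 1 ≤ g) (ε : ℝ) (hε : 0 < ε) : ∃ K : ℝ, 1 ≤ K ∧
    ∀ κ : Fin (2 * g + 1) → ℤ, Monotone κ → (∀ i : Fin (2 * g + 1), 1 ≤ κ i + κ i.rev) →
    (({G : Matrix (Fin (2 * g + 1)) (Fin (2 * g + 1)) ℤ | G ∈ Box (fun i j => (2 : ℝ) ^ (κ i + κ j)) ∧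
      SqDet G}.ncard : ℕ) : ℝ) ≤ K * (2 : ℝ) ^ (Xk κ) *
        ((2 : ℝ) ^ (-((κ (Fin.last (2 * g)) : ℤ) : ℝ) + ε * ((∑ i, κ i : ℤ) : ℝ)) +
          (2 : ℝ) ^ (-(2 * max (κ 0) 0))) := by
  obtain ⟨g', rfl⟩ : ∃ g', g = g' + 1 := ⟨g - 1, by omega⟩
  obtain ⟨K1, hK1, h1⟩ := gc_reg (2 * (g' + 1)) ε hε
  obtain ⟨K2, hK2, h2⟩ := gc_zero (2 * g' + 1)
  refine ⟨K1 + K2, by linarith, fun κ hκ hr => ?_⟩
  have hl : 1 ≤ κ (Fin.last (2 * (g' + 1))) := by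
    have h3 := hr 0
    have h4 : κ 0 ≤ κ (Fin.last (2 * (g' + 1))) := hκ (Fin.zero_le _)
    rw [Fin.rev_zero] at h3
    omega
  have e1 := h1 κ hl
  have e2 := h2 κ hκ
  set x : ℝ := (2 : ℝ) ^ (-((κ (Fin.last (2 * (g' + 1))) : ℤ) : ℝ) + ε * ((∑ i, κ i : ℤ) : ℝ))
    with hx
  set X : ℝ := (2 : ℝ) ^ (Xk κ) with hX
  set z : ℝ := (2 : ℝ) ^ (-(2 * max (κ 0) 0)) with hz
  have hx0 : 0 ≤ x := by positivity
  have hX0 : 0 ≤ X := by positivity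
  have hz0 : 0 ≤ z := by positivity
  have e3 : (2 : ℝ) ^ (Xk κ - 2 * max (κ 0) 0) = X * z := by
    rw [hX, hz, ← zpow_add₀ (two_ne_zero), sub_eq_add_neg]
  rw [e3] at e2
  have hfin := (box_card (fun i j : Fin (2 * (g' + 1) + 1) => (2 : ℝ) ^ (κ i + κ j))).1
  set S1 : Set (Matrix (Fin (2 * (g' + 1) + 1)) (Fin (2 * (g' + 1) + 1)) ℤ) :=
    {G | (G ∈ Box (fun i j => (2 : ℝ) ^ (κ i + κ j)) ∧
      SqDet G) ∧ (G.submatrix Fin.castSucc Fin.castSucc).det ≠ 0} with hS1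
  set S2 : Set (Matrix (Fin (2 * (g' + 1) + 1)) (Fin (2 * (g' + 1) + 1)) ℤ) :=
    {G | G ∈ Box (fun i j => (2 : ℝ) ^ (κ i + κ j)) ∧
      (G.submatrix Fin.castSucc Fin.castSucc).det = 0} with hS2
  have hsub : {G : Matrix (Fin (2 * (g' + 1) + 1)) (Fin (2 * (g' + 1) + 1)) ℤ |
      G ∈ Box (fun i j => (2 : ℝ) ^ (κ i + κ j)) ∧ SqDet G} ⊆ S1 ∪ S2 := by
    intro G hG
    by_cases h : (G.submatrix Fin.castSucc Fin.castSucc).det = 0
    · exact Or.inr ⟨hG.1, h⟩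
    · exact Or.inl ⟨hG, h⟩
  have hf1 : S1.Finite := hfin.subset fun G hG => hG.1.1
  have hf2 : S2.Finite := hfin.subset fun G hG => hG.1
  have hle := le_trans (Set.ncard_le_ncard hsub (hf1.union hf2)) (Set.ncard_union_le _ _)
  have hle' : (({G : Matrix (Fin (2 * (g' + 1) + 1)) (Fin (2 * (g' + 1) + 1)) ℤ |
      G ∈ Box (fun i j => (2 : ℝ) ^ (κ i + κ j)) ∧ SqDet G}.ncard : ℕ) : ℝ) ≤
      (S1.ncard : ℝ) + (S2.ncard : ℝ) := by exact_mod_cast hle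
  have e4 : (S2.ncard : ℝ) ≤ K2 * (X * z) := e2
  have e5 : (S1.ncard : ℝ) ≤ K1 * X * x := e1
  have q1 : 0 ≤ X * x := mul_nonneg hX0 hx0
  have q2 : 0 ≤ X * z := mul_nonneg hX0 hz0
  nlinarith [mul_nonneg (by linarith : (0 : ℝ) ≤ K2) q1, mul_nonneg (by linarith : (0 : ℝ) ≤ K1) q2]

end Pool.Agent.Helper31.FM2
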