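import Mathlib

set_option autoImplicit false

/-!
FM2-10 SumKappa. Sum over the cells.

PROOF. Map `κ ↦ (κ 0, v)`, `v i = κ i - κ 0 ≥ 0`, `v` monotone with last entry `e`. For fixed `v` the sum over `κ 0` of `2^(β((n+1) κ 0 + ∑ v))` with
`(n+1) κ 0 + ∑ v ≤ s` is at most `2^(β s) ∑_(j≥0) 2^(-β j) = 2^(β s)/(1 - 2^(-β))` (different values of `κ 0` give different integers `∑ κ ≤ s`). The number of
`v` with last entry `e` is `≤ (e+1)^n`, and `∑_e (e+1)^n 2^(-e/8) < ∞` (`summable_pow_mul_geometric_of_norm_lt_one` or similar).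
-/

namespace Pool.Agent.Helper31.FM2

open Finset

private theorem sum_int_le {β : ℝ} (hβ : 0 < β) (s : ℝ) (S : Finset ℤ)
    (hS : ∀ m ∈ S, ((m : ℤ) : ℝ) ≤ s) : ∑ m ∈ S, (2 : ℝ) ^ (β * (m : ℝ)) ≤
      (2 : ℝ) ^ (β * s) * (1 - (2 : ℝ) ^ (-β))⁻¹ := by
  classical
  obtain ⟨x, hx⟩ : ∃ x : ℝ, x = (2 : ℝ) ^ (-β) := ⟨_, rfl⟩
  have hx0 : 0 ≤ x := by
    rw [hx]
    positivity
  have hx1 : x < 1 := by
    rw [hx]
    exact Real.rpow_lt_one_of_one_lt_of_neg (by norm_num) (by linarith)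
  rw [← hx]
  have hfl : ∀ m ∈ S, m ≤ ⌊s⌋ := fun m hm => Int.le_floor.mpr (hS m hm)
  have h1 : ∀ m ∈ S, (2 : ℝ) ^ (β * (m : ℝ)) ≤ (2 : ℝ) ^ (β * s) * x ^ ((⌊s⌋ - m).toNat) := by
    intro m hm
    have h2 : (((⌊s⌋ - m).toNat : ℕ) : ℝ) = (⌊s⌋ : ℝ) - m := by
      have h3 : (((⌊s⌋ - m).toNat : ℕ) : ℤ) = ⌊s⌋ - m := by
        have := hfl m hm
        omega
      have h4 : ((((⌊s⌋ - m).toNat : ℕ) : ℤ) : ℝ) = ((⌊s⌋ - m : ℤ) : ℝ) := by rw [h3]
      push_cast at h4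
      exact h4
    rw [hx, ← Real.rpow_natCast, ← Real.rpow_mul (by norm_num), ← Real.rpow_add (by norm_num), h2]
    refine Real.rpow_le_rpow_of_exponent_le (by norm_num) ?_
    have h5 := Int.floor_le s
    nlinarith
  calc ∑ m ∈ S, (2 : ℝ) ^ (β * (m : ℝ)) ≤
        ∑ m ∈ S, (2 : ℝ) ^ (β * s) * x ^ ((⌊s⌋ - m).toNat) := sum_le_sum h1
    _ = (2 : ℝ) ^ (β * s) * ∑ m ∈ S, x ^ ((⌊s⌋ - m).toNat) := by rw [mul_sum]
    _ = (2 : ℝ) ^ (β * s) * ∑ j ∈ S.image (fun m => (⌊s⌋ - m).toNat), x ^ j := by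
        rw [sum_image]
        intro m hm m' hm' h
        have h2 := hfl m hm
        have h3 := hfl m' hm'
        simp only at h
        omega
    _ ≤ (2 : ℝ) ^ (β * s) * (1 - x)⁻¹ := by
        refine mul_le_mul_of_nonneg_left ?_ (by positivity)
        rw [← tsum_geometric_of_lt_one hx0 hx1]
        exact (summable_geometric_of_lt_one hx0 hx1).sum_le_tsum _
          (fun j _ => pow_nonneg hx0 j)

private theorem sum_vec_le (n : ℕ) : ∃ K : ℝ, 1 ≤ K ∧ ∀ V : Finset (Fin (n + 1) → ℕ),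
    (∀ v ∈ V, ∀ i, v i ≤ v (Fin.last n)) →
    ∑ v ∈ V, ((2 : ℝ) ^ (-(1 / 8 : ℝ))) ^ (v (Fin.last n)) ≤ K := by
  classical
  obtain ⟨y, hy⟩ : ∃ y : ℝ, y = (2 : ℝ) ^ (-(1 / 8 : ℝ)) := ⟨_, rfl⟩
  have hy0 : 0 < y := by
    rw [hy]
    positivity
  have hy1 : y < 1 := by
    rw [hy]
    exact Real.rpow_lt_one_of_one_lt_of_neg (by norm_num) (by norm_num)
  rw [← hy]
  have hsum : Summable (fun e : ℕ => ((e : ℝ) + 1) ^ (n + 1) * y ^ e) := by
    have h1 : Summable (fun e : ℕ => ((e : ℝ)) ^ (n + 1) * y ^ e) :=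
      summable_pow_mul_geometric_of_norm_lt_one (n + 1) (by
        rw [Real.norm_eq_abs, abs_of_pos hy0]
        exact hy1)
    have h2 := (summable_nat_add_iff 1).mpr h1
    have h3 := h2.mul_left y⁻¹
    refine h3.congr fun e => ?_
    push_cast
    rw [pow_succ y e]
    field_simp
  refine ⟨max 1 (∑' e : ℕ, ((e : ℝ) + 1) ^ (n + 1) * y ^ e), le_max_left _ _, fun V hV => ?_⟩
  refine le_trans ?_ (le_max_right _ _)
  have h1 : ∑ v ∈ V, y ^ (v (Fin.last n)) = ∑ e ∈ V.image (fun v => v (Fin.last n)),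
      ∑ v ∈ V.filter (fun v => v (Fin.last n) = e), y ^ (v (Fin.last n)) :=
    (sum_fiberwise_of_maps_to (fun v hv => mem_image_of_mem _ hv) _).symm
  rw [h1]
  have h2 : ∀ e ∈ V.image (fun v => v (Fin.last n)),
      ∑ v ∈ V.filter (fun v => v (Fin.last n) = e), y ^ (v (Fin.last n)) ≤
        ((e : ℝ) + 1) ^ (n + 1) * y ^ e := by
    intro e _
    have h3 : ∑ v ∈ V.filter (fun v => v (Fin.last n) = e), y ^ (v (Fin.last n)) =
        ((V.filter (fun v => v (Fin.last n) = e)).card : ℝ) * y ^ e := by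
      rw [← nsmul_eq_mul, ← sum_const]
      refine sum_congr rfl fun v hv => ?_
      rw [(mem_filter.mp hv).2]
    rw [h3]
    refine mul_le_mul_of_nonneg_right ?_ (pow_nonneg hy0.le _)
    have h4 : (V.filter (fun v => v (Fin.last n) = e)).card ≤ (e + 1) ^ (n + 1) := by
      calc (V.filter (fun v => v (Fin.last n) = e)).card ≤
          (Fintype.piFinset (fun _ : Fin (n + 1) => range (e + 1))).card := by
            refine card_le_card fun v hv => ?_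
            rw [mem_filter] at hv
            rw [Fintype.mem_piFinset]
            intro i
            rw [mem_range]
            have := hV v hv.1 i
            omega
        _ = (e + 1) ^ (n + 1) := by
            rw [Fintype.card_piFinset]
            simp
    exact_mod_cast h4
  exact (sum_le_sum h2).trans (hsum.sum_le_tsum _ (fun e _ => by positivity))

theorem sum_kappa (n : ℕ) (β : ℝ) (hβ : 0 < β) : ∃ K : ℝ, 1 ≤ K ∧
    ∀ (I : Finset (Fin (n + 1) → ℤ)) (s : ℝ),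
    (∀ κ ∈ I, Monotone κ ∧ ((∑ i, κ i : ℤ) : ℝ) ≤ s) →
    ∑ κ ∈ I, (2 : ℝ) ^ (β * ((∑ i, κ i : ℤ) : ℝ)) *
      (2 : ℝ) ^ (-(((κ (Fin.last n) - κ 0 : ℤ) : ℝ) / 8)) ≤ K * (2 : ℝ) ^ (β * s) := by
  classical
  obtain ⟨K2, hK2, hV⟩ := sum_vec_le n
  obtain ⟨B, hB⟩ : ∃ B : ℝ, B = (1 - (2 : ℝ) ^ (-β))⁻¹ := ⟨_, rfl⟩
  have hx1 : (2 : ℝ) ^ (-β) < 1 :=
    Real.rpow_lt_one_of_one_lt_of_neg (by norm_num) (by linarith)
  have hx0 : 0 < (2 : ℝ) ^ (-β) := by positivity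
  have hB1 : 1 ≤ B := by
    rw [hB]
    exact (one_le_inv₀ (by linarith)).mpr (by linarith)
  refine ⟨K2 * B, by nlinarith, fun I s hI => ?_⟩
  obtain ⟨v, hv⟩ : ∃ v : (Fin (n + 1) → ℤ) → (Fin (n + 1) → ℕ),
      ∀ κ i, v κ i = (κ i - κ 0).toNat := ⟨fun κ i => (κ i - κ 0).toNat, fun _ _ => rfl⟩
  have hvi : ∀ κ ∈ I, ∀ i, ((v κ i : ℕ) : ℤ) = κ i - κ 0 := by
    intro κ hκ i
    have h1 := (hI κ hκ).1 (Fin.zero_le i)
    rw [hv]
    omega
  obtain ⟨y, hy⟩ : ∃ y : ℝ, y = (2 : ℝ) ^ (-(1 / 8 : ℝ)) := ⟨_, rfl⟩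
  have hy0 : 0 < y := by
    rw [hy]
    positivity
  have hweight : ∀ κ ∈ I, (2 : ℝ) ^ (-(((κ (Fin.last n) - κ 0 : ℤ) : ℝ) / 8)) =
      y ^ (v κ (Fin.last n)) := by
    intro κ hκ
    rw [hy, ← Real.rpow_natCast, ← Real.rpow_mul (by norm_num)]
    congr 1
    have h1 := hvi κ hκ (Fin.last n)
    have h2 : ((v κ (Fin.last n) : ℕ) : ℝ) = ((κ (Fin.last n) - κ 0 : ℤ) : ℝ) := by
      rw [← h1]
      push_cast
      rfl
    rw [h2]
    ring
  have h1 : ∑ κ ∈ I, (2 : ℝ) ^ (β * ((∑ i, κ i : ℤ) : ℝ)) *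
      (2 : ℝ) ^ (-(((κ (Fin.last n) - κ 0 : ℤ) : ℝ) / 8)) =
      ∑ w ∈ I.image v, ∑ κ ∈ I.filter (fun κ => v κ = w),
        (2 : ℝ) ^ (β * ((∑ i, κ i : ℤ) : ℝ)) * y ^ (w (Fin.last n)) := by
    rw [← sum_fiberwise_of_maps_to (s := I) (t := I.image v) (g := v)
      (fun κ hκ => mem_image_of_mem _ hκ)]
    refine sum_congr rfl fun w _ => sum_congr rfl fun κ hκ => ?_
    rw [mem_filter] at hκ
    rw [hweight κ hκ.1, hκ.2]
  rw [h1]
  have h2 : ∀ w ∈ I.image v, ∑ κ ∈ I.filter (fun κ => v κ = w),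
      (2 : ℝ) ^ (β * ((∑ i, κ i : ℤ) : ℝ)) * y ^ (w (Fin.last n)) ≤
        ((2 : ℝ) ^ (β * s) * B) * y ^ (w (Fin.last n)) := by
    intro w _
    rw [← sum_mul]
    refine mul_le_mul_of_nonneg_right ?_ (pow_nonneg hy0.le _)
    have hinj : Set.InjOn (fun κ : Fin (n + 1) → ℤ => ∑ i, κ i)
        ((I.filter (fun κ => v κ = w) : Finset _) : Set (Fin (n + 1) → ℤ)) := by
      intro κ hκ κ' hκ' hs
      rw [mem_coe, mem_filter] at hκ hκ'
      have e1 : ∀ i, κ i = κ 0 + w i := by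
        intro i
        have := hvi κ hκ.1 i
        rw [hκ.2] at this
        omega
      have e2 : ∀ i, κ' i = κ' 0 + w i := by
        intro i
        have := hvi κ' hκ'.1 i
        rw [hκ'.2] at this
        omega
      have s1 : ∑ i, κ i = (n + 1) * κ 0 + ∑ i, (w i : ℤ) := by
        rw [sum_congr rfl fun i _ => e1 i, sum_add_distrib, sum_const, card_univ, Fintype.card_fin,
          nsmul_eq_mul]
        push_cast
        ring
      have s2 : ∑ i, κ' i = (n + 1) * κ' 0 + ∑ i, (w i : ℤ) := by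
        rw [sum_congr rfl fun i _ => e2 i, sum_add_distrib, sum_const, card_univ, Fintype.card_fin,
          nsmul_eq_mul]
        push_cast
        ring
      have s3 : ((n : ℤ) + 1) * κ 0 = ((n : ℤ) + 1) * κ' 0 := by
        simp only at hs
        rw [s1, s2] at hs
        linarith
      have s4 : κ 0 = κ' 0 := by
        have hn : ((n : ℤ) + 1) ≠ 0 := by positivity
        exact mul_left_cancel₀ hn s3
      funext i
      rw [e1 i, e2 i, s4]
    have h3 : ∑ κ ∈ I.filter (fun κ => v κ = w), (2 : ℝ) ^ (β * ((∑ i, κ i : ℤ) : ℝ)) =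
        ∑ m ∈ (I.filter (fun κ => v κ = w)).image (fun κ => ∑ i, κ i),
          (2 : ℝ) ^ (β * ((m : ℤ) : ℝ)) := by
      rw [sum_image hinj]
    rw [h3, hB]
    refine sum_int_le hβ s _ fun m hm => ?_
    obtain ⟨κ, hκ, rfl⟩ := mem_image.mp hm
    exact (hI κ (mem_filter.mp hκ).1).2
  refine (sum_le_sum h2).trans ?_
  rw [← mul_sum]
  have h3 := hV (I.image v) (fun w hw i => by
    obtain ⟨κ, hκ, rfl⟩ := mem_image.mp hw
    have a1 := hvi κ hκ i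
    have a2 := hvi κ hκ (Fin.last n)
    have a3 := (hI κ hκ).1 (Fin.le_last i)
    omega)
  rw [← hy] at h3
  have h4 : 0 ≤ (2 : ℝ) ^ (β * s) * B := by positivity
  calc (2 : ℝ) ^ (β * s) * B * ∑ w ∈ I.image v, y ^ (w (Fin.last n)) ≤
      (2 : ℝ) ^ (β * s) * B * K2 := mul_le_mul_of_nonneg_left h3 h4
    _ = K2 * B * (2 : ℝ) ^ (β * s) := by ring

end Pool.Agent.Helper31.FM2
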