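import Pool.Agent.Helper31.FM2.CellSub
import Pool.Agent.Helper31.FM2.CellBound
import Pool.Agent.Helper31.FM2.SumKappa
import Pool.Agent.Helper32.DZ.InjCount

set_option autoImplicit false

/-!
FM2-11 NonTriv. The number of inequivalent non distinguished pairs with small squarefree part `|r| < H / R`.

PROOF. For `i ∈ F`: `cell_sub` gives `h_i`, `κ_i`, `(P_i, R_i) = (h^t G h, h^t S h)`. For all `U ∈ Tr κ_i`: `(U^t P_i U, U^t R_i U) ∈ Cell g |r_i| κ_i` (symmetric; boxes from `cell_sub`;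
`negSq_conj`; `pg_conj` with `ut_det`; `det = det G`, `|det G| = s^2`, `s ≠ 0`; not `ZB` by hypothesis for `h_i U`). Put `F_(r,κ) = {i ∈ F : r_i = r, κ_i = κ}`. INJECTIVITY for
`inj_count`: `U^t P_i U = V^t P_j V`, `U^t R_i U = V^t R_j V`: `(G_j, S_j) = k^t (G_i, S_i) k` with `k = h_i U V^(-1) h_j^(-1)`, `det k = ± 1` (integral inverses by adjugates), so (same `r`)
`pen (r G_j) S_j = pen (r G_i) S_i` (`pen_conj`), `pol (tup j) = pol (tup i)`, `tup j = tup i` (`pol_inj`), `i = j` by hypothesis. So by `inj_count` and `cell_bound`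
`#F_(r,κ) ≤ K |r|^(2g+1) 2^((4g+4-δ) ∑κ) 2^(-e/8)`. Sum over `κ` with `sum_kappa`, `2^(2 ∑κ) ≤ 2^c H/|r|`: `≤ K' |r|^(2g+1) (H/|r|)^(2g+2-δ/2)`; sum over
`0 < |r| < H/R`: `≤ K'' H^(2g+2-δ/2) ∑_(q<H/R) q^(-1+δ/2) ≤ K''' H^(2g+2-δ/2) (H/R)^(δ/2)`.
-/

open Polynomial Matrix Pool.Agent.Helper32.DZ Pool.Agent.Helper32.FM

namespace Pool.Agent.Helper31.FM2

private theorem nt_inv {N : ℕ} (g : Matrix (Fin N) (Fin N) ℤ) (hg : g.det = 1 ∨ g.det = -1) :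
    ∃ g' : Matrix (Fin N) (Fin N) ℤ, g * g' = 1 ∧ (g'.det = 1 ∨ g'.det = -1) := by
  have hu : IsUnit g.det := by
    rcases hg with h | h <;> rw [h]
    · exact isUnit_one
    · exact isUnit_one.neg
  refine ⟨g⁻¹, Matrix.mul_nonsing_inv g hu, ?_⟩
  have h1 : g.det * (g⁻¹).det = 1 := by
    rw [← Matrix.det_mul, Matrix.mul_nonsing_inv g hu, Matrix.det_one]
  rcases hg with h | h
  · left
    rwa [h, one_mul] at h1
  · right
    rw [h] at h1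
    linarith

private theorem nt_conj {N : ℕ} (A B a b b' : Matrix (Fin N) (Fin N) ℤ) (hb : b * b' = 1)
    (h : aᵀ * A * a = bᵀ * B * b) : B = (a * b')ᵀ * A * (a * b') := by
  have h1 : (a * b')ᵀ * A * (a * b') = b'ᵀ * (aᵀ * A * a) * b' := by
    rw [Matrix.transpose_mul]
    simp only [Matrix.mul_assoc]
  have h2 : b'ᵀ * (bᵀ * B * b) * b' = (b * b')ᵀ * B * (b * b') := by
    rw [Matrix.transpose_mul]
    simp only [Matrix.mul_assoc]
  rw [h1, h, h2, hb, Matrix.transpose_one, Matrix.one_mul, Matrix.mul_one]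

private theorem nt_assoc {N : ℕ} (A g U : Matrix (Fin N) (Fin N) ℤ) :
    Uᵀ * (gᵀ * A * g) * U = (g * U)ᵀ * A * (g * U) := by
  rw [Matrix.transpose_mul]
  simp only [Matrix.mul_assoc]

private theorem nt_det {N : ℕ} (g U : Matrix (Fin N) (Fin N) ℤ)
    (hg : g.det = 1 ∨ g.det = -1) (hU : U.det = 1 ∨ U.det = -1) :
    (g * U).det = 1 ∨ (g * U).det = -1 := by
  rw [Matrix.det_mul]
  rcases hg with h | h <;> rcases hU with h' | h' <;> rw [h, h'] <;> norm_num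

/-- equal translates give an integral equivalence and the same polynomial -/
private theorem nt_eq {d : ℕ} (α κ : ℤ) (hκ : κ ≠ 0) (a b : Fin (d + 1) → ℤ)
    (G1 S1 G2 S2 g1 g2 U V : Matrix (Fin d) (Fin d) ℤ)
    (hg1 : g1.det = 1 ∨ g1.det = -1) (hg2 : g2.det = 1 ∨ g2.det = -1)
    (hU : U.det = 1) (hV : V.det = 1)
    (ha : pen (α • G1) S1 = C κ * pol a) (hb : pen (α • G2) S2 = C κ * pol b)
    (h1 : Uᵀ * (g1ᵀ * G1 * g1) * U = Vᵀ * (g2ᵀ * G2 * g2) * V)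
    (h2 : Uᵀ * (g1ᵀ * S1 * g1) * U = Vᵀ * (g2ᵀ * S2 * g2) * V) :
    ∃ h : Matrix (Fin d) (Fin d) ℤ, (h.det = 1 ∨ h.det = -1) ∧ b = a ∧ G2 = hᵀ * G1 * h ∧
      S2 = hᵀ * S1 * h := by
  have hC : (C κ : ℤ[X]) ≠ 0 := by
    rw [Ne, C_eq_zero]
    exact hκ
  obtain ⟨b', hb', hd'⟩ := nt_inv (g2 * V) (nt_det g2 V hg2 (Or.inl hV))
  rw [nt_assoc, nt_assoc] at h1 h2
  have hd := nt_det (g1 * U) b' (nt_det g1 U hg1 (Or.inl hU)) hd'
  have e1 := nt_conj G1 G2 (g1 * U) (g2 * V) b' hb' h1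
  have e2 := nt_conj S1 S2 (g1 * U) (g2 * V) b' hb' h2
  refine ⟨g1 * U * b', hd, ?_, e1, e2⟩
  have hsq : (g1 * U * b').det ^ 2 = 1 := by
    rcases hd with h | h <;> rw [h] <;> norm_num
  have h3 : pen (α • G2) S2 = pen (α • G1) S1 := by
    have e3 : α • ((g1 * U * b')ᵀ * G1 * (g1 * U * b')) =
        (g1 * U * b')ᵀ * (α • G1) * (g1 * U * b') := by
      rw [Matrix.mul_smul, Matrix.smul_mul]
    rw [e1, e2, e3, pen_conj, hsq, C_1, one_mul]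
  rw [ha, hb] at h3
  exact pol_inj _ _ (mul_left_cancel₀ hC h3)

/-- `∑_(q ≤ N) q^(η-1) ≤ N^η / η` -/
private theorem nt_sum (η : ℝ) (h0 : 0 < η) (h1 : η ≤ 1) (N : ℕ) :
    ∑ q ∈ Finset.Icc 1 N, (q : ℝ) ^ (η - 1) ≤ (N : ℝ) ^ η / η := by
  induction N with
  | zero =>
    rw [Finset.Icc_eq_empty (by norm_num), Finset.sum_empty]
    positivity
  | succ N ih =>
    rw [Finset.sum_Icc_succ_top (by omega)]
    have hN : (0 : ℝ) < (N : ℝ) + 1 := by positivity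
    have h2 : (N : ℝ) ^ η ≤ ((N : ℝ) + 1) ^ η - η * ((N : ℝ) + 1) ^ (η - 1) := by
      have h3 : (N : ℝ) = ((N : ℝ) + 1) * (1 + -(1 / ((N : ℝ) + 1))) := by
        field_simp
        ring
      have h6 : 1 / ((N : ℝ) + 1) ≤ 1 := by
        rw [div_le_one hN]
        have : (0 : ℝ) ≤ N := Nat.cast_nonneg N
        linarith
      have h5 : (1 + -(1 / ((N : ℝ) + 1))) ^ η ≤ 1 + η * -(1 / ((N : ℝ) + 1)) :=
        rpow_one_add_le_one_add_mul_self (by linarith) h0.le h1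
      calc (N : ℝ) ^ η = (((N : ℝ) + 1) * (1 + -(1 / ((N : ℝ) + 1)))) ^ η := by rw [← h3]
        _ = ((N : ℝ) + 1) ^ η * (1 + -(1 / ((N : ℝ) + 1))) ^ η :=
            Real.mul_rpow hN.le (by linarith)
        _ ≤ ((N : ℝ) + 1) ^ η * (1 + η * -(1 / ((N : ℝ) + 1))) :=
            mul_le_mul_of_nonneg_left h5 (by positivity)
        _ = ((N : ℝ) + 1) ^ η - η * ((N : ℝ) + 1) ^ (η - 1) := by
            rw [Real.rpow_sub_one hN.ne']
            field_simp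
            ring
    push_cast
    have h3 : ((N : ℝ) + 1) ^ (η - 1) ≤ (((N : ℝ) + 1) ^ η - (N : ℝ) ^ η) / η := by
      rw [le_div_iff₀ h0]
      linarith
    calc ∑ q ∈ Finset.Icc 1 N, (q : ℝ) ^ (η - 1) + ((N : ℝ) + 1) ^ (η - 1)
        ≤ (N : ℝ) ^ η / η + (((N : ℝ) + 1) ^ η - (N : ℝ) ^ η) / η := add_le_add ih h3
      _ = ((N : ℝ) + 1) ^ η / η := by ring

/-- sums over nonzero integers -/
private theorem nt_abs (n : ℕ) (s : Finset ℤ) (hs : ∀ x ∈ s, x ≠ 0 ∧ x.natAbs ≤ n) (f : ℕ → ℝ)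
    (hf : ∀ m, 0 ≤ f m) : ∑ x ∈ s, f x.natAbs ≤ 2 * ∑ m ∈ Finset.Icc 1 n, f m := by
  classical
  have e1 : ∑ x ∈ s, f x.natAbs =
      ∑ k ∈ s.image Int.natAbs, ∑ x ∈ s with x.natAbs = k, f x.natAbs :=
    (Finset.sum_fiberwise_of_maps_to (fun α hα => Finset.mem_image_of_mem _ hα) _).symm
  have e2 : ∀ k ∈ s.image Int.natAbs, ∑ x ∈ s with x.natAbs = k, f x.natAbs ≤ 2 * f k := by
    intro k _
    have f1 : ∑ x ∈ s with x.natAbs = k, f x.natAbs = ∑ x ∈ s with x.natAbs = k, f k := by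
      refine Finset.sum_congr rfl fun α hα => ?_
      rw [(Finset.mem_filter.1 hα).2]
    rw [f1, Finset.sum_const, nsmul_eq_mul]
    have f2 : (s.filter fun x => x.natAbs = k).card ≤ 2 := by
      have f3 : s.filter (fun x => x.natAbs = k) ⊆ {(k : ℤ), -(k : ℤ)} := by
        intro α hα
        have := (Finset.mem_filter.1 hα).2
        rw [Finset.mem_insert, Finset.mem_singleton]
        omega
      exact (Finset.card_le_card f3).trans Finset.card_le_two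
    have f4 : ((s.filter fun x => x.natAbs = k).card : ℝ) ≤ 2 := by exact_mod_cast f2
    exact mul_le_mul_of_nonneg_right f4 (hf k)
  rw [e1]
  refine (Finset.sum_le_sum e2).trans ?_
  rw [← Finset.mul_sum]
  refine mul_le_mul_of_nonneg_left ?_ (by norm_num)
  refine Finset.sum_le_sum_of_subset_of_nonneg ?_ (fun _ _ _ => hf _)
  intro k hk
  obtain ⟨α, hα, rfl⟩ := Finset.mem_image.1 hk
  obtain ⟨h1, h2⟩ := hs α hα
  rw [Finset.mem_Icc]
  exact ⟨Int.natAbs_pos.2 h1, h2⟩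

theorem non_triv (g : ℕ) (hg : 1 ≤ g) : ∃ C0 δ : ℝ, 1 ≤ C0 ∧ 0 < δ ∧ ∀ H : ℕ, 1 ≤ H → ∀ R : ℝ, 1 ≤ R →
    ∀ (ι : Type) (F : Finset ι) (tup : ι → Fin (2 * g + 1 + 1) → ℤ) (r s : ι → ℤ)
      (G S : ι → Matrix (Fin (2 * g + 1)) (Fin (2 * g + 1)) ℤ),
      (∀ i ∈ F, (∀ k, |tup i k| ≤ (H : ℤ)) ∧ Good (tup i) ∧
        tup i (Fin.last (2 * g + 1)) = r i * s i ^ 2 ∧ Squarefree (r i) ∧
        R * |(r i : ℝ)| < H ∧ (G i).IsSymm ∧ (S i).IsSymm ∧ |(G i).det| = s i ^ 2 ∧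
        NegSq (r i) (S i) ∧
        pen (r i • G i) (S i) = C (-(-1) ^ (g + 1) * (r i) ^ (2 * g)) * pol (tup i) ∧
        ∀ h : Matrix (Fin (2 * g + 1)) (Fin (2 * g + 1)) ℤ, (h.det = 1 ∨ h.det = -1) →
          ¬ ZB g (hᵀ * G i * h) (hᵀ * S i * h)) →
      (∀ i ∈ F, ∀ j ∈ F, ∀ h : Matrix (Fin (2 * g + 1)) (Fin (2 * g + 1)) ℤ,
        (h.det = 1 ∨ h.det = -1) → tup j = tup i → r j = r i → G j = hᵀ * G i * h →
        S j = hᵀ * S i * h → i = j) →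
      (F.card : ℝ) ≤ C0 * R ^ (-δ) * (H : ℝ) ^ (2 * g + 2) := by
  classical
  obtain ⟨c, hc⟩ := cell_sub g hg
  obtain ⟨K, δ, hK, hδ, hδ1, hcb⟩ := cell_bound g hg
  have hg0 : (0 : ℝ) ≤ g := Nat.cast_nonneg g
  obtain ⟨β, hβ⟩ : ∃ β : ℝ, β = 4 * (g : ℝ) + 4 - δ := ⟨_, rfl⟩
  have hβ0 : 0 < β := by rw [hβ]; linarith
  obtain ⟨K2, hK2, hsk⟩ := sum_kappa (2 * g) β hβ0
  rw [← hβ] at hcb
  refine ⟨K * K2 * (2 : ℝ) ^ ((c : ℝ) * (β / 2)) * (4 / δ), δ / 2, ?_, by linarith,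
    fun H hH R hR ι F tup r s G0 S0 hmem hinj => ?_⟩
  · have h1 : (1 : ℝ) ≤ (2 : ℝ) ^ ((c : ℝ) * (β / 2)) :=
      Real.one_le_rpow one_le_two (by positivity)
    have h2 : 1 ≤ 4 / δ := by
      rw [le_div_iff₀ hδ]
      linarith
    exact one_le_mul_of_one_le_of_one_le (one_le_mul_of_one_le_of_one_le
      (one_le_mul_of_one_le_of_one_le hK hK2) h1) h2
  have hHr : (1 : ℝ) ≤ H := by exact_mod_cast hH
  have hH0 : (0 : ℝ) < H := by linarith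
  have hR0 : 0 < R := by linarith
  -- reduction
  have hch : ∀ i, i ∈ F → ∃ (h : Matrix (Fin (2 * g + 1)) (Fin (2 * g + 1)) ℤ)
      (κ : Fin (2 * g + 1) → ℤ),
      (h.det = 1 ∨ h.det = -1) ∧ PG (hᵀ * G0 i * h) (hᵀ * S0 i * h) ∧ Monotone κ ∧
      |(r i : ℝ)| * (2 : ℝ) ^ (2 * ∑ k, κ k) ≤ 2 ^ c * H ∧
      ∀ U ∈ Tr κ, ∀ k l, |(((Uᵀ * (hᵀ * G0 i * h) * U) k l : ℤ) : ℝ)| < (2 : ℝ) ^ (κ k + κ l) ∧
        |(((Uᵀ * (hᵀ * S0 i * h) * U) k l : ℤ) : ℝ)| < |(r i : ℝ)| * (2 : ℝ) ^ (κ k + κ l) := by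
    intro i hi
    obtain ⟨m1, m2, m3, m4, m5, m6, m7, m8, m9, m10, m11⟩ := hmem i hi
    exact hc H hH (tup i) m1 m2 (r i) (s i) m3 (G0 i) (S0 i) m6 m7 m8 m10
  choose! h κ hh hPG hmono hsum hU using hch
  have hr0 : ∀ i ∈ F, r i ≠ 0 := by
    intro i hi h0
    obtain ⟨m1, m2, m3, m4, m5, m6, m7, m8, m9, m10, m11⟩ := hmem i hi
    apply m2.1
    rw [m3, h0, zero_mul]
  have hs0 : ∀ i ∈ F, s i ≠ 0 := by
    intro i hi h0
    obtain ⟨m1, m2, m3, m4, m5, m6, m7, m8, m9, m10, m11⟩ := hmem i hi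
    apply m2.1
    rw [m3, h0]
    ring
  have hcast : ∀ z : ℤ, ((z.natAbs : ℕ) : ℝ) = |(z : ℝ)| := fun z => by
    rw [Nat.cast_natAbs, Int.cast_abs]
  -- one fibre
  have hfib : ∀ r0 ∈ F.image r, ∀ κ0 ∈ (F.filter fun i => r i = r0).image κ,
      ((F.filter fun i => r i = r0 ∧ κ i = κ0).card : ℝ) ≤
        K * (r0.natAbs : ℝ) ^ (2 * g + 1) * ((2 : ℝ) ^ (β * ((∑ k, κ0 k : ℤ) : ℝ)) *
        (2 : ℝ) ^ (-(((κ0 (Fin.last (2 * g)) - κ0 0 : ℤ) : ℝ) / 8))) := by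
    intro r0 hr κ0 hκ0
    obtain ⟨i0, hi0, rfl⟩ := Finset.mem_image.1 hκ0
    obtain ⟨hi1, hi2⟩ := Finset.mem_filter.1 hi0
    have hmono0 := hmono i0 hi1
    have hr00 : r0 ≠ 0 := by
      rw [← hi2]
      exact hr0 i0 hi1
    have hq1 : 1 ≤ r0.natAbs := Int.natAbs_pos.2 hr00
    have hq2 : Squarefree r0.natAbs := by
      rw [Int.squarefree_natAbs, ← hi2]
      exact (hmem i0 hi1).2.2.2.1
    have h1 := inj_count (↑(F.filter fun i => r i = r0 ∧ κ i = κ i0) : Set ι)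
      (Finset.finite_toSet _) (κ i0) hmono0 (fun i => (h i)ᵀ * G0 i * h i)
      (fun i => (h i)ᵀ * S0 i * h i) (fun i hi => hPG i (Finset.mem_filter.1 (Finset.mem_coe.1 hi)).1)
      (by
        intro i hi j hj U hU1 V hV1 e1 e2
        obtain ⟨hi3, hi4, hi5⟩ := Finset.mem_filter.1 (Finset.mem_coe.1 hi)
        obtain ⟨hj3, hj4, hj5⟩ := Finset.mem_filter.1 (Finset.mem_coe.1 hj)
        have p1 := (hmem i hi3).2.2.2.2.2.2.2.2.2.1
        have p2 := (hmem j hj3).2.2.2.2.2.2.2.2.2.1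
        rw [hi4] at p1
        rw [hj4] at p2
        have hκ' : -(-1 : ℤ) ^ (g + 1) * r0 ^ (2 * g) ≠ 0 :=
          mul_ne_zero (neg_ne_zero.2 (pow_ne_zero _ (by norm_num))) (pow_ne_zero _ hr00)
        obtain ⟨k, hk1, hk2, hk3, hk4⟩ := nt_eq r0 _ hκ' (tup i) (tup j) (G0 i) (S0 i) (G0 j)
          (S0 j) (h i) (h j) U V (hh i hi3) (hh j hj3) (ut_det U hU1.1) (ut_det V hV1.1) p1 p2 e1 e2
        exact hinj i hi3 j hj3 k hk1 hk2 (hj4.trans hi4.symm) hk3 hk4)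
      (Cell g r0.natAbs (κ i0)) (cell_finite g _ _)
      (by
        intro i hi U hU1
        obtain ⟨hi3, hi4, hi5⟩ := Finset.mem_filter.1 (Finset.mem_coe.1 hi)
        obtain ⟨m1, m2, m3, m4, m5, m6, m7, m8, m9, m10, m11⟩ := hmem i hi3
        have hUd : U.det = 1 ∨ U.det = -1 := Or.inl (ut_det U hU1.1)
        have hPG' := pg_conj _ _ U (hPG i hi3) hUd
        have hb := hU i hi3
        rw [hi5] at hb
        refine ⟨⟨hPG'.1, fun k l => (hb U hU1 k l).1⟩, ⟨hPG'.2.1, fun k l => ?_⟩, ?_, hPG', ?_, ?_⟩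
        · have h2 := (hb U hU1 k l).2
          rw [hcast, ← hi4]
          exact h2
        · have h2 := negSq_conj _ _ U (negSq_conj _ _ (h i) m9)
          rw [hi4] at h2
          obtain ⟨u, hu⟩ := h2
          exact ⟨u, fun k l => Int.natAbs_dvd.2 (hu k l)⟩
        · refine ⟨s i, hs0 i hi3, ?_⟩
          have e1 : (Uᵀ * ((h i)ᵀ * G0 i * h i) * U).det = (G0 i).det := by
            rw [nt_assoc, Matrix.det_mul, Matrix.det_mul, Matrix.det_transpose]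
            rcases nt_det (h i) U (hh i hi3) hUd with e | e <;> rw [e] <;> ring
          show (Uᵀ * ((h i)ᵀ * G0 i * h i) * U).det = s i ^ 2 ∨
            (Uᵀ * ((h i)ᵀ * G0 i * h i) * U).det = -s i ^ 2
          rw [e1]
          rcases abs_choice (G0 i).det with e | e
          · left
            rw [← m8, e]
          · right
            rw [← m8, e, neg_neg]
        · show ¬ ZB g (Uᵀ * ((h i)ᵀ * G0 i * h i) * U) (Uᵀ * ((h i)ᵀ * S0 i * h i) * U)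
          rw [nt_assoc, nt_assoc]
          exact m11 _ (nt_det (h i) U (hh i hi3) hUd))
    rw [Set.ncard_coe_finset] at h1
    have h2 := h1.trans (hcb r0.natAbs hq1 hq2 (κ i0) hmono0)
    have hD : (0 : ℝ) < (2 : ℝ) ^ (Dk (κ i0)) := by positivity
    refine le_of_mul_le_mul_right ?_ hD
    refine h2.trans (le_of_eq ?_)
    ring
  -- one value of `r`
  have hrow : ∀ r0 ∈ F.image r, ((F.filter fun i => r i = r0).card : ℝ) ≤
      K * K2 * (2 : ℝ) ^ ((c : ℝ) * (β / 2)) * (H : ℝ) ^ (β / 2) *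
        (r0.natAbs : ℝ) ^ (δ / 2 - 1) := by
    intro r0 hr
    obtain ⟨i0, hi0, hi1⟩ := Finset.mem_image.1 hr
    have hr00 : r0 ≠ 0 := by
      rw [← hi1]
      exact hr0 i0 hi0
    have hq0 : (0 : ℝ) < (r0.natAbs : ℝ) := by
      have := Int.natAbs_pos.2 hr00
      exact_mod_cast this
    obtain ⟨I, hI⟩ : ∃ I, I = (F.filter fun i => r i = r0).image κ := ⟨_, rfl⟩
    have e1 : (F.filter fun i => r i = r0).card =
        ∑ κ0 ∈ I, (F.filter fun i => r i = r0 ∧ κ i = κ0).card := by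
      rw [hI, Finset.card_eq_sum_card_image κ]
      refine Finset.sum_congr rfl fun κ0 _ => ?_
      rw [Finset.filter_filter]
    have e2 : ((F.filter fun i => r i = r0).card : ℝ) =
        ∑ κ0 ∈ I, ((F.filter fun i => r i = r0 ∧ κ i = κ0).card : ℝ) := by
      exact_mod_cast e1
    obtain ⟨w, hw⟩ : ∃ w : ℝ, w = Real.logb 2 (2 ^ c * H / r0.natAbs) / 2 := ⟨_, rfl⟩
    have hpos : (0 : ℝ) < 2 ^ c * H / r0.natAbs := by positivity
    have h3 := hsk I w (by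
      intro κ0 hκ0
      rw [hI] at hκ0
      obtain ⟨i, hi, rfl⟩ := Finset.mem_image.1 hκ0
      obtain ⟨hi2, hi3⟩ := Finset.mem_filter.1 hi
      refine ⟨hmono i hi2, ?_⟩
      have h4 := hsum i hi2
      rw [← hcast, hi3] at h4
      have h5 : (2 : ℝ) ^ ((2 * ∑ k, κ i k : ℤ) : ℝ) ≤ 2 ^ c * H / r0.natAbs := by
        rw [Real.rpow_intCast, le_div_iff₀ hq0, mul_comm]
        exact h4
      have h6 := (Real.le_logb_iff_rpow_le one_lt_two hpos).2 h5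
      rw [hw]
      push_cast at h6 ⊢
      linarith)
    have h4 : (2 : ℝ) ^ (β * w) = (2 ^ c * H / r0.natAbs) ^ (β / 2) := by
      have h5 : (2 : ℝ) ^ (Real.logb 2 (2 ^ c * H / r0.natAbs)) = 2 ^ c * H / r0.natAbs :=
        Real.rpow_logb two_pos (by norm_num) hpos
      conv_rhs => rw [← h5]
      rw [← Real.rpow_mul two_pos.le, hw]
      congr 1
      ring
    have h5 : (2 ^ c * (H : ℝ) / r0.natAbs) ^ (β / 2) =
        (2 : ℝ) ^ ((c : ℝ) * (β / 2)) * (H : ℝ) ^ (β / 2) * (r0.natAbs : ℝ) ^ (-(β / 2)) := by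
      rw [Real.div_rpow (by positivity) hq0.le, Real.mul_rpow (by positivity) hH0.le,
        ← Real.rpow_natCast, ← Real.rpow_mul two_pos.le, Real.rpow_neg hq0.le, div_eq_mul_inv]
    have h6 : (r0.natAbs : ℝ) ^ (2 * g + 1) * (r0.natAbs : ℝ) ^ (-(β / 2)) =
        (r0.natAbs : ℝ) ^ (δ / 2 - 1) := by
      rw [← Real.rpow_natCast, ← Real.rpow_add hq0]
      congr 1
      rw [hβ]
      push_cast
      ring
    rw [e2]
    calc ∑ κ0 ∈ I, ((F.filter fun i => r i = r0 ∧ κ i = κ0).card : ℝ)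
        ≤ ∑ κ0 ∈ I, K * (r0.natAbs : ℝ) ^ (2 * g + 1) *
          ((2 : ℝ) ^ (β * ((∑ k, κ0 k : ℤ) : ℝ)) *
          (2 : ℝ) ^ (-(((κ0 (Fin.last (2 * g)) - κ0 0 : ℤ) : ℝ) / 8))) :=
          Finset.sum_le_sum fun κ0 hκ0 => hfib r0 hr κ0 (by rw [← hI]; exact hκ0)
      _ = K * (r0.natAbs : ℝ) ^ (2 * g + 1) * ∑ κ0 ∈ I,
          (2 : ℝ) ^ (β * ((∑ k, κ0 k : ℤ) : ℝ)) *
          (2 : ℝ) ^ (-(((κ0 (Fin.last (2 * g)) - κ0 0 : ℤ) : ℝ) / 8)) := by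
          rw [Finset.mul_sum]
      _ ≤ K * (r0.natAbs : ℝ) ^ (2 * g + 1) * (K2 * (2 : ℝ) ^ (β * w)) :=
          mul_le_mul_of_nonneg_left h3 (by positivity)
      _ = K * K2 * (2 : ℝ) ^ ((c : ℝ) * (β / 2)) * (H : ℝ) ^ (β / 2) *
          ((r0.natAbs : ℝ) ^ (2 * g + 1) * (r0.natAbs : ℝ) ^ (-(β / 2))) := by
          rw [h4, h5]
          ring
      _ = _ := by rw [h6]
  -- the sum over `r`
  obtain ⟨N, hN⟩ : ∃ N : ℕ, N = ⌊(H : ℝ) / R⌋₊ := ⟨_, rfl⟩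
  have hrN : ∀ x ∈ F.image r, x ≠ 0 ∧ x.natAbs ≤ N := by
    intro x hx
    obtain ⟨i, hi, rfl⟩ := Finset.mem_image.1 hx
    refine ⟨hr0 i hi, ?_⟩
    rw [hN]
    refine Nat.le_floor ?_
    rw [hcast, le_div_iff₀ hR0, mul_comm]
    exact (hmem i hi).2.2.2.2.1.le
  have h1 := nt_abs N (F.image r) hrN (fun q => (q : ℝ) ^ (δ / 2 - 1))
    (fun m => Real.rpow_nonneg (Nat.cast_nonneg m) _)
  have h2 := nt_sum (δ / 2) (by linarith) (by linarith) N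
  have h3 : (N : ℝ) ^ (δ / 2) ≤ (H : ℝ) ^ (δ / 2) * R ^ (-(δ / 2)) := by
    rw [Real.rpow_neg hR0.le, ← div_eq_mul_inv, ← Real.div_rpow hH0.le hR0.le]
    refine Real.rpow_le_rpow (Nat.cast_nonneg N) ?_ (by linarith)
    rw [hN]
    exact Nat.floor_le (by positivity)
  have e1 : (F.card : ℝ) = ∑ r0 ∈ F.image r, ((F.filter fun i => r i = r0).card : ℝ) := by
    exact_mod_cast Finset.card_eq_sum_card_image r F
  have h4 : (H : ℝ) ^ (β / 2) * (H : ℝ) ^ (δ / 2) = (H : ℝ) ^ (2 * g + 2) := by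
    rw [← Real.rpow_add hH0, ← Real.rpow_natCast]
    congr 1
    rw [hβ]
    push_cast
    ring
  obtain ⟨A, hA⟩ : ∃ A : ℝ, A = K * K2 * (2 : ℝ) ^ ((c : ℝ) * (β / 2)) := ⟨_, rfl⟩
  have hA0 : 0 ≤ A := by
    rw [hA]
    positivity
  rw [← hA] at hrow ⊢
  calc (F.card : ℝ) = ∑ r0 ∈ F.image r, ((F.filter fun i => r i = r0).card : ℝ) := e1
    _ ≤ ∑ r0 ∈ F.image r, A * (H : ℝ) ^ (β / 2) * (r0.natAbs : ℝ) ^ (δ / 2 - 1) :=
        Finset.sum_le_sum hrow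
    _ = A * (H : ℝ) ^ (β / 2) * ∑ r0 ∈ F.image r, (r0.natAbs : ℝ) ^ (δ / 2 - 1) := by
        rw [Finset.mul_sum]
    _ ≤ A * (H : ℝ) ^ (β / 2) * (2 * ((H : ℝ) ^ (δ / 2) * R ^ (-(δ / 2)) / (δ / 2))) := by
        refine mul_le_mul_of_nonneg_left ?_ (by positivity)
        refine h1.trans ?_
        refine mul_le_mul_of_nonneg_left ?_ (by norm_num)
        exact h2.trans (div_le_div_of_nonneg_right h3 (by linarith))
    _ = A * (4 / δ) * R ^ (-(δ / 2)) * ((H : ℝ) ^ (β / 2) * (H : ℝ) ^ (δ / 2)) := by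
        field_simp
        ring
    _ = A * (4 / δ) * R ^ (-(δ / 2)) * (H : ℝ) ^ (2 * g + 2) := by rw [h4]

end Pool.Agent.Helper31.FM2
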