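import Pool.Agent.Helper38.FM.PencilO
import Pool.Agent.Helper31.FM2.Defs

set_option autoImplicit false

/-!
FM2-1a PtLast. `pt_odd` (Helper38/FM/PencilO.lean) with the vector of `NegSq` made explicit: it is the last unit vector.

PROOF. Copy the proof of `pt_odd`, `k = g`: there `S i j = t x₀ G i j - t B2 i j - v i v j`, `v i = if i = 2 k then 1 else 0`.
-/

open Polynomial Matrix Pool.Agent.Helper32.DZ Pool.Agent.Helper32.FM Pool.Agent.Helper38.FM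

namespace Pool.Agent.Helper31.FM2

theorem pt_last (g : ℕ) (hg : 1 ≤ g) (a : Fin (2 * g + 1 + 1) → ℤ)
    (hl : a (Fin.last (2 * g + 1)) ≠ 0) (x₀ y₀ : ℤ) (hxy : y₀ ^ 2 = ∑ i, a i * x₀ ^ (i : ℕ)) :
    ∃ G S : Matrix (Fin (2 * g + 1)) (Fin (2 * g + 1)) ℤ, G.IsSymm ∧ S.IsSymm ∧ G.det = (-1) ^ g ∧
      (∀ i j, a (Fin.last (2 * g + 1)) ∣ S i j +
        (if (i : ℕ) = 2 * g then 1 else 0) * (if (j : ℕ) = 2 * g then 1 else 0)) ∧
      pen (a (Fin.last (2 * g + 1)) • G) S =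
        C (-(-1) ^ (g + 1) * (a (Fin.last (2 * g + 1))) ^ (2 * g)) * pol a ∧
      PtOf (a (Fin.last (2 * g + 1)) • G) S
        ((-1) ^ (g + 1) * (a (Fin.last (2 * g + 1))) ^ (2 * g - 1)) x₀ := by
  obtain ⟨k, hkg⟩ : ∃ k, k = g := ⟨g, rfl⟩
  subst hkg
  have hk : 1 ≤ k := hg
  obtain ⟨t, ht⟩ : ∃ t, t = a (Fin.last (2 * k + 1)) := ⟨_, rfl⟩
  rw [← ht]
  rw [← ht] at hl
  obtain ⟨b, hb0, hbl, hbz, hbs⟩ := shift_data (2 * k) a (by rw [← ht]; exact hl) x₀ y₀ hxy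
  rw [← ht] at hbl
  obtain ⟨G, hG⟩ : ∃ G : Matrix (Fin (2 * k + 1)) (Fin (2 * k + 1)) ℤ,
    G = tri (dA b) (oA (S := ℤ)) (2 * k + 1) := ⟨_, rfl⟩
  obtain ⟨B2, hB2⟩ : ∃ B2 : Matrix (Fin (2 * k + 1)) (Fin (2 * k + 1)) ℤ,
    B2 = tri (dB b) (oB y₀) (2 * k + 1) := ⟨_, rfl⟩
  obtain ⟨v, hv⟩ : ∃ v : Fin (2 * k + 1) → ℤ, ∀ i, v i = if (i : ℕ) = 2 * k then 1 else 0 :=
    ⟨fun i => if (i : ℕ) = 2 * k then 1 else 0, fun i => rfl⟩
  have hGs : G.IsSymm := by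
    rw [hG]
    exact tri_symm' _ _ _
  have hBs : B2.IsSymm := by
    rw [hB2]
    exact tri_symm' _ _ _
  obtain ⟨S, hS⟩ : ∃ S : Matrix (Fin (2 * k + 1)) (Fin (2 * k + 1)) ℤ,
    S = Matrix.of fun i j => t * x₀ * G i j - t * B2 i j - v i * v j := ⟨_, rfl⟩
  have hSs : S.IsSymm := by
    ext i j
    simp only [hS, Matrix.transpose_apply, Matrix.of_apply]
    rw [hGs.apply, hBs.apply]
    ring
  have hGd : G.det = (-1) ^ k := by
    have h1 := tri_A' (S := ℤ) b (k + 1) (by omega)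
    have e : 2 * (k + 1) - 1 = 2 * k + 1 := by omega
    rw [e] at h1
    rw [hG]
    simpa using h1
  have htC : (C t : ℤ[X]) ≠ 0 := by
    rw [Ne, C_eq_zero]
    exact hl
  have hpm : pm (t • G) S = oq (fun k => (C (b k) : ℤ[X])) (C y₀) (X - C x₀) (C t) k := by
    unfold oq
    rw [tri_C', ← hG, ← hB2]
    unfold pm
    ext1 i j
    simp only [Matrix.sub_apply, Matrix.smul_apply, Matrix.map_apply, Matrix.add_apply, smul_eq_mul,
      Matrix.of_apply, hS, map_sub, map_mul, hv]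
    have e1 : ∀ p : Prop, [Decidable p] → (C (if p then (1 : ℤ) else 0) : ℤ[X]) = if p then 1 else 0 := by
      intro p _
      split_ifs <;> simp
    rw [e1, e1]
    ring
  have hsum : (C y₀ : ℤ[X]) ^ 2 + ∑ i ∈ Finset.range (2 * (k + 1)),
      (fun k => (C (b k) : ℤ[X])) (i + 1) * (X - C x₀) ^ (i + 1) = pol a := by
    have e5 : 2 * (k + 1) = (2 * k + 1) + 1 := by ring
    rw [e5, Finset.sum_range_succ]
    simp only
    rw [hbz, map_zero, zero_mul, add_zero, hbs]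
  refine ⟨G, S, hGs, hSs, hGd, ?_, ?_, ?_⟩
  · intro i j
    refine ⟨x₀ * G i j - B2 i j, ?_⟩
    simp only [hS, Matrix.of_apply, hv]
    ring
  · have h1 : pen (t • G) S = (pm (t • G) S).det := rfl
    rw [h1, hpm, oq_det _ _ _ _ k hk htC (by rw [hbl]) (by rw [← map_zero (C : ℤ →+* ℤ[X]), ← hbz]),
      hsum]
    simp only [C_mul, C_neg, C_pow, C_1]
    ring
  · have h1k : 1 < 2 * k + 1 := by omega
    refine ⟨Pi.single ⟨1, h1k⟩ 1, ?_⟩
    have hv' : (fun i => (C ((Pi.single (⟨1, h1k⟩ : Fin (2 * k + 1)) (1 : ℤ) :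
        Fin (2 * k + 1) → ℤ) i) : ℤ[X])) = Pi.single (⟨1, h1k⟩ : Fin (2 * k + 1)) (1 : ℤ[X]) := by
      funext i
      by_cases hi : i = ⟨1, h1k⟩
      · subst hi
        simp
      · rw [Pi.single_eq_of_ne hi, Pi.single_eq_of_ne hi, map_zero]
    rw [hv', Matrix.mulVec_single_one, single_dotProduct, one_mul, Matrix.col_apply, hpm,
      oq_adj _ _ _ _ k hk htC (by rw [hbl]) (by rw [← map_zero (C : ℤ →+* ℤ[X]), ← hbz]) h1k]
    simp only [C_mul, C_neg, C_pow, C_1]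

end Pool.Agent.Helper31.FM2
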