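import Mathlib

set_option autoImplicit false

/-!
FM2-2a ZbAdj. The adjugate of a symmetric matrix of size `2 g + 1` with a zero block `g × g`.

PROOF. `M = [[0, P], [P^t, Q]]`, `P` of size `g × (g+1)`. For `i, j ≥ g` the minor of `M` without row `i` and column `j` is
`[[0, P^(j)], [P^(i)t, Q']]` (`P^(j)` = `P` without column `j`), all blocks `g × g`, determinant `(-1)^(g*g) det P^(i) det P^(j)`
(`(-1)^(g*g) = (-1)^g`), so `adj M i j = (-1)^g p_i p_j` with `p_i = (-1)^i det P^(i)` (`p_i = 0` for `i < g`, say).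
Alternative without submatrices: `p_i = det` of the `(g+1) × (g+1)` matrix with the rows of `P` and `e_i`; for vectors `y, z` supported on the last
`g + 1` coordinates the determinant of the bordered matrix `[[0, P, 0],[P^t, Q, y],[0, z^t, 0]]` (size `2g+2`) is `- y^t adj(M) z` and also
`[[0, P~],[P~'^t, *]]` block form with two `(g+1) × (g+1)` blocks after moving the border, so it is `± det [P; y] det [P; z]`.
Mathlib: `Matrix.det_fromBlocks_zero₁₁`? / `Matrix.det_fromBlocks_zero₂₁` after swapping block columns; `Matrix.adjugate_fin_succ_eq_det_submatrix`.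
-/

open Matrix

namespace Pool.Agent.Helper31.FM2

private theorem det_zero_block_zb {R : Type} [CommRing R] {n : ℕ} (B C D : Matrix (Fin n) (Fin n) R) :
    (fromBlocks 0 B C D).det = (-1) ^ n * (B.det * C.det) := by
  have h1 : fromBlocks 0 B C D = fromBlocks B 0 D (-C) *
      (fromBlocks 1 1 0 1 * fromBlocks 1 0 (-1) 1 * fromBlocks 1 1 0 1) := by
    simp [fromBlocks_multiply]
  rw [h1, det_mul, det_mul, det_mul, det_fromBlocks_zero₁₂, det_fromBlocks_zero₂₁, det_fromBlocks_zero₁₂,
    det_neg, det_one, Fintype.card_fin]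
  ring

private theorem succAbove_lt_zb {m g : ℕ} (i : Fin (m + 1)) (r : Fin m) (hi : g ≤ (i : ℕ)) (hr : (r : ℕ) < g) :
    ((i.succAbove r : Fin (m + 1)) : ℕ) = r := by
  rw [Fin.succAbove_of_castSucc_lt]
  · rfl
  · rw [Fin.lt_def]
    simp only [Fin.val_castSucc]
    omega

theorem zb_adj {R : Type} [CommRing R] (g : ℕ) (M : Matrix (Fin (2 * g + 1)) (Fin (2 * g + 1)) R)
    (hs : M.IsSymm) (hz : ∀ i j : Fin (2 * g + 1), (i : ℕ) < g → (j : ℕ) < g → M i j = 0) :
    ∃ p : Fin (2 * g + 1) → R, ∀ i j : Fin (2 * g + 1), g ≤ (i : ℕ) → g ≤ (j : ℕ) →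
      M.adjugate i j = (-1) ^ g * (p i * p j) := by
  classical
  set e : Fin g ⊕ Fin g ≃ Fin (2 * g) := finSumFinEquiv.trans (finCongr (by omega)) with he
  have e1 : ∀ r : Fin g, ((e (Sum.inl r) : Fin (2 * g)) : ℕ) = r := by
    intro r
    simp [he]
  set B : Fin (2 * g + 1) → Matrix (Fin g) (Fin g) R := fun i =>
    Matrix.of fun r c => M (Fin.castLE (by omega) r) (i.succAbove (e (Sum.inr c))) with hB
  refine ⟨fun i => (-1) ^ (i : ℕ) * (B i).det, ?_⟩
  intro i j hi hj
  rw [adjugate_fin_succ_eq_det_submatrix, ← det_submatrix_equiv_self e]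
  have h1 : ((M.submatrix j.succAbove i.succAbove).submatrix e e) =
      fromBlocks 0 (B i) (B j)ᵀ (Matrix.of fun r c => M (j.succAbove (e (Sum.inr r))) (i.succAbove (e (Sum.inr c)))) := by
    ext a b
    rcases a with r | r <;> rcases b with c | c
    · simp only [submatrix_apply, fromBlocks_apply₁₁, Matrix.zero_apply]
      apply hz
      · rw [succAbove_lt_zb j _ hj (by rw [e1]; exact r.2), e1]
        exact r.2
      · rw [succAbove_lt_zb i _ hi (by rw [e1]; exact c.2), e1]
        exact c.2
    · simp only [submatrix_apply, fromBlocks_apply₁₂, hB, of_apply]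
      congr 1
      apply Fin.ext
      rw [succAbove_lt_zb j _ hj (by rw [e1]; exact r.2), e1]
      rfl
    · simp only [submatrix_apply, fromBlocks_apply₂₁, hB, of_apply, transpose_apply]
      rw [← hs.apply]
      congr 1
      apply Fin.ext
      rw [succAbove_lt_zb i _ hi (by rw [e1]; exact c.2), e1]
      rfl
    · simp only [submatrix_apply, fromBlocks_apply₂₂, of_apply]
  rw [h1, det_zero_block_zb, det_transpose]
  ring

end Pool.Agent.Helper31.FM2
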