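import Pool.Agent.Helper31.FM2.Defs
import Pool.Agent.Helper31.FM2.ZbAdj
import Pool.Agent.Helper32.DZ.Eig

set_option autoImplicit false

/-!
FM2-2b ZbRel. Two points whose pencils have a common zero block `g × g` are in the same class.

PROOF. `M = pm P R` (matrix over `ℤ[X]`, symmetric, zero block), `p` from `zb_adj` over `ℤ[X]`. (1) For every root `θ_t` some `p_i(θ_t) ≠ 0`, `i ≥ g`:
let `N = M(θ_t)` (complex, `det N = 0`), `v ≠ 0` with `N v = 0`; if `p_i(θ_t) = 0` for all `i ≥ g` then `adj N i i = 0` for `i ≥ g`. `adj N ≠ 0`: from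
`Helper32.DZ.eig` (distinct eigenvalues: `V^t N V = diag(α_k (θ_t - θ_k))`, so `adj N` is a nonzero multiple of `v v^t`, `v` = column `t` of `V`, and
`v^t P v = α_t ≠ 0`). So `v_i^2 = 0` for `i ≥ g`, `v` is supported on the first `g` coordinates and `v^t P v = 0`: contradiction.
(2) Choose `y_i = T^i` (`i ≥ g`, `0` for `i < g`), `T` an integer with `h(θ_t) ≠ 0` for all `t`, `h = ∑_i y_i p_i ∈ ℤ[X]` (finitely many `T` are excluded).
(3) `adj_rank` (Helper38/FM/Point): `(w^t adj w)(y^t adj y) = (w^t adj y)^2` at `θ_t` (symmetry of `adj`), i.e.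
`κ (θ_t - x) (-1)^g h(θ_t)^2 = q0(θ_t)^2`, `q0 = w^t adj(M) y ∈ ℤ[X]`. (4) `h` is invertible modulo `∏ (X - θ_t)`: `pen P R` has the roots `θ_t` and degree
`2g+1`, so `h` and `pen P R` are coprime over `ℚ` (no common complex root): `u h + u' pen = 1` in `ℚ[X]`; `q = u q0`. This is `sq_of_zb`.
`crel_of_zb`: multiply the two identities and divide by `((-1)^g κ)^2`: `CRel θ x x'` (`(x - θ)(x' - θ) = (θ - x)(θ - x')`).
-/

open Polynomial Matrix Pool.Agent.Helper32.DZ Pool.Agent.Helper32.FM Pool.Agent.Helper38.FM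

namespace Pool.Agent.Helper31.FM2

/-- the adjugate at a root is not zero outside the zero block -/
private theorem zbr_kernel {N : ℕ} (g : ℕ) (P R : Matrix (Fin N) (Fin N) ℂ) (hP : P.IsSymm)
    (hR : R.IsSymm) (hd : P.det ≠ 0) (hz : ∀ i j : Fin N, (i : ℕ) < g → (j : ℕ) < g → P i j = 0)
    (e : Fin N → ℂ) (he : Function.Injective e) (hr : ∀ i, (e i • P - R).det = 0) (t : Fin N) :
    ∃ i : Fin N, g ≤ (i : ℕ) ∧ (e t • P - R).adjugate i i ≠ 0 := by
  by_contra hcon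
  push Not at hcon
  obtain ⟨V, α, hV, hα, h1, h2⟩ := eig P R hP hR hd e he hr
  have hD : Vᵀ * (e t • P - R) * V = Matrix.diagonal (fun k => α k * (e t - e k)) := by
    rw [Matrix.mul_sub, Matrix.sub_mul, Matrix.mul_smul, Matrix.smul_mul, h1, h2]
    ext i j
    by_cases hij : i = j
    · subst hij
      simp only [Matrix.sub_apply, Matrix.smul_apply, Matrix.diagonal_apply_eq, smul_eq_mul]
      ring
    · simp only [Matrix.sub_apply, Matrix.smul_apply, Matrix.diagonal_apply_ne _ hij, smul_eq_mul,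
        mul_zero, sub_zero]
  obtain ⟨A, hA⟩ : ∃ A, A = (e t • P - R).adjugate := ⟨_, rfl⟩
  have h3 : V * (Vᵀ * (e t • P - R) * V).adjugate * Vᵀ = (V.det * V.det) • A := by
    rw [Matrix.adjugate_mul_distrib, Matrix.adjugate_mul_distrib, ← hA, ← Matrix.mul_assoc,
      Matrix.mul_adjugate, Matrix.smul_mul, Matrix.one_mul, Matrix.smul_mul, Matrix.mul_assoc,
      Matrix.adjugate_mul, Matrix.det_transpose, Matrix.mul_smul, Matrix.mul_one, smul_smul]
  rw [hD, Matrix.adjugate_diagonal] at h3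
  have hδ : ∏ j ∈ Finset.univ.erase t, (α j * (e t - e j)) ≠ 0 := by
    rw [Finset.prod_ne_zero_iff]
    intro j hj
    exact mul_ne_zero (hα j) (sub_ne_zero.2 fun h => (Finset.mem_erase.1 hj).1 (he h).symm)
  have hk0 : ∀ k, k ≠ t → ∏ j ∈ Finset.univ.erase k, (α j * (e t - e j)) = 0 := by
    intro k hk
    refine Finset.prod_eq_zero (Finset.mem_erase.2 ⟨hk.symm, Finset.mem_univ t⟩) ?_
    rw [sub_self, mul_zero]
  have hVt : ∀ i : Fin N, g ≤ (i : ℕ) → V i t = 0 := by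
    intro i hi
    have h4 := congrFun (congrFun h3 i) i
    rw [Matrix.smul_apply, hA, hcon i hi, smul_zero, Matrix.mul_apply,
      Finset.sum_eq_single t] at h4
    · rw [Matrix.mul_diagonal, Matrix.transpose_apply] at h4
      have h5 : V i t * V i t = 0 := by
        have h6 : (∏ j ∈ Finset.univ.erase t, (α j * (e t - e j))) * (V i t * V i t) = 0 := by
          linear_combination h4
        exact (mul_eq_zero.1 h6).resolve_left hδ
      exact mul_self_eq_zero.1 h5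
    · intro k _ hk
      rw [Matrix.mul_diagonal, hk0 k hk, mul_zero, zero_mul]
    · intro h
      exact absurd (Finset.mem_univ t) h
  apply hα t
  have h7 := congrFun (congrFun h1 t) t
  rw [Matrix.diagonal_apply_eq] at h7
  rw [← h7, Matrix.mul_apply]
  refine Finset.sum_eq_zero fun j _ => ?_
  by_cases hj : g ≤ (j : ℕ)
  · rw [hVt j hj, mul_zero]
  · rw [Matrix.mul_apply, Finset.sum_eq_zero, zero_mul]
    intro i _
    by_cases hi : g ≤ (i : ℕ)
    · rw [Matrix.transpose_apply, hVt i hi, zero_mul]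
    · rw [hz i j (by omega) (by omega), mul_zero]

/-- a natural number avoiding finitely many roots -/
private theorem zbr_pick {N : ℕ} (g : ℕ) (c : Fin N → Fin N → ℂ)
    (hc : ∀ t, ∃ i : Fin N, g ≤ (i : ℕ) ∧ c t i ≠ 0) :
    ∃ T : ℕ, ∀ t, ∑ i : Fin N, (if g ≤ (i : ℕ) then (T : ℂ) ^ (i : ℕ) else 0) * c t i ≠ 0 := by
  obtain ⟨Q, hQ⟩ : ∃ Q : Fin N → ℂ[X], Q = fun t =>
    ∑ i : Fin N, C (if g ≤ (i : ℕ) then c t i else 0) * X ^ (i : ℕ) := ⟨_, rfl⟩
  have hQ0 : ∀ t, Q t ≠ 0 := by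
    intro t h
    obtain ⟨i, hi, hci⟩ := hc t
    have h1 : (Q t).coeff i = c t i := by
      rw [hQ]
      simp only [Polynomial.finsetSum_coeff, coeff_C_mul_X_pow]
      rw [Finset.sum_eq_single i]
      · rw [if_pos rfl, if_pos hi]
      · intro k _ hk
        rw [if_neg]
        exact fun h => hk (Fin.ext h.symm)
      · intro h
        exact absurd (Finset.mem_univ i) h
    rw [h, coeff_zero] at h1
    exact hci h1.symm
  by_contra hcon
  push Not at hcon
  have hprod : ∏ t, Q t = 0 := by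
    apply Polynomial.eq_zero_of_infinite_isRoot
    refine Set.Infinite.mono ?_ (Set.infinite_range_of_injective (Nat.cast_injective (R := ℂ)))
    rintro _ ⟨T, rfl⟩
    obtain ⟨t, ht⟩ := hcon T
    change (∏ t, Q t).IsRoot (T : ℂ)
    rw [Polynomial.IsRoot.def, Polynomial.eval_prod]
    refine Finset.prod_eq_zero (Finset.mem_univ t) ?_
    rw [hQ, Polynomial.eval_finsetSum]
    refine Eq.trans ?_ ht
    refine Finset.sum_congr rfl fun i _ => ?_
    rw [Polynomial.eval_mul, Polynomial.eval_C, Polynomial.eval_pow, Polynomial.eval_X]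
    split_ifs
    · ring
    · ring
  obtain ⟨t, _, ht⟩ := Finset.prod_eq_zero_iff.1 hprod
  exact hQ0 t ht

private theorem zbr_pen_form {N : ℕ} (P R : Matrix (Fin N) (Fin N) ℤ) :
    pen P R = ((X : ℤ[X]) • P.map (C : ℤ → ℤ[X]) + (-R).map (C : ℤ → ℤ[X])).det := by
  unfold pen
  congr 1
  ext1 i j
  simp only [Matrix.sub_apply, Matrix.add_apply, Matrix.smul_apply, Matrix.map_apply,
    Matrix.neg_apply, map_neg, smul_eq_mul]
  ring

private theorem zbr_map {S : Type} [CommRing S] [Algebra ℤ S] (z : ℂ) (h : ℤ[X]) :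
    aeval z (h.map (Int.castRingHom ℚ)) = aeval z h := by
  rw [Polynomial.aeval_def, Polynomial.aeval_def, Polynomial.eval₂_map]
  congr 1

/-- a polynomial without zeros among the roots is invertible at the roots -/
private theorem zbr_cop {N : ℕ} (P R : Matrix (Fin N) (Fin N) ℤ) (hd : P.det ≠ 0) (θ : Fin N → ℂ)
    (hθ : Function.Injective θ) (hr : ∀ t, aeval (θ t) (pen P R) = 0) (h : ℤ[X])
    (hh : ∀ t, aeval (θ t) h ≠ 0) : ∃ u : ℚ[X], ∀ t, aeval (θ t) u * aeval (θ t) h = 1 := by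
  obtain ⟨F, hF⟩ : ∃ F : ℂ[X], F = (pen P R).map (Int.castRingHom ℂ) := ⟨_, rfl⟩
  have hFe : ∀ z : ℂ, F.eval z = aeval z (pen P R) := by
    intro z
    rw [hF, Polynomial.eval_map, Polynomial.aeval_def]
    congr 1
  have hc : F.coeff N = (P.det : ℂ) := by
    rw [hF, Polynomial.coeff_map, zbr_pen_form]
    have h1 := coeff_det_X_add_C_card P (-R)
    rw [Fintype.card_fin] at h1
    rw [h1]
    rfl
  have hF0 : F ≠ 0 := by
    intro h0
    rw [h0, coeff_zero] at hc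
    exact hd (by exact_mod_cast hc.symm)
  have hdeg : F.natDegree ≤ N := by
    rw [hF]
    refine (Polynomial.natDegree_map_le).trans ?_
    rw [zbr_pen_form]
    have h1 := natDegree_det_X_add_C_le P (-R)
    rwa [Fintype.card_fin] at h1
  have hroots : ∀ a : ℂ, F.eval a = 0 → ∃ t, θ t = a := by
    intro a ha
    by_contra hcon
    push Not at hcon
    have h2 : (insert a (Finset.univ.image θ)).card ≤ F.natDegree := by
      refine Polynomial.card_le_degree_of_subset_roots ?_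
      intro b hb
      rw [Finset.mem_val, Finset.mem_insert, Finset.mem_image] at hb
      rw [Polynomial.mem_roots hF0, Polynomial.IsRoot.def]
      rcases hb with rfl | ⟨t, _, rfl⟩
      · exact ha
      · rw [hFe, hr]
    rw [Finset.card_insert_of_notMem, Finset.card_image_of_injective _ hθ, Finset.card_univ,
      Fintype.card_fin] at h2
    · omega
    · rw [Finset.mem_image]
      rintro ⟨t, _, ht⟩
      exact hcon t ht
  have hcop : IsCoprime (h.map (Int.castRingHom ℚ)) ((pen P R).map (Int.castRingHom ℚ)) := by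
    refine (Polynomial.isCoprime_iff_aeval_ne_zero_of_isAlgClosed ℚ ℂ _ _).2 ?_
    intro a
    rw [zbr_map (S := ℤ), zbr_map (S := ℤ)]
    by_cases ha : aeval a (pen P R) = 0
    · left
      obtain ⟨t, rfl⟩ := hroots a (by rw [hFe, ha])
      exact hh t
    · right
      exact ha
  obtain ⟨u, v, huv⟩ := hcop
  refine ⟨u, fun t => ?_⟩
  have h3 := congrArg (aeval (θ t)) huv
  rw [map_add, map_mul, map_mul, zbr_map (S := ℤ), zbr_map (S := ℤ), hr, mul_zero, add_zero,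
    map_one] at h3
  exact h3

private theorem zbr_symm {N : ℕ} (P R : Matrix (Fin N) (Fin N) ℤ) (hP : P.IsSymm)
    (hR : R.IsSymm) : (pm P R)ᵀ = pm P R := by
  ext1 i j
  simp only [pm, Matrix.transpose_apply, Matrix.sub_apply, Matrix.smul_apply, Matrix.map_apply]
  rw [hP.apply, hR.apply]

theorem sq_of_zb (g : ℕ) (P R : Matrix (Fin (2 * g + 1)) (Fin (2 * g + 1)) ℤ) (hP : P.IsSymm)
    (hR : R.IsSymm) (hd : P.det ≠ 0) (hz : ZB g P R) (κ x : ℤ) (h : PtOf P R κ x)
    (θ : Fin (2 * g + 1) → ℂ) (hθ : Function.Injective θ)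
    (hr : ∀ t, Polynomial.aeval (θ t) (pen P R) = 0) :
    ∃ q : ℚ[X], ∀ t, ((-1) ^ g * (κ : ℂ)) * (θ t - (x : ℂ)) = (aeval (θ t) q) ^ 2 := by
  obtain ⟨w, hw⟩ := h
  obtain ⟨V, hV⟩ : ∃ V : Fin (2 * g + 1) → ℤ[X], V = fun i => C (w i) := ⟨_, rfl⟩
  rw [← hV] at hw
  have hsym : (pm P R).IsSymm := zbr_symm P R hP hR
  obtain ⟨p, hp⟩ := zb_adj g (pm P R) hsym (by
    intro i j hi hj
    simp only [pm, Matrix.sub_apply, Matrix.smul_apply, Matrix.map_apply]
    rw [(hz i j hi hj).1, (hz i j hi hj).2, C_0, smul_zero, sub_zero])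
  -- the form at the roots
  have hMat : ∀ t, ∀ φ : ℤ[X] →+* ℂ, φ = (Polynomial.aeval (θ t)).toRingHom →
      φ.mapMatrix (pm P R) =
        θ t • P.map (Int.cast : ℤ → ℂ) - R.map (Int.cast : ℤ → ℂ) := by
    intro t φ hφ
    ext i j
    rw [RingHom.mapMatrix_apply, Matrix.map_apply, hφ]
    simp [pm]
  have hform : ∀ t, ∀ U U' : Fin (2 * g + 1) → ℤ[X],
      aeval (θ t) (U ⬝ᵥ ((pm P R).adjugate *ᵥ U')) =
        (fun i => aeval (θ t) (U i)) ⬝ᵥ
          ((θ t • P.map (Int.cast : ℤ → ℂ) - R.map (Int.cast : ℤ → ℂ)).adjugate *ᵥ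
            (fun i => aeval (θ t) (U' i))) := by
    intro t U U'
    obtain ⟨φ, hφ⟩ : ∃ φ : ℤ[X] →+* ℂ, φ = (Polynomial.aeval (θ t)).toRingHom := ⟨_, rfl⟩
    have hφa : ∀ g : ℤ[X], aeval (θ t) g = φ g := by
      intro g
      rw [hφ]
      rfl
    simp only [hφa]
    rw [← hMat t φ hφ, ← RingHom.map_adjugate, dotProduct, dotProduct, map_sum]
    refine Finset.sum_congr rfl fun i _ => ?_
    rw [map_mul, Matrix.mulVec, Matrix.mulVec, dotProduct, dotProduct, map_sum]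
    congr 1
    refine Finset.sum_congr rfl fun j _ => ?_
    rw [map_mul]
    rfl
  have hentry : ∀ t i j, aeval (θ t) ((pm P R).adjugate i j) =
      (θ t • P.map (Int.cast : ℤ → ℂ) - R.map (Int.cast : ℤ → ℂ)).adjugate i j := by
    intro t i j
    obtain ⟨φ, hφ⟩ : ∃ φ : ℤ[X] →+* ℂ, φ = (Polynomial.aeval (θ t)).toRingHom := ⟨_, rfl⟩
    rw [← hMat t φ hφ, ← RingHom.map_adjugate, hφ]
    rfl
  -- symmetric matrices over the complex numbers
  have hPc : (P.map (Int.cast : ℤ → ℂ)).IsSymm := by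
    ext1 i j
    rw [Matrix.transpose_apply, Matrix.map_apply, Matrix.map_apply, hP.apply]
  have hRc : (R.map (Int.cast : ℤ → ℂ)).IsSymm := by
    ext1 i j
    rw [Matrix.transpose_apply, Matrix.map_apply, Matrix.map_apply, hR.apply]
  have hdc : (P.map (Int.cast : ℤ → ℂ)).det ≠ 0 := by
    have h1 : (P.map (Int.cast : ℤ → ℂ)).det = ((P.det : ℤ) : ℂ) :=
      (RingHom.map_det (Int.castRingHom ℂ) P).symm
    rw [h1]
    exact_mod_cast hd
  have hrc : ∀ t, (θ t • P.map (Int.cast : ℤ → ℂ) - R.map (Int.cast : ℤ → ℂ)).det = 0 := by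
    intro t
    rw [← pen_eval]
    exact hr t
  have hnz : ∀ t, ∃ i : Fin (2 * g + 1), g ≤ (i : ℕ) ∧ aeval (θ t) (p i) ≠ 0 := by
    intro t
    obtain ⟨i, hi, hne⟩ := zbr_kernel g _ _ hPc hRc hdc (by
      intro i j hi hj
      rw [Matrix.map_apply, (hz i j hi hj).1, Int.cast_zero]) θ hθ hrc t
    refine ⟨i, hi, fun h0 => hne ?_⟩
    rw [← hentry, hp i i hi hi, map_mul, map_mul, h0, mul_zero, mul_zero]
  obtain ⟨T, hT⟩ := zbr_pick g (fun t i => aeval (θ t) (p i)) hnz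
  obtain ⟨y, hy⟩ : ∃ y : Fin (2 * g + 1) → ℤ[X], y = fun i : Fin (2 * g + 1) =>
    if g ≤ (i : ℕ) then C ((T : ℤ) ^ (i : ℕ)) else 0 := ⟨_, rfl⟩
  obtain ⟨H, hH⟩ : ∃ H : ℤ[X], H = ∑ i, y i * p i := ⟨_, rfl⟩
  have hHe : ∀ t, aeval (θ t) H ≠ 0 := by
    intro t
    have h1 : aeval (θ t) H =
        ∑ i : Fin (2 * g + 1), (if g ≤ (i : ℕ) then (T : ℂ) ^ (i : ℕ) else 0) *
          aeval (θ t) (p i) := by
      rw [hH, map_sum]
      refine Finset.sum_congr rfl fun i _ => ?_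
      rw [map_mul, hy]
      congr 1
      dsimp only
      split_ifs
      · simp
      · rw [map_zero]
    rw [h1]
    exact hT t
  have hyy : y ⬝ᵥ ((pm P R).adjugate *ᵥ y) = (-1) ^ g * (H * H) := by
    have h1 : H * H = ∑ i, ∑ j, (y i * p i) * (y j * p j) := by
      rw [hH, Finset.sum_mul_sum]
    rw [h1, dotProduct, Finset.mul_sum]
    refine Finset.sum_congr rfl fun i _ => ?_
    rw [Matrix.mulVec, dotProduct, Finset.mul_sum, Finset.mul_sum]
    refine Finset.sum_congr rfl fun j _ => ?_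
    by_cases hi : g ≤ (i : ℕ)
    · by_cases hj : g ≤ (j : ℕ)
      · rw [hp i j hi hj]
        ring
      · have h2 : y j = 0 := by
          rw [hy]
          exact if_neg hj
        rw [h2]
        ring
    · have h2 : y i = 0 := by
        rw [hy]
        exact if_neg hi
      rw [h2]
      ring
  obtain ⟨q0, hq0⟩ : ∃ q0 : ℤ[X], q0 = V ⬝ᵥ ((pm P R).adjugate *ᵥ y) := ⟨_, rfl⟩
  have hq0' : q0 = y ⬝ᵥ ((pm P R).adjugate *ᵥ V) := by
    rw [hq0, Matrix.dotProduct_mulVec, ← Matrix.mulVec_transpose, Matrix.adjugate_transpose,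
      zbr_symm P R hP hR, dotProduct_comm]
  obtain ⟨u, hu⟩ := zbr_cop P R hd θ hθ hr H hHe
  refine ⟨u * q0.map (Int.castRingHom ℚ), fun t => ?_⟩
  have h1 := adj_rank _ (hrc t) (fun i => aeval (θ t) (V i)) (fun i => aeval (θ t) (V i))
    (fun i => aeval (θ t) (y i)) (fun i => aeval (θ t) (y i))
  rw [← hform, ← hform, ← hform, ← hform, hw, hyy, ← hq0, ← hq0'] at h1
  have e1 : aeval (θ t) (C κ * (X - C x) : ℤ[X]) = (κ : ℂ) * (θ t - (x : ℂ)) := by
    simp
  have e2 : aeval (θ t) ((-1) ^ g * (H * H) : ℤ[X]) =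
      (-1) ^ g * (aeval (θ t) H * aeval (θ t) H) := by
    simp
  rw [e1, e2] at h1
  rw [map_mul, zbr_map (S := ℤ), mul_pow]
  have h3 := hu t
  calc ((-1) ^ g * (κ : ℂ)) * (θ t - (x : ℂ))
      = ((κ : ℂ) * (θ t - (x : ℂ)) * ((-1) ^ g * (aeval (θ t) H * aeval (θ t) H))) *
          (aeval (θ t) u) ^ 2 := by
        have h4 : (aeval (θ t) u * aeval (θ t) H) ^ 2 = 1 := by rw [h3, one_pow]
        linear_combination (-((-1) ^ g * (κ : ℂ)) * (θ t - (x : ℂ))) * h4
    _ = _ := by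
        rw [h1]
        ring

theorem crel_of_zb (g : ℕ) (P R P' R' : Matrix (Fin (2 * g + 1)) (Fin (2 * g + 1)) ℤ)
    (hP : P.IsSymm) (hR : R.IsSymm) (hd : P.det ≠ 0) (hz : ZB g P R)
    (hP' : P'.IsSymm) (hR' : R'.IsSymm) (hd' : P'.det ≠ 0) (hz' : ZB g P' R')
    (κ x x' : ℤ) (hκ : κ ≠ 0) (h : PtOf P R κ x) (h' : PtOf P' R' κ x')
    (θ : Fin (2 * g + 1) → ℂ) (hθ : Function.Injective θ)
    (hr : ∀ t, Polynomial.aeval (θ t) (pen P R) = 0)
    (hr' : ∀ t, Polynomial.aeval (θ t) (pen P' R') = 0) : CRel θ x x' := by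
  obtain ⟨q, hq⟩ := sq_of_zb g P R hP hR hd hz κ x h θ hθ hr
  obtain ⟨q', hq'⟩ := sq_of_zb g P' R' hP' hR' hd' hz' κ x' h' θ hθ hr'
  have hκC : (κ : ℂ) ≠ 0 := Int.cast_ne_zero.2 hκ
  refine ⟨C ((1 : ℚ) / κ) * (q * q'), fun t => ?_⟩
  have h1 := hq t
  have h2 := hq' t
  have e2 : aeval (θ t) (C ((1 : ℚ) / κ) * (q * q')) =
      (1 / (κ : ℂ)) * (aeval (θ t) q * aeval (θ t) q') := by
    rw [map_mul, map_mul, Polynomial.aeval_C]
    congr 1
    simp
  rw [e2, mul_pow, mul_pow, ← h1, ← h2]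
  have h3 : ((-1 : ℂ) ^ g) * (-1) ^ g = 1 := by
    rw [← mul_pow]
    norm_num
  have h4 : (1 / (κ : ℂ)) ^ 2 * ((κ : ℂ) * κ) = 1 := by
    field_simp
  linear_combination (-((θ t - (x : ℂ)) * (θ t - (x' : ℂ)))) * h4 -
    ((1 / (κ : ℂ)) ^ 2 * ((κ : ℂ) * κ) * ((θ t - (x : ℂ)) * (θ t - (x' : ℂ)))) * h3

end Pool.Agent.Helper31.FM2
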