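import Pool.Agent.Helper31.FM2.SubPencil
import Pool.Agent.Helper31.FM2.ZbRel
import Pool.Agent.Helper31.FM2.NonTriv
import Pool.Agent.Helper38.FM.Points

set_option autoImplicit false

/-!
FM2-12 Small. The number of pairs `(f, class)` for odd degree and leading coefficients without a squarefree divisor `≥ H / R`.

PROOF. For `α ≠ 0` fix `α = r s^2`, `r` squarefree (`r(α)`, `s(α)` functions of `α`; `Nat.sq_mul_squarefree` for `|α|`, sign into `r`). For `p = (a, x) ∈ T`: `G_p`, `S_p` from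
`sub_pencil` with `r = r(a_n)`, `s = s(a_n)`. `|r|` is a squarefree divisor of `a_n`, so `R |r| < H`. Let `T0` = the `p` for which some `h`, `det h = ± 1`, gives
`ZB g (h^t G_p h) (h^t S_p h)`, `T1` the others. `T1`: `non_triv` (index type `T1`-subtype or the pairs themselves); injectivity: same `a`, `(G_p', S_p') = h^t (G_p, S_p) h`: `ptOf_conj`,
`crel_of_ptOf` (see `odd_points_t` in Helper38/FM/Points.lean), `OneEach`. `T0`: `p ↦ a` is injective on `T0`: for `(a, x), (a, x') ∈ T0`: `PtOf (r G) S κ x` transported by `h`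
(`ptOf_conj`, `h^t (r G) h = r (h^t G h)`), `crel_of_zb` with `P = r • h^t G h` (`ZB` for `P` follows, `det ≠ 0`), same `κ = (-1)^(g+1) r^(2g-1) ≠ 0`, so `CRel θ x x'`, `x = x'` by `OneEach`.
So `#T0 = #(T0.image fst) ≤ #(T.image fst)`.
-/

open Polynomial Matrix Pool.Agent.Helper32.DZ Pool.Agent.Helper32.FM Pool.Agent.Helper38.FM

namespace Pool.Agent.Helper31.FM2

private theorem sm_sqf (α : ℤ) (hα : α ≠ 0) : ∃ r s : ℤ, α = r * s ^ 2 ∧ Squarefree r ∧ s ≠ 0 := by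
  obtain ⟨a, b, hab, ha⟩ := Nat.sq_mul_squarefree α.natAbs
  have h1 : ((b : ℤ) ^ 2 * a) = |α| := by
    rw [Int.abs_eq_natAbs]
    exact_mod_cast hab
  have hb : (b : ℤ) ≠ 0 := by
    rintro hb
    rw [hb] at h1
    apply hα
    rw [← abs_eq_zero, ← h1]
    ring
  have hsa : Squarefree (a : ℤ) := by
    rw [← Int.squarefree_natAbs, Int.natAbs_natCast]
    exact ha
  rcases abs_choice α with h | h
  · exact ⟨a, b, by rw [← h, ← h1]; ring, hsa, hb⟩
  · refine ⟨-a, b, ?_, ?_, hb⟩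
    · have : α = -|α| := by rw [h]; ring
      rw [this, ← h1]
      ring
    · rw [← Int.squarefree_natAbs, Int.natAbs_neg, Int.natAbs_natCast]
      exact ha

private theorem sm_conj {N : ℕ} (P R P' R' g : Matrix (Fin N) (Fin N) ℤ)
    (hg : g.det = 1 ∨ g.det = -1) (e1 : P' = gᵀ * P * g) (e2 : R' = gᵀ * R * g) :
    pen P' R' = pen P R := by
  rw [e1, e2, pen_conj]
  rcases hg with h | h <;> rw [h] <;> simp

private theorem sm_roots {n H : ℕ} (a : Fin (n + 1) → ℤ) (hb : ∀ k, |a k| ≤ (H : ℤ))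
    (hg : Good a) : ∃ θ : Fin n → ℂ, Roots H a θ := by
  obtain ⟨hl, e, he, hev⟩ := hg
  exact ⟨e, hb, hl, he, hev⟩

private theorem sm_pol {n H : ℕ} (a : Fin (n + 1) → ℤ) (θ : Fin n → ℂ) (hR : Roots H a θ)
    (t : Fin n) : Polynomial.aeval (θ t) (pol a) = 0 := by
  rw [pol_eval, hR.eval, Finset.prod_eq_zero (Finset.mem_univ t) (sub_self _), mul_zero]

private theorem sm_symm {N : ℕ} (P g : Matrix (Fin N) (Fin N) ℤ) (hP : P.IsSymm) :
    (gᵀ * P * g).IsSymm := by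
  unfold Matrix.IsSymm
  rw [Matrix.transpose_mul, Matrix.transpose_mul, Matrix.transpose_transpose, hP.eq, Matrix.mul_assoc]

theorem odd_small (g : ℕ) (hg : 1 ≤ g) : ∃ C δ : ℝ, 1 ≤ C ∧ 0 < δ ∧ ∀ H : ℕ, 1 ≤ H → ∀ R : ℝ, 1 ≤ R →
    ∀ T : Finset ((Fin (2 * g + 1 + 1) → ℤ) × ℤ),
      (∀ p ∈ T, (∀ k, |p.1 k| ≤ (H : ℤ)) ∧ Good p.1 ∧
        (∃ y : ℤ, y ^ 2 = ∑ i, p.1 i * p.2 ^ (i : ℕ)) ∧
        ∀ q : ℕ, Squarefree q → (q : ℤ) ∣ p.1 (Fin.last (2 * g + 1)) → R * q < H) →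
      OneEach H T →
      (T.card : ℝ) ≤ C * R ^ (-δ) * (H : ℝ) ^ (2 * g + 2) + ((T.image fun p => p.1).card : ℝ) := by
  classical
  obtain ⟨C0, δ, hC0, hδ, hnt⟩ := non_triv g hg
  refine ⟨C0, δ, hC0, hδ, fun H hH R hR T hT hone => ?_⟩
  -- the decomposition of the leading coefficients
  have hdec : ∀ α : ℤ, ∃ r s : ℤ, α ≠ 0 → α = r * s ^ 2 ∧ Squarefree r ∧ s ≠ 0 := by
    intro α
    by_cases hα : α = 0
    · exact ⟨0, 0, fun h => absurd hα h⟩
    · obtain ⟨r, s, h⟩ := sm_sqf α hα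
      exact ⟨r, s, fun _ => h⟩
  choose rr ss hrs using hdec
  obtain ⟨rp, hrp⟩ : ∃ rp : (Fin (2 * g + 1 + 1) → ℤ) × ℤ → ℤ,
    rp = fun p => rr (p.1 (Fin.last (2 * g + 1))) := ⟨_, rfl⟩
  obtain ⟨sp, hsp⟩ : ∃ sp : (Fin (2 * g + 1 + 1) → ℤ) × ℤ → ℤ,
    sp = fun p => ss (p.1 (Fin.last (2 * g + 1))) := ⟨_, rfl⟩
  have hdc : ∀ p ∈ T, p.1 (Fin.last (2 * g + 1)) = rp p * sp p ^ 2 ∧ Squarefree (rp p) ∧
      sp p ≠ 0 := by
    intro p hp
    rw [hrp, hsp]
    exact hrs _ (hT p hp).2.1.1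
  have hch : ∀ p : (Fin (2 * g + 1 + 1) → ℤ) × ℤ,
      ∃ G S : Matrix (Fin (2 * g + 1)) (Fin (2 * g + 1)) ℤ,
      p ∈ T → G.IsSymm ∧ S.IsSymm ∧ G.det = (-1) ^ g * sp p ^ 2 ∧ NegSq (rp p) S ∧
      pen (rp p • G) S = C (-(-1) ^ (g + 1) * rp p ^ (2 * g)) * pol p.1 ∧
      PtOf (rp p • G) S ((-1) ^ (g + 1) * rp p ^ (2 * g - 1)) p.2 := by
    intro p
    by_cases hp : p ∈ T
    · obtain ⟨h1, h2, ⟨y, hy⟩, h3⟩ := hT p hp
      obtain ⟨G, S, h⟩ := sub_pencil g hg p.1 h2.1 p.2 y hy (rp p) (sp p) (hdc p hp).1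
      exact ⟨G, S, fun _ => h⟩
    · exact ⟨0, 0, fun h => absurd h hp⟩
  choose G S hGS using hch
  obtain ⟨Z, hZ⟩ : ∃ Z : (Fin (2 * g + 1 + 1) → ℤ) × ℤ → Prop,
    Z = fun p => ∃ h : Matrix (Fin (2 * g + 1)) (Fin (2 * g + 1)) ℤ, (h.det = 1 ∨ h.det = -1) ∧
      ZB g (hᵀ * G p * h) (hᵀ * S p * h) := ⟨_, rfl⟩
  have hcard : T.card = (T.filter fun p => ¬ Z p).card + (T.filter fun p => Z p).card := by
    have h0 : (T.filter fun p => Z p).card + (T.filter fun p => ¬ Z p).card = T.card :=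
      Finset.card_filter_add_card_filter_not _
    omega
  have h1 : ((T.filter fun p => ¬ Z p).card : ℝ) ≤ C0 * R ^ (-δ) * (H : ℝ) ^ (2 * g + 2) := by
    refine hnt H hH R hR _ (T.filter fun p => ¬ Z p) (fun p => p.1) rp sp G S ?_ ?_
    · intro p hp
      rw [Finset.mem_filter] at hp
      obtain ⟨hp, hz⟩ := hp
      obtain ⟨k1, k2, k3, k4, k5, k6⟩ := hGS p hp
      obtain ⟨d1, d2, d3⟩ := hdc p hp
      refine ⟨(hT p hp).1, (hT p hp).2.1, d1, d2, ?_, k1, k2, ?_, k4, k5, ?_⟩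
      · have e1 := (hT p hp).2.2.2 (rp p).natAbs (Int.squarefree_natAbs.2 d2) (by
          rw [Int.natAbs_dvd, d1]
          exact Dvd.intro _ rfl)
        have e2 : |((rp p : ℤ) : ℝ)| = (((rp p).natAbs : ℕ) : ℝ) := by
          rw [Nat.cast_natAbs, Int.cast_abs]
        rw [e2]
        exact e1
      · rw [k3, abs_mul, abs_pow, abs_neg, abs_one, one_pow, one_mul, abs_of_nonneg (sq_nonneg _)]
      · intro h hh hzb
        apply hz
        rw [hZ]
        exact ⟨h, hh, hzb⟩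
    · rintro ⟨a, x⟩ hp ⟨a', x'⟩ hp' h hh ha hr e1 e2
      rw [Finset.mem_filter] at hp hp'
      replace hp := hp.1
      replace hp' := hp'.1
      obtain ⟨k1, k2, k3, k4, k5, k6⟩ := hGS _ hp
      obtain ⟨l1, l2, l3, l4, l5, l6⟩ := hGS _ hp'
      obtain ⟨d1, d2, d3⟩ := hdc _ hp
      have ha' : a' = a := ha
      subst ha'
      have e3 : rp (a', x') • G (a', x') = hᵀ * (rp (a', x) • G (a', x)) * h := by
        rw [e1, hr, Matrix.mul_smul, Matrix.smul_mul]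
      have h7 : PtOf (rp (a', x') • G (a', x')) (S (a', x'))
          ((-1) ^ (g + 1) * rp (a', x') ^ (2 * g - 1)) x := by
        rw [e3, e2, hr]
        exact ptOf_conj _ _ h hh _ _ k6
      obtain ⟨θ, hθ⟩ := sm_roots a' (hT _ hp).1 (hT _ hp).2.1
      have h8 : CRel θ x x' := by
        refine crel_of_ptOf (rp (a', x') • G (a', x')) (S (a', x')) (l1.smul _) l2 _
          (mul_ne_zero (pow_ne_zero _ (by norm_num)) (pow_ne_zero _ ?_)) x x' h7 l6 θ ?_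
        · exact (hdc _ hp').2.1.ne_zero
        · intro t
          rw [l5, map_mul, sm_pol a' θ hθ t, mul_zero]
      rw [hone a' x x' hp hp' θ hθ h8]
  have h2 : (T.filter fun p => Z p).card ≤ (T.image fun p => p.1).card := by
    have h3 : (T.filter fun p => Z p).card = ((T.filter fun p => Z p).image fun p => p.1).card := by
      rw [Finset.card_image_of_injOn]
      rintro ⟨a, x⟩ hp ⟨a', x'⟩ hp' haa
      rw [Finset.mem_coe, Finset.mem_filter] at hp hp'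
      have ha' : a = a' := haa
      subst ha'
      obtain ⟨hp, hz⟩ := hp
      obtain ⟨hp', hz'⟩ := hp'
      rw [hZ] at hz hz'
      obtain ⟨h, hh, hzb⟩ := hz
      obtain ⟨h', hh', hzb'⟩ := hz'
      obtain ⟨k1, k2, k3, k4, k5, k6⟩ := hGS _ hp
      obtain ⟨l1, l2, l3, l4, l5, l6⟩ := hGS _ hp'
      obtain ⟨d1, d2, d3⟩ := hdc _ hp
      have hrr : rp (a, x') = rp (a, x) := by rw [hrp]
      have hss : sp (a, x') = sp (a, x) := by rw [hsp]
      rw [hrr] at l4 l5 l6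
      rw [hss] at l3
      obtain ⟨θ, hθ⟩ := sm_roots a (hT _ hp).1 (hT _ hp).2.1
      have hr0 : rp (a, x) ≠ 0 := d2.ne_zero
      have hzz : ∀ (A B : Matrix (Fin (2 * g + 1)) (Fin (2 * g + 1)) ℤ) (r : ℤ)
          (f : Matrix (Fin (2 * g + 1)) (Fin (2 * g + 1)) ℤ), ZB g (fᵀ * A * f) (fᵀ * B * f) →
          ZB g (fᵀ * (r • A) * f) (fᵀ * B * f) := by
        intro A B r f hf i j hi hj
        refine ⟨?_, (hf i j hi hj).2⟩
        rw [Matrix.mul_smul, Matrix.smul_mul, Matrix.smul_apply, (hf i j hi hj).1, smul_zero]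
      have hdd : ∀ (A f : Matrix (Fin (2 * g + 1)) (Fin (2 * g + 1)) ℤ) (r : ℤ), r ≠ 0 →
          (f.det = 1 ∨ f.det = -1) → A.det = (-1) ^ g * sp (a, x) ^ 2 →
          (fᵀ * (r • A) * f).det ≠ 0 := by
        intro A f r hr hf hA
        rw [Matrix.det_mul, Matrix.det_mul, Matrix.det_transpose, Matrix.det_smul, hA]
        have hf0 : f.det ≠ 0 := by rcases hf with h | h <;> rw [h] <;> norm_num
        exact mul_ne_zero (mul_ne_zero hf0 (mul_ne_zero (pow_ne_zero _ hr)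
          (mul_ne_zero (pow_ne_zero _ (by norm_num)) (pow_ne_zero _ d3)))) hf0
      have h8 : CRel θ x x' := by
        refine crel_of_zb g (hᵀ * (rp (a, x) • G (a, x)) * h) (hᵀ * S (a, x) * h)
          (h'ᵀ * (rp (a, x) • G (a, x')) * h') (h'ᵀ * S (a, x') * h')
          (sm_symm _ _ (k1.smul _)) (sm_symm _ _ k2) (hdd _ _ _ hr0 hh k3) (hzz _ _ _ _ hzb)
          (sm_symm _ _ (l1.smul _)) (sm_symm _ _ l2) (hdd _ _ _ hr0 hh' l3) (hzz _ _ _ _ hzb')
          ((-1) ^ (g + 1) * rp (a, x) ^ (2 * g - 1)) x x'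
          (mul_ne_zero (pow_ne_zero _ (by norm_num)) (pow_ne_zero _ hr0))
          (ptOf_conj _ _ h hh _ _ k6) (ptOf_conj _ _ h' hh' _ _ l6) θ hθ.inj ?_ ?_
        · intro t
          rw [sm_conj _ _ _ _ h hh rfl rfl, k5, map_mul, sm_pol a θ hθ t, mul_zero]
        · intro t
          rw [sm_conj _ _ _ _ h' hh' rfl rfl, l5, map_mul, sm_pol a θ hθ t, mul_zero]
      rw [hone a x x' hp hp' θ hθ h8]
    rw [h3]
    exact Finset.card_le_card (Finset.image_subset_image (Finset.filter_subset _ _))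
  have h3 : (((T.filter fun p => Z p).card : ℕ) : ℝ) ≤ ((T.image fun p => p.1).card : ℝ) := by
    exact_mod_cast h2
  rw [hcard]
  push_cast
  linarith

end Pool.Agent.Helper31.FM2
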