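import Pool.Agent.Helper31.FM2.PtLast
import Pool.Agent.Helper5.FM.Sub

set_option autoImplicit false

/-!
FM2-1b SubPencil. Restriction of the pencil to the sublattice `{u : u_last = 0 mod s}`, for `a_n = r s^2`.

PROOF. `G0`, `S0` from `pt_last`, `t = a_n = r s^2`, `D = diag(1, ..., 1, s)`, `G = D G0 D`, `S i j = (D S0 D) i j / s^2` (integral: for
`(i,j) ≠ (last,last)` `t ∣ S0 i j`, so `S i j = d_i d_j r (S0 i j / t)` and for the corner `s^2 S0/s^2 = S0 (last,last)`). `det G = (-1)^g s^2`. `S + e e^t`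
(`e` the last unit vector) is divisible by `r` (every entry `i ≠ last` or `j ≠ last` is a multiple of `r`; the corner: `S0 + 1 = 0` mod `t`).
`s^2 pm (r G) S = D pm (t G0) S0 D` (as matrices over `ℤ[X]`), so `s^(2n) pen (r G) S = s^2 pen (t G0) S0 = s^2 C(- (-1)^(g+1) (r s^2)^(2g)) pol a`,
`n = 2 g + 1`: cancel `s^(4g+2)`. POINT: `w = D w0`; `adj (s^2 M) = s^(4g) adj M` (`Matrix.adjugate_smul`), `adj (D M0 D) = adj D adj M0 adj D`,
`adj D D = s`: `s^(4g) w^t adj M w = (adj D w)^t adj M0 (adj D w) = s^2 w0^t adj M0 w0 = s^2 C((-1)^(g+1) (r s^2)^(2g-1)) (X - x₀)`: cancel `s^(4g)`.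
(`s ≠ 0` as `a_n ≠ 0`.)
-/

open Polynomial Matrix Pool.Agent.Helper32.DZ Pool.Agent.Helper32.FM Pool.Agent.Helper38.FM

namespace Pool.Agent.Helper31.FM2

theorem sub_pencil (g : ℕ) (hg : 1 ≤ g) (a : Fin (2 * g + 1 + 1) → ℤ)
    (hl : a (Fin.last (2 * g + 1)) ≠ 0) (x₀ y₀ : ℤ) (hxy : y₀ ^ 2 = ∑ i, a i * x₀ ^ (i : ℕ))
    (r s : ℤ) (hrs : a (Fin.last (2 * g + 1)) = r * s ^ 2) :
    ∃ G S : Matrix (Fin (2 * g + 1)) (Fin (2 * g + 1)) ℤ, G.IsSymm ∧ S.IsSymm ∧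
      G.det = (-1) ^ g * s ^ 2 ∧ NegSq r S ∧
      pen (r • G) S = C (-(-1) ^ (g + 1) * r ^ (2 * g)) * pol a ∧
      PtOf (r • G) S ((-1) ^ (g + 1) * r ^ (2 * g - 1)) x₀ := by
  obtain ⟨G0, S0, hG0, hS0, hd0, hdiv, hpen, hpt⟩ := pt_last g hg a hl x₀ y₀ hxy
  obtain ⟨t, ht⟩ : ∃ t, t = a (Fin.last (2 * g + 1)) := ⟨_, rfl⟩
  rw [← ht] at hl hrs hdiv hpen hpt
  have hs : s ≠ 0 := by
    rintro rfl
    exact hl (by rw [hrs]; ring)
  have hs2 : s ^ 2 ≠ 0 := pow_ne_zero _ hs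
  choose q hq using hdiv
  obtain ⟨e, he⟩ : ∃ e : Fin (2 * g + 1) → ℤ, ∀ i, e i = if (i : ℕ) = 2 * g then 1 else 0 :=
    ⟨fun i => if (i : ℕ) = 2 * g then 1 else 0, fun i => rfl⟩
  obtain ⟨d, hd⟩ : ∃ d : Fin (2 * g + 1) → ℤ, ∀ i, d i = if (i : ℕ) = 2 * g then s else 1 :=
    ⟨fun i => if (i : ℕ) = 2 * g then s else 1, fun i => rfl⟩
  have hde : ∀ i, d i * e i = s * e i := by
    intro i
    rw [hd, he]
    split_ifs <;> ring
  have hS0q : ∀ i j, S0 i j = t * q i j - e i * e j := by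
    intro i j
    have h1 := hq i j
    rw [← he, ← he] at h1
    linarith
  have hqs : ∀ i j, q i j = q j i := by
    intro i j
    have h1 := hS0q i j
    have h2 := hS0q j i
    rw [hS0.apply i j] at h2
    have h3 : t * q i j = t * q j i := by linarith [mul_comm (e i) (e j)]
    exact mul_left_cancel₀ hl h3
  obtain ⟨D, hD⟩ : ∃ D : Matrix (Fin (2 * g + 1)) (Fin (2 * g + 1)) ℤ, D = Matrix.diagonal d :=
    ⟨_, rfl⟩
  have hDt : Dᵀ = D := by rw [hD, Matrix.diagonal_transpose]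
  have hDd : D.det = s := by
    rw [hD, Matrix.det_diagonal, Fin.prod_univ_castSucc]
    rw [Finset.prod_eq_one, one_mul, hd]
    · simp
    · intro i _
      rw [hd, if_neg]
      have := i.2
      simp only [Fin.val_castSucc]
      omega
  have hent : ∀ (M : Matrix (Fin (2 * g + 1)) (Fin (2 * g + 1)) ℤ) (i j : Fin (2 * g + 1)),
      (Dᵀ * M * D) i j = d i * M i j * d j := by
    intro M i j
    rw [hDt, hD, Matrix.mul_diagonal, Matrix.diagonal_mul]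
  obtain ⟨S, hS⟩ : ∃ S : Matrix (Fin (2 * g + 1)) (Fin (2 * g + 1)) ℤ,
    S = Matrix.of fun i j => r * (d i * d j * q i j) - e i * e j := ⟨_, rfl⟩
  have hP : s ^ 2 • (r • (Dᵀ * G0 * D)) = Dᵀ * (t • G0) * D := by
    rw [Matrix.mul_smul, Matrix.smul_mul, smul_smul, hrs, mul_comm (s ^ 2) r]
  have hR : s ^ 2 • S = Dᵀ * S0 * D := by
    ext1 i j
    rw [hent, Matrix.smul_apply, hS, Matrix.of_apply, hS0q, hrs, smul_eq_mul]
    linear_combination (s * e i) * (hde j) - (d j * e j) * (- (hde i))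
  refine ⟨Dᵀ * G0 * D, S, ?_, ?_, ?_, ?_, ?_, ?_⟩
  · ext1 i j
    rw [Matrix.transpose_apply, hent, hent, hG0.apply]
    ring
  · ext1 i j
    rw [Matrix.transpose_apply, hS, Matrix.of_apply, Matrix.of_apply, hqs j i]
    ring
  · rw [Matrix.det_mul, Matrix.det_mul, Matrix.det_transpose, hDd, hd0]
    ring
  · refine ⟨e, fun i j => ⟨d i * d j * q i j, ?_⟩⟩
    rw [hS, Matrix.of_apply]
    ring
  · have h1 : pen (s ^ 2 • (r • (Dᵀ * G0 * D))) (s ^ 2 • S) =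
        (C (s ^ 2)) ^ (2 * g + 1) * pen (r • (Dᵀ * G0 * D)) S := by
      unfold pen
      have e1 : ((X : ℤ[X]) • (s ^ 2 • (r • (Dᵀ * G0 * D))).map (C : ℤ → ℤ[X]) -
          (s ^ 2 • S).map (C : ℤ → ℤ[X])) =
          (C (s ^ 2) : ℤ[X]) • ((X : ℤ[X]) • (r • (Dᵀ * G0 * D)).map (C : ℤ → ℤ[X]) -
          S.map (C : ℤ → ℤ[X])) := by
        ext1 i j
        simp only [Matrix.sub_apply, Matrix.smul_apply, Matrix.map_apply, smul_eq_mul, map_mul]
        ring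
      rw [e1, Matrix.det_smul, Fintype.card_fin]
    have h2 : pen (Dᵀ * (t • G0) * D) (Dᵀ * S0 * D) = C (s ^ 2) * pen (t • G0) S0 := by
      rw [pen_conj, hDd]
    rw [hP, hR, h2, hpen] at h1
    have hC : (C (s ^ 2) : ℤ[X]) ^ (2 * g + 1) ≠ 0 := pow_ne_zero _ (by rwa [Ne, C_eq_zero])
    refine mul_left_cancel₀ hC ?_
    rw [← h1, hrs]
    simp only [C_mul, C_neg, C_pow, C_1]
    ring
  · refine Pool.Agent.Helper5.FM.ptOf_base (t • G0) S0 (r • (Dᵀ * G0 * D)) S D (s ^ 2) hs2 hP hR _ _ x₀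
      ?_ hpt
    rw [hDd, hrs]
    obtain ⟨k, hk⟩ : ∃ k, g = k + 1 := ⟨g - 1, by omega⟩
    subst hk
    have e1 : 2 * (k + 1) + 1 - 1 = 2 * k + 2 := by omega
    have e2 : 2 * (k + 1) - 1 = 2 * k + 1 := by omega
    rw [e1, e2]
    ring

end Pool.Agent.Helper31.FM2
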